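import Pool.Agent.Lib_helper56.Dec.Zero

/-!
Compression of insertions relative to a coarsening, and realisation by words.
-/

set_option autoImplicit false
set_option linter.unusedSectionVars false

namespace Pool.Agent.Dec56

/-- tokens with witness lists -/
inductive XT (A G : Type*) [Group G]
  | lt (a : A) : XT A G
  | xb (b : Blob G) (l : List G) : XT A G

section comp

variable {A G : Type*} [Group G] [DecidableEq G] (π : A → G)

def XT.era : XT A G → Tok A G
  | .lt a => .lt a
  | .xb b _ => .bl b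

/-- states of the reading automaton -/
abbrev St (A G : Type*) [Group G] := Option (G × Blob G × List G) × List (XT A G)

inductive E : St A G → St A G → Prop
  | exit (b : Blob G) (V) : E (some (b.c, b, []), V) (none, V)
  | enter (b : Blob G) (l : List G) (V) : E (none, .xb b l :: V) (some (1, b, l), V)

inductive T1 : St A G → Tok A G → St A G → Prop
  | out (a : A) (V) : T1 (none, .lt a :: V) (.lt a) (none, V)
  | inn (y : G) (b : Blob G) (l0 l' : List G) (V) (τ : Tok A G)
      (hcov : ∀ x ∈ τ.cov π, y * x ∈ b.C) (hl : TE π τ l0) :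
      T1 (some (y, b, l0.map (y * ·) ++ l'), V) τ (some (y * τ.val π, b, l'), V)

def TR (s : St A G) (τ : Tok A G) (s' : St A G) : Prop :=
  ∃ s1, Relation.ReflTransGen E s s1 ∧ T1 π s1 τ s'

inductive TRs : St A G → List (Tok A G) → St A G → Prop
  | nil (s) : TRs s [] s
  | cons {s s1 s2 τ t} : TR π s τ s1 → TRs s1 t s2 → TRs s (τ :: t) s2

def Acc (s : St A G) (t : List (Tok A G)) : Prop :=
  ∃ s', TRs π s t s' ∧ Relation.ReflTransGen E s' (none, [])

theorem TRs.append {s s1 s2 : St A G} {t t' : List (Tok A G)} (h : TRs π s t s1)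
    (h' : TRs π s1 t' s2) : TRs π s (t ++ t') s2 := by
  induction h with
  | nil => exact h'
  | cons h1 _ ih => exact .cons h1 (ih h')

theorem TRs.split {t t' : List (Tok A G)} : ∀ {s s2 : St A G}, TRs π s (t ++ t') s2 →
    ∃ s1, TRs π s t s1 ∧ TRs π s1 t' s2 := by
  induction t with
  | nil => intro s s2 h; exact ⟨s, .nil s, h⟩
  | cons τ t ih =>
    intro s s2 h
    cases h with
    | cons h1 h2 =>
      obtain ⟨s1, h3, h4⟩ := ih h2
      exact ⟨s1, .cons h1 h3, h4⟩

theorem Acc.eps {s s1 : St A G} {t : List (Tok A G)} (h : E s s1) (h' : Acc π s1 t) :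
    Acc π s t := by
  obtain ⟨s', h1, h2⟩ := h'
  cases h1 with
  | nil => exact ⟨s, .nil s, Relation.ReflTransGen.head h h2⟩
  | cons h3 h4 =>
    obtain ⟨s3, h5, h6⟩ := h3
    exact ⟨s', .cons ⟨s3, Relation.ReflTransGen.head h h5, h6⟩ h4, h2⟩

theorem Acc.append {s s1 : St A G} {t t' : List (Tok A G)} (h : TRs π s t s1)
    (h' : Acc π s1 t') : Acc π s (t ++ t') := by
  obtain ⟨s', h1, h2⟩ := h'
  exact ⟨s', h.append π h1, h2⟩

theorem trs_inner {b : Blob G} {V : List (XT A G)} {f : List (Tok A G)} :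
    ∀ {y : G} {l l' : List G}, Emb π f l → (∀ x ∈ cov π f, y * x ∈ b.C) →
      TRs π (some (y, b, l.map (y * ·) ++ l'), V) f (some (y * val π f, b, l'), V) := by
  induction f with
  | nil =>
    intro y l l' h _
    cases (show l = [] from h)
    simpa using TRs.nil (π := π) _
  | cons τ f ih =>
    rintro y l l' ⟨l0, l1, h0, h1, rfl⟩ hcov
    have h2 := ih (y := y * τ.val π) (l' := l') h1 (by
      intro x hx
      rw [mul_assoc]
      apply hcov
      rw [mem_cov_cons]; right; exact ⟨x, hx, rfl⟩)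
    have h3 : T1 π (some (y, b, l0.map (y * ·) ++ (l1.map (y * τ.val π * ·) ++ l')), V) τ
        (some (y * τ.val π, b, l1.map (y * τ.val π * ·) ++ l'), V) :=
      T1.inn y b l0 _ V τ (by
        intro x hx
        apply hcov
        rw [mem_cov_cons]; left; exact hx) h0
    have h4 := TRs.cons ⟨_, Relation.ReflTransGen.refl, h3⟩ h2
    have e1 : (l0 ++ l1.map (τ.val π * ·)).map (y * ·) ++ l' =
        l0.map (y * ·) ++ (l1.map (y * τ.val π * ·) ++ l') := by
      simp [Function.comp_def, mul_assoc]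
    rw [e1, val_cons, ← mul_assoc]
    exact h4

variable (N : ℕ → ℕ)

def GoodX (X : List (XT A G)) : Prop :=
  ∀ b l, XT.xb b l ∈ X → (∀ x ∈ l, x ∈ b.C) ∧ NF b.C.card (N b.C.card) l ∧
    l.length ≤ N b.C.card * pb b.C.card

variable {N}

theorem acc_of_coarse {V W : List (Tok A G)} (h : Coarse π N V W) :
    ∃ X : List (XT A G), X.map XT.era = W ∧ GoodX N X ∧ Acc π (none, X) V := by
  induction h with
  | nil => exact ⟨[], rfl, by intro b l h; simp at h, _, .nil _, .refl⟩
  | lt a _ ih =>
    obtain ⟨X, rfl, hg, hacc⟩ := ih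
    refine ⟨.lt a :: X, rfl, ?_, ?_⟩
    · intro b l h
      rcases List.mem_cons.1 h with h | h
      · cases h
      · exact hg b l h
    · have : TRs π (none, .lt a :: X) [Tok.lt a] (none, X) :=
        .cons ⟨_, .refl, .out a X⟩ (.nil _)
      exact Acc.append π this hacc
  | mg f hf _ ih =>
    obtain ⟨X, rfl, hg, hacc⟩ := ih
    obtain ⟨l, he, hN⟩ := hf
    obtain ⟨l', hs, hN', hlen⟩ := NF_bound hN
    have he' := Emb_sublist π he hs
    refine ⟨.xb (blobOf π f) l' :: X, rfl, ?_, ?_⟩
    · intro b l0 h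
      rcases List.mem_cons.1 h with h | h
      · cases h
        exact ⟨fun x hx => Emb_mem_cov π he' hx, hN', hlen⟩
      · exact hg b l0 h
    · apply Acc.eps π (.enter (blobOf π f) l' X)
      have h1 := trs_inner π (b := blobOf π f) (V := X) (y := 1) (l' := []) he' (by
        intro x hx; rw [one_mul]; exact hx)
      have e : l'.map ((1 : G) * ·) ++ [] = l' := by simp
      rw [e, one_mul] at h1
      apply Acc.append π h1
      exact Acc.eps π (.exit (blobOf π f) X) hacc

/-- meaning of states -/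
def Interp (N : ℕ → ℕ) : St A G → List (Tok A G) → Prop
  | (none, V), t => Coarse π N t (V.map XT.era)
  | (some (y, b, l), V), t => ∃ f t', t = f ++ t' ∧ Emb π f (l.map (y⁻¹ * ·)) ∧
      (∀ x ∈ cov π f, y * x ∈ b.C) ∧ y * val π f = b.c ∧ Coarse π N t' (V.map XT.era)

theorem E.good {s s' : St A G} (h : E s s') (hg : GoodX N s.2) : GoodX N s'.2 := by
  cases h with
  | exit b V => exact hg
  | enter b l V => exact fun b' l' h => hg b' l' (List.mem_cons_of_mem _ h)

theorem T1.good {s s' : St A G} {τ : Tok A G} (h : T1 π s τ s') (hg : GoodX N s.2) :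
    GoodX N s'.2 := by
  cases h with
  | out a V => exact fun b' l' h => hg b' l' (List.mem_cons_of_mem _ h)
  | inn => exact hg

theorem E.interp (hN3 : ∀ m, 3 ≤ N m) {s s' : St A G} {t : List (Tok A G)} (h : E s s')
    (hg : GoodX N s.2) (hi : Interp π N s' t) : Interp π N s t := by
  cases h with
  | exit b V =>
    exact ⟨[], t, rfl, rfl, by intro x hx; simp at hx; subst hx; simpa using b.mem, by simp, hi⟩
  | enter b l V =>
    obtain ⟨f, t', rfl, he, hc, hv, hco⟩ := hi
    obtain ⟨g1, g2, _⟩ := hg b l (by simp)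
    have e : l.map ((1 : G)⁻¹ * ·) = l := by simp
    rw [e] at he
    rw [one_mul] at hv
    have hcov : cov π f = b.C := by
      apply Finset.eq_of_subset_of_card_le
      · intro x hx; simpa using hc x hx
      · refine (NF_card (by have := hN3 b.C.card; omega) g2).trans (Finset.card_le_card ?_)
        intro x hx
        exact Emb_mem_cov π he (List.mem_toFinset.1 hx)
    have hb : blobOf π f = b := Blob.ext' hcov hv
    have := Coarse.mg (π := π) (N := N) f ⟨l, he, by rw [hcov]; exact g2⟩ hco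
    rwa [hb] at this

theorem T1.interp {s s' : St A G} {τ : Tok A G} {t : List (Tok A G)} (h : T1 π s τ s')
    (hi : Interp π N s' t) : Interp π N s (τ :: t) := by
  cases h with
  | out a V => exact .lt a hi
  | inn y b l0 l' V τ hcov hl =>
    obtain ⟨f, t', rfl, he, hc, hv, hco⟩ := hi
    refine ⟨τ :: f, t', rfl, ⟨l0, _, hl, he, ?_⟩, ?_, ?_, hco⟩
    · simp [Function.comp_def, mul_assoc]
    · intro x hx
      rcases (mem_cov_cons π).1 hx with hx | ⟨z, hz, rfl⟩
      · exact hcov x hx
      · rw [← mul_assoc]; exact hc z hz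
    · rw [val_cons, ← mul_assoc]; exact hv

theorem eps_interp (hN3 : ∀ m, 3 ≤ N m) {s s' : St A G} {t : List (Tok A G)}
    (h : Relation.ReflTransGen E s s') : GoodX N s.2 → (Interp π N s' t → Interp π N s t) ∧
      GoodX N s'.2 := by
  intro hg
  induction h with
  | refl => exact ⟨id, hg⟩
  | tail _ h2 ih => exact ⟨fun hi => ih.1 (h2.interp π hN3 ih.2 hi), h2.good ih.2⟩

theorem coarse_of_acc (hN3 : ∀ m, 3 ≤ N m) {s s' : St A G} {t : List (Tok A G)}
    (h : TRs π s t s') (hf : Relation.ReflTransGen E s' (none, [])) (hg : GoodX N s.2) :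
    Interp π N s t := by
  induction h with
  | nil s => exact (eps_interp π hN3 hf hg).1 (show Coarse π N [] [] from .nil)
  | @cons s0 s1' s2 τ t0 h1 _ ih =>
    obtain ⟨s1, h3, h4⟩ := h1
    have h5 := eps_interp π (t := τ :: t0) hN3 h3 hg
    exact h5.1 (h4.interp π (ih hf (h4.good π h5.2)))

/-! ### the region walk -/

def rstep (p : Blob G × St A G) (a : A) (q : Blob G × St A G) : Prop :=
  ∃ (d : G) (hd : d ∈ p.1.C), q.1 = p.1.shift d hd ∧
    ∃ σ1, TR π p.2 (.lt a) σ1 ∧ TR π σ1 (.bl (p.1.setc d hd)) q.2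

theorem to_walk {b : Blob G} {u : List A} {R : List (Tok A G)} (h : BIns b u R) :
    ∀ {s s' : St A G}, TRs π s R s' → ∃ (d : G) (hd : d ∈ b.C) (σ0 : St A G) (be : Blob G),
      TR π s (.bl (b.setc d hd)) σ0 ∧ Walk (rstep π) (b.shift d hd, σ0) u (be, s') ∧
      be.c = 1 := by
  induction h with
  | done b =>
    intro s s' h
    cases h with
    | cons h1 h2 =>
      cases h2
      have e : b.setc b.c b.mem = b := Blob.ext' rfl rfl
      exact ⟨b.c, b.mem, s', b.shift b.c b.mem, by rw [e]; exact h1, .nil _, by simp [Blob.shift]⟩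
  | @step b d hd a u R _ ih =>
    intro s s' h
    cases h with
    | cons h1 h2 =>
      cases h2 with
      | cons h3 h4 =>
        obtain ⟨d', hd', σ0, be, e1, e2, e3⟩ := ih h4
        exact ⟨d, hd, _, be, h1, .cons ⟨d', hd', rfl, _, h3, e1⟩ e2, e3⟩

theorem from_walk {u : List A} : ∀ {b : Blob G} {s s' σ0 : St A G} {be : Blob G} {d : G}
    {hd : d ∈ b.C}, TR π s (.bl (b.setc d hd)) σ0 →
      Walk (rstep π) (b.shift d hd, σ0) u (be, s') → be.c = 1 →
      ∃ R, BIns b u R ∧ TRs π s R s' := by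
  induction u with
  | nil =>
    intro b s s' σ0 be d hd h1 h2 h3
    cases h2
    have hdc : d = b.c := by
      have : d⁻¹ * b.c = 1 := h3
      exact (inv_mul_eq_one.1 this)
    subst hdc
    have e : b.setc b.c hd = b := Blob.ext' rfl rfl
    rw [e] at h1
    exact ⟨[.bl b], .done b, .cons h1 (.nil _)⟩
  | cons a u ih =>
    intro b s s' σ0 be d hd h1 h2 h3
    cases h2 with
    | @cons _ q _ _ _ h4 h5 =>
      obtain ⟨d', hd', hq, σ1, h6, h7⟩ := h4
      obtain ⟨q1, q2⟩ := q
      simp only at hq h6 h7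
      subst hq
      obtain ⟨R, hR, hT⟩ := ih h7 h5 h3
      exact ⟨_, .step b d hd a hR, .cons h1 (.cons h6 hT)⟩

/-- number of blobs of an extended word -/
def nx (X : List (XT A G)) : ℕ := nb (X.map XT.era)

/-- invariant of states -/
def Inv (X : List (XT A G)) : St A G → Prop
  | (none, V) => V <:+ X
  | (some (_, b, l), V) => ∃ lf, (XT.xb b lf :: V) <:+ X ∧ l <:+ lf

theorem E.inv {X : List (XT A G)} {s s' : St A G} (h : E s s') (hi : Inv X s) : Inv X s' := by
  cases h with
  | exit b V =>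
    obtain ⟨lf, h1, _⟩ := hi
    exact (List.suffix_cons _ _).trans h1
  | enter b l V => exact ⟨l, hi, List.suffix_rfl⟩

theorem T1.inv {X : List (XT A G)} {s s' : St A G} {τ : Tok A G} (h : T1 π s τ s')
    (hi : Inv X s) : Inv X s' := by
  cases h with
  | out a V => exact (List.suffix_cons _ _).trans hi
  | inn y b l0 l' V τ hcov hl =>
    obtain ⟨lf, h1, h2⟩ := hi
    exact ⟨lf, h1, (List.suffix_append _ _).trans h2⟩

theorem eps_inv {X : List (XT A G)} {s s' : St A G} (h : Relation.ReflTransGen E s s')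
    (hi : Inv X s) : Inv X s' := by
  induction h with
  | refl => exact hi
  | tail _ h2 ih => exact h2.inv ih

theorem TR.inv {X : List (XT A G)} {s s' : St A G} {τ : Tok A G} (h : TR π s τ s')
    (hi : Inv X s) : Inv X s' := by
  obtain ⟨s1, h1, h2⟩ := h
  exact h2.inv π (eps_inv h1 hi)

theorem TRs.inv {X : List (XT A G)} {s s' : St A G} {t : List (Tok A G)} (h : TRs π s t s') :
    Inv X s → Inv X s' := by
  induction h with
  | nil => exact id
  | cons h1 _ ih => exact fun hi => ih (h1.inv π hi)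

theorem TR.inside {s s' : St A G} {b : Blob G} (h : TR π s (.bl b) s') : s'.1.isSome := by
  obtain ⟨s1, _, h2⟩ := h
  cases h2
  rfl

instance [Finite G] : Finite (Blob G) := by
  apply Finite.of_injective (fun b : Blob G => (b.C, b.c))
  intro b b' h
  simp only [Prod.mk.injEq] at h
  exact Blob.ext' h.1 h.2

/-- code of a state -/
def code (B L : ℕ) (p : Blob G × St A G) : Blob G × G × Fin (B + 1) × Fin (L + 1) :=
  match p with
  | (b', (none, V)) => (b', 1, ⟨min (nx V) B, by omega⟩, ⟨0, by omega⟩)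
  | (b', (some (y, _, l), V)) => (b', y, ⟨min (nx V) B, by omega⟩, ⟨min l.length L, by omega⟩)

theorem suffix_unique {X : List (XT A G)} {b b' : Blob G} {l l' : List G}
    {V V' : List (XT A G)} (h : (XT.xb b l :: V) <:+ X) (h' : (XT.xb b' l' :: V') <:+ X)
    (hn : nx V = nx V') : b = b' ∧ l = l' ∧ V = V' := by
  have key : ∀ {b b' : Blob G} {l l' : List G} {V V' : List (XT A G)},
      (XT.xb b l :: V) <:+ (XT.xb b' l' :: V') → nx V = nx V' → b = b' ∧ l = l' ∧ V = V' := by
    intro b b' l l' V V' h hn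
    obtain ⟨Y, hY⟩ := h
    cases Y with
    | nil =>
      simp only [List.nil_append, List.cons.injEq, XT.xb.injEq] at hY
      exact ⟨hY.1.1, hY.1.2, hY.2⟩
    | cons y Y =>
      exfalso
      simp only [List.cons_append, List.cons.injEq] at hY
      obtain ⟨_, rfl⟩ := hY
      unfold nx at hn
      rw [List.map_append, nb_append, List.map_cons] at hn
      simp only [XT.era, nb_bl] at hn
      omega
  rcases List.suffix_or_suffix_of_suffix h h' with h1 | h1
  · exact key h1 hn
  · obtain ⟨e1, e2, e3⟩ := key h1 hn.symm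
    exact ⟨e1.symm, e2.symm, e3.symm⟩

theorem region_compress [Finite G] (B L : ℕ) {X : List (XT A G)} (hB : nx X ≤ B)
    (hL : ∀ b l, XT.xb b l ∈ X → l.length ≤ L) {b : Blob G} {u : List A} {R : List (Tok A G)}
    (hR : BIns b u R) {s s' : St A G} (hs : Inv X s) (hT : TRs π s R s') :
    ∃ u' R', LI π u' u ∧ BIns b u' R' ∧ TRs π s R' s' ∧
      u'.length ≤ Nat.card (Blob G × G × Fin (B + 1) × Fin (L + 1)) * Nat.card G := by
  obtain ⟨d, hd, σ0, be, h1, h2, h3⟩ := to_walk π hR hT
  let inv : Blob G × St A G → Prop := fun p => Inv X p.2 ∧ p.2.1.isSome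
  have hinv : ∀ p a q, rstep π p a q → inv p → inv q := by
    rintro p a q ⟨d, hd, _, σ1, t1, t2⟩ ⟨i1, _⟩
    exact ⟨t2.inv π (t1.inv π i1), t2.inside π⟩
  have hnx : ∀ {V : List (XT A G)}, V <:+ X → nx V ≤ B := by
    intro V hV
    obtain ⟨Y, rfl⟩ := hV
    unfold nx at hB ⊢
    rw [List.map_append, nb_append] at hB
    omega
  have hcode : ∀ p q, inv p → inv q → code B L p = code B L q → p = q := by
    rintro ⟨b1, o1, V1⟩ ⟨b2, o2, V2⟩ ⟨i1, j1⟩ ⟨i2, j2⟩ hc
    cases o1 with
    | none => simp at j1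
    | some p1 =>
      cases o2 with
      | none => simp at j2
      | some p2 =>
        obtain ⟨y1, c1, l1⟩ := p1
        obtain ⟨y2, c2, l2⟩ := p2
        simp only [code, Prod.mk.injEq, Fin.mk.injEq] at hc
        obtain ⟨e1, e2, e3, e4⟩ := hc
        obtain ⟨lf1, s1, t1⟩ := i1
        obtain ⟨lf2, s2, t2⟩ := i2
        have n1 := hnx ((List.suffix_cons _ _).trans s1)
        have n2 := hnx ((List.suffix_cons _ _).trans s2)
        have m1 := hL c1 lf1 (s1.subset (by simp))
        have m2 := hL c2 lf2 (s2.subset (by simp))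
        have k1 := t1.length_le
        have k2 := t2.length_le
        obtain ⟨f1, f2, f3⟩ := suffix_unique s1 s2 (by omega)
        subst f1; subst f2; subst f3
        have hll : l1 = l2 := by
          rcases List.suffix_or_suffix_of_suffix t1 t2 with h | h
          · exact h.eq_of_length (by omega)
          · exact (h.eq_of_length (by omega)).symm
        subst e1; subst e2; subst hll
        rfl
  have hi0 : inv (b.shift d hd, σ0) := ⟨h1.inv π hs, h1.inside π⟩
  obtain ⟨u', g1, g2, g3⟩ := Walk.compress π hinv (code B L) hcode _ u _ _ rfl hi0 h2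
  obtain ⟨R', hR', hT'⟩ := from_walk π h1 g2 h3
  exact ⟨u', R', g1, hR', hT', g3⟩

/-- insertions with bounded regions -/
inductive IB (K : ℕ) : List (Tok A G) → List A → List (Tok A G) → Prop
  | nil (u : List A) : IB K [] u (lts G u)
  | lt (u : List A) (a : A) {W v V} : IB K W v V →
      IB K (.lt a :: W) (u ++ v) (lts G u ++ .lt a :: V)
  | bl (b : Blob G) {u R W v V} : BIns b u R → u.length ≤ K → IB K W v V →
      IB K (.bl b :: W) (u ++ v) (R ++ V)

theorem ins_compress [Finite G] (B L : ℕ) {X : List (XT A G)} (hB : nx X ≤ B)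
    (hL : ∀ b l, XT.xb b l ∈ X → l.length ≤ L) {fl : Bool} {W V : List (Tok A G)} {v : List A}
    (h : Ins fl W v V) : ∀ {s s' : St A G}, Inv X s → TRs π s V s' →
      ∃ v' V', LI π v' v ∧
        IB (Nat.card (Blob G × G × Fin (B + 1) × Fin (L + 1)) * Nat.card G) W v' V' ∧
        TRs π s V' s' := by
  induction h with
  | endF u => intro s s' _ hT; exact ⟨u, _, LI.refl π u, .nil u, hT⟩
  | endT =>
    intro s s' _ hT
    refine ⟨[], [], LI.refl π _, ?_, hT⟩
    have := IB.nil (A := A) (G := G) (K := Nat.card (Blob G × G × Fin (B + 1) × Fin (L + 1)) *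
      Nat.card G) []
    simpa using this
  | ltF u a _ ih =>
    intro s s' hi hT
    obtain ⟨s1, h1, h2⟩ := TRs.split π hT
    cases h2 with
    | cons h3 h4 =>
      obtain ⟨v', V', e1, e2, e3⟩ := ih (h3.inv π (h1.inv π hi)) h4
      exact ⟨u ++ v', _, e1.append_left u, .lt u a e2, h1.append π (.cons h3 e3)⟩
  | ltT a _ ih =>
    intro s s' hi hT
    cases hT with
    | cons h3 h4 =>
      obtain ⟨v', V', e1, e2, e3⟩ := ih (h3.inv π hi) h4
      refine ⟨v', .lt a :: V', e1, ?_, .cons h3 e3⟩
      have := IB.lt [] a e2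
      simpa using this
  | bl fl b hR _ ih =>
    intro s s' hi hT
    obtain ⟨s1, h1, h2⟩ := TRs.split π hT
    obtain ⟨v', V', e1, e2, e3⟩ := ih (h1.inv π hi) h2
    obtain ⟨u', R', f1, f2, f3, f4⟩ := region_compress π B L hB hL hR hi h1
    exact ⟨u' ++ v', R' ++ V', f1.append e1, .bl b f2 f4 e2, f3.append π e3⟩

/-- compression of insertions relative to a coarsening with few blobs -/
theorem compress [Fintype G] (hN3 : ∀ m, 3 ≤ N m) (B L : ℕ)
    (hL : ∀ m, m ≤ Fintype.card G → N m * pb m ≤ L)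
    {W V W2 : List (Tok A G)} {v : List A} (h : Ins false W v V) (hc : Coarse π N V W2)
    (hB : nb W2 ≤ B) :
    ∃ v' V', LI π v' v ∧
      IB (Nat.card (Blob G × G × Fin (B + 1) × Fin (L + 1)) * Nat.card G) W v' V' ∧
      Coarse π N V' W2 := by
  obtain ⟨X, rfl, hg, s', hT, hf⟩ := acc_of_coarse π hc
  obtain ⟨v', V', e1, e2, e3⟩ := ins_compress π B L (X := X) hB (by
    intro b l hbl
    obtain ⟨_, _, h3⟩ := hg b l hbl
    exact h3.trans (hL _ (Finset.card_le_univ _))) h (s := (none, X)) List.suffix_rfl hT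
  exact ⟨v', V', e1, e2, coarse_of_acc π hN3 e3 hf hg⟩

/-! ### realisation by words -/

theorem real_blob (hN3 : ∀ m, 3 ≤ N m) {b : Blob G} {u : List A} {R : List (Tok A G)}
    (h : BIns b u R) : ∀ {s : List A} {l : List G}, (∀ x ∈ cov π (lts G s), x ∈ b.C) →
      wv π s = b.c → Emb π (lts G s) l → NF b.C.card ((u.length + 1) * (N b.C.card + 1)) l →
      ∃ s1, Shuf s u s1 ∧ Coarse π N (lts G s1) R := by
  have good : ∀ {b : Blob G} {s : List A} {l : List G}, (∀ x ∈ cov π (lts G s), x ∈ b.C) →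
      wv π s = b.c → Emb π (lts G s) l → NF b.C.card (N b.C.card) l →
      GoodF π N (lts G s) ∧ blobOf π (lts G s) = b := by
    intro b s l hs hc he hN
    have hcov : cov π (lts G s) = b.C := by
      apply Finset.eq_of_subset_of_card_le hs
      refine (NF_card (by have := hN3 b.C.card; omega) hN).trans (Finset.card_le_card ?_)
      intro x hx
      exact Emb_mem_cov π he (List.mem_toFinset.1 hx)
    refine ⟨⟨l, he, by rw [hcov]; exact hN⟩, Blob.ext' hcov ?_⟩
    change val π _ = _
    rw [val_lts]; exact hc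
  induction h with
  | done b =>
    intro s l hs hc he hN
    obtain ⟨h1, h2⟩ := good hs hc he (NF_le (by simp) hN)
    refine ⟨s, Shuf.left_only s, ?_⟩
    have := Coarse.one π h1
    rwa [h2] at this
  | @step b d hd a u R _ ih =>
    intro s l hs hc he hN
    have harith : (u.length + 1 + 1) * (N b.C.card + 1) =
        N b.C.card + (1 + (u.length + 1) * (N b.C.card + 1)) := by ring
    rw [List.length_cons, harith] at hN
    obtain ⟨l1, l2, rfl, hN1, hN2⟩ := NF_split hN
    obtain ⟨l3, l4, rfl, hP3, hN4⟩ := NF_split hN2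
    obtain ⟨l5, l6, rfl, hP5, _⟩ := hP3
    have hlC : ∀ x ∈ l1 ++ (l5 ++ l6 ++ l4), x ∈ b.C := fun x hx => hs x (Emb_mem_cov π he hx)
    have hdl : d ∈ l5 := P_cover (C := b.C) le_rfl (fun x hx => hlC x (by simp [hx])) hP5 hd
    obtain ⟨α, β, rfl⟩ := List.append_of_mem hdl
    have e : l1 ++ (α ++ d :: β ++ l6 ++ l4) = (l1 ++ α) ++ d :: (β ++ l6 ++ l4) := by simp
    rw [e] at he
    obtain ⟨s1, s2, rfl, hs1, he1, he2⟩ := emb_split π he
    obtain ⟨s3, h3, h4⟩ := ih (s := s2) (l := (β ++ l6 ++ l4).map (d⁻¹ * ·)) (by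
      intro x hx
      rw [Blob.mem_shift]
      apply hs
      have := cov_lts_right π (s1 := s1) hx
      rwa [hs1] at this) (by
      simp only [Blob.shift]
      rw [← hc, wv_append, hs1]; simp) he2 (by
      rw [Blob.card_shift]
      exact NF_map (mul_right_injective _) (NF_mono hN4 (List.sublist_append_right _ _)))
    obtain ⟨h5, h6⟩ := good (b := b.setc d hd) (s := s1) (l := l1 ++ α ++ [d])
      (fun x hx => hs x (cov_lts_left π hx)) hs1 he1 (by
        apply NF_mono hN1
        rw [List.append_assoc]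
        exact List.sublist_append_left _ _)
    refine ⟨s1 ++ a :: s3, ?_, ?_⟩
    · have := (Shuf.left_only s1).append (Shuf.right a h3)
      simpa using this
    · rw [lts_append, lts_cons]
      have := Coarse.mg (π := π) (N := N) _ h5 (.lt a h4)
      rwa [h6] at this

theorem real_word (hN3 : ∀ m, 3 ≤ N m) {M : ℕ → ℕ} {K : ℕ}
    (hM : ∀ m, (K + 1) * (N m + 1) ≤ M m) {W V : List (Tok A G)} {v : List A}
    (h : IB K W v V) : ∀ {w : List A}, Coarse π M (lts G w) W →
      ∃ w1, Shuf w v w1 ∧ Coarse π N (lts G w1) V := by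
  induction h with
  | nil u =>
    intro w hw
    rw [coarse_nil π hw]
    exact ⟨u, Shuf.right_only u, Coarse.refl π _⟩
  | lt u a _ ih =>
    intro w hw
    obtain ⟨w', rfl, hw'⟩ := coarse_lts_lt π hw
    obtain ⟨w1, h1, h3⟩ := ih hw'
    refine ⟨u ++ a :: w1, ?_, ?_⟩
    · have := (Shuf.right_only u).append (Shuf.left a h1)
      simpa using this
    · rw [lts_append, lts_cons]
      exact (Coarse.refl π _).append π (.lt a h3)
  | @bl b u R W v V hR hlen _ ih =>
    intro w hw
    obtain ⟨s, w', rfl, hg, hb, hw'⟩ := coarse_lts_bl π hw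
    obtain ⟨w1, h1, h3⟩ := ih hw'
    obtain ⟨l, he, hNF⟩ := hg
    have hC : cov π (lts G s) = b.C := congrArg Blob.C hb
    have hc : wv π s = b.c := by rw [← val_lts (G := G)]; exact congrArg Blob.c hb
    rw [hC] at hNF
    obtain ⟨s1, k1, k2⟩ := real_blob π hN3 hR (s := s) (l := l)
      (by rw [hC]; exact fun x hx => hx) hc he (NF_le (by
        refine le_trans ?_ (hM b.C.card)
        exact Nat.mul_le_mul_right _ (by omega)) hNF)
    refine ⟨s1 ++ w1, k1.append h1, ?_⟩
    rw [lts_append]
    exact k2.append π h3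

end comp

end Pool.Agent.Dec56
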