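import Mathlib

/-!
Definitions for MP_0c20e5_lc: decomposable languages, group languages, `Pol(G)`.
Words over `A` are lists, languages over `A` are sets of words (`Language A`); in Mathlib
`K * L` is the concatenation product of languages.
-/

set_option autoImplicit false

namespace Pool.Agent.Dec56

variable {A : Type*}

/-- The shuffle `u ⊔ v`: all words `u₁v₁⋯u_kv_k` with `u = u₁⋯u_k` and `v = v₁⋯v_k`
(`ps` is the list of the pairs `(u_i, v_i)`). -/
def shuffle (u v : List A) : Set (List A) :=
  {w | ∃ ps : List (List A × List A), u = (ps.map Prod.fst).flatten ∧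
    v = (ps.map Prod.snd).flatten ∧ w = (ps.map fun p => p.1 ++ p.2).flatten}

/-- `τ(K) = {(u, v) : uv ∈ K}` -/
def tau (K : Language A) : Set (List A × List A) := {p | p.1 ++ p.2 ∈ K}

/-- `σ(K) = {(u, v) : (u ⊔ v) ∩ K ≠ ∅}` -/
def sigma (K : Language A) : Set (List A × List A) := {p | (shuffle p.1 p.2 ∩ K).Nonempty}

/-- `T` is a finite union of sets `L × R` with `L, R ∈ S`. -/
def IsFiniteUnionOfRects (S : Set (Language A)) (T : Set (List A × List A)) : Prop :=
  ∃ F : Set (Language A × Language A), F.Finite ∧ (∀ q ∈ F, q.1 ∈ S ∧ q.2 ∈ S) ∧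
    T = {p | ∃ q ∈ F, p.1 ∈ q.1 ∧ p.2 ∈ q.2}

/-- `K` is decomposable: it is a member of a finite set `S` of languages each of whose members
has a sequential and a parallel decomposition over `S`. -/
def Decomposable (K : Language A) : Prop :=
  ∃ S : Set (Language A), S.Finite ∧ K ∈ S ∧
    ∀ L ∈ S, IsFiniteUnionOfRects S (tau L) ∧ IsFiniteUnionOfRects S (sigma L)

/-- `L = φ⁻¹(U)` for a monoid morphism `φ` from the free monoid to a finite group. -/
def IsGroupLanguage (L : Language A) : Prop :=
  ∃ (G : Type) (_ : Group G) (_ : Finite G) (φ : FreeMonoid A →* G) (U : Set G),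
    L = {w : List A | φ (FreeMonoid.ofList w) ∈ U}

/-- products `L₀a₁L₁⋯a_nL_n` with group languages `L_i` and letters `a_i` -/
inductive IsMarkedProduct : Language A → Prop
  | base {L : Language A} : IsGroupLanguage L → IsMarkedProduct L
  | step {K L : Language A} (a : A) : IsMarkedProduct K → IsGroupLanguage L →
      IsMarkedProduct (K * {[a]} * L)

/-- the class `Pol(G)`: finite unions of such products -/
def IsPolG (L : Language A) : Prop :=
  ∃ F : Set (Language A), F.Finite ∧ (∀ K ∈ F, IsMarkedProduct K) ∧
    L = {w : List A | ∃ K ∈ F, w ∈ K}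

end Pool.Agent.Dec56
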