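import Pool.Agent.Lib_helper56.Dec.Ins

/-!
Normalising an insertion region by region.
-/

set_option autoImplicit false
set_option linter.unusedSectionVars false

namespace Pool.Agent.Dec56

section event

variable {A G : Type*} [Group G] [DecidableEq G] (π : A → G)

/-- same exit-relative set -/
def Xeq (b b' : Blob G) : Prop := ∀ x, b.c * x ∈ b.C ↔ b'.c * x ∈ b'.C

theorem Xeq.trans {b b' b'' : Blob G} (h : Xeq b b') (h' : Xeq b' b'') : Xeq b b'' :=
  fun x => (h x).trans (h' x)

theorem mg_congr_left {b b' : Blob G} (h : Xeq b b') (τ : Tok A G) :
    Mg π (.bl b) τ ↔ Mg π (.bl b') τ := by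
  cases τ with
  | lt a => exact h (π a)
  | bl b1 =>
    have h2 : ∀ {b b' : Blob G}, Xeq b b' → (∀ x ∈ b.C, b.c⁻¹ * x ∈ b1.C) →
        ∀ x ∈ b'.C, b'.c⁻¹ * x ∈ b1.C := by
      intro b b' h hx x hxC
      have h3 : b.c * (b'.c⁻¹ * x) ∈ b.C := (h _).2 (by simpa using hxC)
      have := hx _ h3
      simpa using this
    constructor
    · rintro (h1 | h1)
      · left; intro x hx; exact (h x).1 (h1 x hx)
      · right; exact h2 h h1
    · rintro (h1 | h1)
      · left; intro x hx; exact (h x).2 (h1 x hx)
      · right; exact h2 (fun x => (h x).symm) h1

theorem mg_congr_right {b b' : Blob G} (h : b.C = b'.C) (τ : Tok A G) :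
    Mg π τ (.bl b) ↔ Mg π τ (.bl b') := by
  cases τ with
  | lt a => simp only [Mg, h]
  | bl b1 => simp only [Mg, h]

variable (N : ℕ → ℕ)

theorem coarse_cons_inv {W V : List (Tok A G)} {b : Blob G} (h : Coarse π N W (.bl b :: V)) :
    ∃ f W', W = f ++ W' ∧ GoodF π N f ∧ blobOf π f = b ∧ Coarse π N W' V := by
  cases h with
  | mg f hf h => exact ⟨f, _, rfl, hf, rfl, h⟩

/-- the data maintained for the normal form of a region -/
structure Dat (b : Blob G) (V : List (Tok A G)) : Prop where
  nrm : Nrm π V
  last : ∃ V2 b2, V = V2 ++ [.bl b2] ∧ Xeq b2 b
  card : ∀ b', .bl b' ∈ V → b'.C.card = b.C.card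

theorem Dat.cons {b : Blob G} {V : List (Tok A G)} {τ : Tok A G} (h : Dat π b V)
    (h1 : ∀ σ ∈ V.head?, ¬ Mg π τ σ) (h2 : ∀ b', τ = .bl b' → b'.C.card = b.C.card) :
    Dat π b (τ :: V) := by
  obtain ⟨V2, b2, e, hx⟩ := h.last
  refine ⟨List.isChain_cons.2 ⟨h1, h.nrm⟩, ⟨τ :: V2, b2, by rw [e]; rfl, hx⟩, ?_⟩
  intro b' hb'
  rcases List.mem_cons.1 hb' with hb' | hb'
  · exact h2 b' hb'.symm
  · exact h.card b' hb'

theorem Dat.replace {b b1 b1' : Blob G} {V : List (Tok A G)} (h : Dat π b (.bl b1 :: V))
    (hx : Xeq b1' b1) (hc : b1'.C.card = b.C.card) : Dat π b (.bl b1' :: V) := by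
  have hn := List.isChain_cons.1 h.nrm
  refine ⟨List.isChain_cons.2 ⟨?_, hn.2⟩, ?_, ?_⟩
  · intro y hy hmg
    exact hn.1 y hy ((mg_congr_left π hx y).1 hmg)
  · obtain ⟨V2, b2, e, hx2⟩ := h.last
    cases V2 with
    | nil =>
      simp only [List.nil_append, List.cons.injEq, Tok.bl.injEq] at e
      obtain ⟨rfl, rfl⟩ := e
      exact ⟨[], b1', rfl, hx.trans hx2⟩
    | cons σ V2 =>
      simp only [List.cons_append, List.cons.injEq] at e
      obtain ⟨rfl, rfl⟩ := e
      exact ⟨.bl b1' :: V2, b2, rfl, hx2⟩
  · intro b' hb'
    rcases List.mem_cons.1 hb' with hb' | hb'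
    · cases hb'; exact hc
    · exact h.card b' (List.mem_cons_of_mem _ hb')

theorem Dat.shift {b : Blob G} {d : G} {hd : d ∈ b.C} {V : List (Tok A G)}
    (h : Dat π (b.shift d hd) V) : Dat π b V := by
  obtain ⟨V2, b2, e, hx⟩ := h.last
  refine ⟨h.nrm, ⟨V2, b2, e, ?_⟩, ?_⟩
  · intro x
    rw [hx x, Blob.mem_shift]
    simp [Blob.shift, mul_assoc]
  · intro b' hb'
    rw [h.card b' hb', Blob.card_shift]

theorem bnf {b : Blob G} {u : List A} {R : List (Tok A G)} (h : BIns b u R) :
    ∃ b1 V1, Coarse π N R (.bl b1 :: V1) ∧ b1.C = b.C ∧ Dat π b (.bl b1 :: V1) ∧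
      (V1 = [] ∨ 2 ≤ nb (Tok.bl b1 :: V1)) := by
  induction h with
  | done b =>
    refine ⟨b, [], Coarse.refl π _, rfl, ⟨List.isChain_singleton _, ⟨[], b, rfl, fun x => Iff.rfl⟩,
      ?_⟩, Or.inl rfl⟩
    intro b' hb'
    simp only [List.mem_singleton, Tok.bl.injEq] at hb'
    rw [hb']
  | @step b d hd a u R hR ih =>
    obtain ⟨b1, V1, hco, hC, hD, hn⟩ := ih
    obtain ⟨f1, R1, rfl, hf1, hb1, hc1⟩ := coarse_cons_inv π N hco
    have hcov1 : cov π f1 = b1.C := congrArg Blob.C hb1
    have hval1 : val π f1 = b1.c := congrArg Blob.c hb1
    have hD' : Dat π b (.bl b1 :: V1) := hD.shift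
    have hcard : b1.C.card = b.C.card := by rw [hC, Blob.card_shift]
    by_cases hA : ∀ x ∈ b1.C, d * π a * x ∈ b.C
    · -- case A: everything merges
      have hcovF : cov π (.bl (b.setc d hd) :: .lt a :: f1) = b.C := by
        ext x
        constructor
        · intro hx
          rcases (mem_cov_cons π).1 hx with hx | ⟨y, hy, rfl⟩
          · exact hx
          · change d * y ∈ b.C
            rcases (mem_cov_cons π).1 hy with hy | ⟨z, hz, rfl⟩
            · simp only [Tok.cov, Finset.mem_insert, Finset.mem_singleton] at hy
              rcases hy with rfl | rfl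
              · simpa using hd
              · simpa using hA 1 b1.one_mem
            · rw [hcov1] at hz
              simpa [Tok.val, mul_assoc] using hA z hz
        · intro hx
          rw [mem_cov_cons]; left; exact hx
      have hgood : GoodF π N (.bl (b.setc d hd) :: .lt a :: f1) := by
        have := GoodF_of_blob (N := N) (A := A) π (X := []) (Y := .lt a :: f1)
          (b := b.setc d hd) (by rw [List.nil_append, hcovF]; rfl)
        simpa using this
      have hXeq : Xeq (blobOf π (.bl (b.setc d hd) :: .lt a :: f1)) b1 := by
        intro x
        have e1 : (blobOf π (.bl (b.setc d hd) :: .lt a :: f1)).C = b.C := hcovF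
        have e2 : (blobOf π (.bl (b.setc d hd) :: .lt a :: f1)).c = d * π a * b1.c := by
          change val π _ = _
          rw [val_cons, val_cons, hval1]
          simp [Tok.val, Blob.setc, mul_assoc]
        rw [e1, e2]
        have himg : b1.C.image (d * π a * ·) = b.C := by
          apply Finset.eq_of_subset_of_card_le
          · intro y hy
            obtain ⟨z, hz, rfl⟩ := Finset.mem_image.1 hy
            exact hA z hz
          · rw [Finset.card_image_of_injective _ (mul_right_injective _), hcard]
        constructor
        · intro hx
          rw [← himg, Finset.mem_image] at hx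
          obtain ⟨z, hz, he⟩ := hx
          have : z = b1.c * x := by
            apply mul_left_cancel (a := d * π a)
            rw [he]; simp [mul_assoc]
          rwa [← this]
        · intro hx
          have := hA _ hx
          simpa [mul_assoc] using this
      refine ⟨blobOf π (.bl (b.setc d hd) :: .lt a :: f1), V1, ?_, hcovF, ?_, ?_⟩
      · have := Coarse.mg (π := π) (N := N) _ hgood hc1
        simpa using this
      · exact hD'.replace π hXeq (congrArg Finset.card hcovF)
      · rcases hn with hn | hn
        · left; exact hn
        · right; simpa using hn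
    · have hA2 : ¬ (∀ x ∈ b.C, (d * π a)⁻¹ * x ∈ b1.C) := by
        intro hcon
        apply hA
        have himg : b.C.image ((d * π a)⁻¹ * ·) = b1.C := by
          apply Finset.eq_of_subset_of_card_le
          · intro y hy
            obtain ⟨z, hz, rfl⟩ := Finset.mem_image.1 hy
            exact hcon z hz
          · rw [Finset.card_image_of_injective _ (mul_right_injective _), hcard]
        intro x hx
        rw [← himg, Finset.mem_image] at hx
        obtain ⟨z, hz, rfl⟩ := hx
        rw [mul_inv_cancel_left]
        exact hz
      by_cases hB1 : d * π a ∈ b.C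
      · -- absorb the letter on the left
        have hcovF : cov π [Tok.bl (b.setc d hd), .lt a] = b.C := by
          ext x
          constructor
          · intro hx
            rcases (mem_cov_cons π).1 hx with hx | ⟨y, hy, rfl⟩
            · exact hx
            · change d * y ∈ b.C
              rcases (mem_cov_cons π).1 hy with hy | ⟨z, hz, rfl⟩
              · simp only [Tok.cov, Finset.mem_insert, Finset.mem_singleton] at hy
                rcases hy with rfl | rfl
                · simpa using hd
                · exact hB1
              · rw [cov_nil, Finset.mem_singleton] at hz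
                subst hz
                simpa [Tok.val] using hB1
          · intro hx
            rw [mem_cov_cons]; left; exact hx
        have hgood : GoodF π N [Tok.bl (b.setc d hd), .lt a] := by
          have := GoodF_of_blob (N := N) (A := A) π (X := []) (Y := [.lt a])
            (b := b.setc d hd) (by rw [List.nil_append, hcovF]; rfl)
          simpa using this
        have hc : (blobOf π [Tok.bl (b.setc d hd), .lt a]).c = d * π a := by
          change val π _ = _
          simp [Tok.val, Blob.setc]
        refine ⟨blobOf π [Tok.bl (b.setc d hd), .lt a], .bl b1 :: V1, ?_, hcovF, ?_, ?_⟩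
        · have := Coarse.mg (π := π) (N := N) _ hgood hco
          simpa using this
        · apply hD'.cons π
          · intro σ hσ
            simp only [List.head?_cons, Option.mem_def, Option.some.injEq] at hσ
            subst hσ
            rintro (hm | hm)
            · apply hA
              intro x hx
              have := hm x hx
              rw [hc] at this
              change _ ∈ cov π _ at this
              rwa [hcovF] at this
            · apply hA2
              intro x hx
              have h3 : x ∈ (blobOf π [Tok.bl (b.setc d hd), .lt a]).C := by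
                change x ∈ cov π _
                rwa [hcovF]
              have := hm x h3
              rwa [hc] at this
          · intro b' hb'
            cases hb'
            exact congrArg Finset.card hcovF
        · right; simp
      · by_cases hB2 : (π a)⁻¹ ∈ b1.C
        · -- absorb the letter on the right
          have hmem : ∀ x, x ∈ cov π (.lt a :: f1) ↔ (π a)⁻¹ * x ∈ b1.C := by
            intro x
            constructor
            · intro hx
              rcases (mem_cov_cons π).1 hx with hx | ⟨y, hy, rfl⟩
              · simp only [Tok.cov, Finset.mem_insert, Finset.mem_singleton] at hx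
                rcases hx with rfl | rfl
                · simpa using hB2
                · simpa using b1.one_mem
              · rw [hcov1] at hy
                simpa [Tok.val] using hy
            · intro hx
              rw [mem_cov_cons]
              right
              exact ⟨(π a)⁻¹ * x, by rw [hcov1]; exact hx, by simp [Tok.val]⟩
          have hcardF : (cov π (.lt a :: f1)).card = (cov π f1).card := by
            apply le_antisymm _ (card_cov_cons π _ _)
            have : cov π (.lt a :: f1) ⊆ (cov π f1).image (π a * ·) := by
              intro x hx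
              rw [Finset.mem_image]
              exact ⟨(π a)⁻¹ * x, by rw [hcov1]; exact (hmem x).1 hx, by simp⟩
            exact (Finset.card_le_card this).trans Finset.card_image_le
          have hgood : GoodF π N (.lt a :: f1) := GoodF.cons π hf1 hcardF
          have hc : (blobOf π (.lt a :: f1)).c = π a * b1.c := by
            change val π _ = _
            rw [val_cons, hval1]; rfl
          have hXeq : Xeq (blobOf π (.lt a :: f1)) b1 := by
            intro x
            rw [hc]
            change _ ∈ cov π (.lt a :: f1) ↔ _
            rw [hmem]
            simp [mul_assoc]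
          have hcc : (blobOf π (.lt a :: f1)).C.card = b.C.card := by
            change (cov π (.lt a :: f1)).card = _
            rw [hcardF, hcov1, hcard]
          refine ⟨b.setc d hd, .bl (blobOf π (.lt a :: f1)) :: V1, ?_, rfl, ?_, ?_⟩
          · have := Coarse.mg (π := π) (N := N) _ hgood hc1
            have := Coarse.bl π (b.setc d hd) this
            simpa using this
          · apply (hD'.replace π hXeq hcc).cons π
            · intro σ hσ
              simp only [List.head?_cons, Option.mem_def, Option.some.injEq] at hσ
              subst hσ
              rintro (hm | hm)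
              · apply hA
                intro x hx
                have h3 : π a * x ∈ cov π (.lt a :: f1) := by rw [hmem]; simpa using hx
                have := hm _ h3
                change d * (π a * x) ∈ b.C at this
                rwa [← mul_assoc] at this
              · apply hA2
                intro x hx
                have h3 := hm x hx
                change d⁻¹ * x ∈ cov π (.lt a :: f1) at h3
                rw [hmem] at h3
                simpa [mul_assoc] using h3
            · intro b' hb'
              cases hb'
              rfl
          · right; simp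
        · refine ⟨b.setc d hd, .lt a :: .bl b1 :: V1, ?_, rfl, ?_, ?_⟩
          · exact Coarse.bl π (b.setc d hd) (.lt a hco)
          · apply Dat.cons π
            · apply hD'.cons π
              · intro σ hσ
                simp only [List.head?_cons, Option.mem_def, Option.some.injEq] at hσ
                subst hσ
                exact hB2
              · intro b' hb'; cases hb'
            · intro σ hσ
              simp only [List.head?_cons, Option.mem_def, Option.some.injEq] at hσ
              subst hσ
              exact hB1
            · intro b' hb'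
              cases hb'
              rfl
          · right; simp

/-- zero cost insertions -/
inductive ZI : List (Tok A G) → List A → List (Tok A G) → Prop
  | nil (u : List A) : ZI [] u (lts G u)
  | lt (u : List A) (a : A) {W v V} : ZI W v V → ZI (.lt a :: W) (u ++ v) (lts G u ++ .lt a :: V)
  | bl (b : Blob G) {u R W v V} : BIns b u R → cov π R = b.C → ZI W v V →
      ZI (.bl b :: W) (u ++ v) (.bl (blobOf π R) :: V)

/-- control of the first token -/
def Ent (fl : Bool) : List (Tok A G) → List (Tok A G) → Prop
  | [], V => (fl = true → V = []) ∧ (∀ τ ∈ V.head?, ∃ a, τ = .lt a)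
  | .lt a :: _, V => (fl = true → V.head? = some (.lt a)) ∧ (∀ τ ∈ V.head?, ∃ a', τ = .lt a')
  | .bl b :: _, V => ∃ b1 V', V = .bl b1 :: V' ∧ b1.C = b.C

theorem kap_of_card {V : List (Tok A G)} {c : ℕ} (h : ∀ b, .bl b ∈ V → b.C.card = c) :
    kap V c = nb V := by
  induction V with
  | nil => rfl
  | cons τ V ih =>
    have ih' := ih (fun b hb => h b (List.mem_cons_of_mem _ hb))
    cases τ with
    | lt a => simpa using ih'
    | bl b => rw [kap_bl, nb_bl, ih', if_pos (h b (by simp))]

theorem nrm_lts_append (u : List A) {a : A} {V : List (Tok A G)} (h : Nrm π (.lt a :: V)) :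
    Nrm π (lts G u ++ .lt a :: V) := by
  induction u with
  | nil => exact h
  | cons x u ih =>
    rw [lts_cons, List.cons_append, Nrm, List.isChain_cons]
    refine ⟨?_, ih⟩
    intro y hy
    cases u with
    | nil => simp at hy; subst hy; exact id
    | cons x' u => simp at hy; subst hy; exact id

theorem nrm_lts (u : List A) : Nrm π (lts G u) := by
  induction u with
  | nil => exact List.isChain_nil
  | cons x u ih =>
    rw [lts_cons, Nrm, List.isChain_cons]
    refine ⟨?_, ih⟩
    intro y hy
    cases u with
    | nil => simp at hy
    | cons x' u => simp at hy; subst hy; exact id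

theorem event {fl : Bool} {W V0 : List (Tok A G)} {v : List A} (h : Ins fl W v V0) :
    Nrm π W → ∃ V, Coarse π N V0 V ∧ Nrm π V ∧ Ent fl W V ∧ (∀ m, kap W m ≤ kap V m) ∧
      ((ZI π W v V ∧ ∀ m, kap W m = kap V m) ∨ ∃ m, kap W m < kap V m) := by
  induction h with
  | endF u =>
    intro _
    refine ⟨lts G u, Coarse.refl π _, nrm_lts π u, ⟨by simp, ?_⟩, by simp, ?_⟩
    · intro τ hτ
      cases u with
      | nil => simp at hτ
      | cons x u => simp at hτ; exact ⟨x, hτ.symm⟩
    · left
      refine ⟨.nil u, ?_⟩
      intro m
      induction u with
      | nil => rfl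
      | cons x u ih => simpa using ih
  | endT =>
    intro _
    refine ⟨[], .nil, List.isChain_nil, ⟨by simp, by simp⟩, by simp, Or.inl ⟨?_, by simp⟩⟩
    have := ZI.nil (π := π) (G := G) ([] : List A)
    simpa using this
  | @ltF u a W v V0 _ ih =>
    intro hW
    have hW' := List.isChain_cons.1 hW
    obtain ⟨V, hco, hn, hE, hk, hz⟩ := ih hW'.2
    have hkap : ∀ m, kap (lts G u ++ .lt a :: V) m = kap V m := by
      intro m
      rw [kap_append, kap_lt]
      have : kap (lts G u : List (Tok A G)) m = 0 := by
        induction u with
        | nil => rfl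
        | cons x u ih => simpa using ih
      omega
    refine ⟨lts G u ++ .lt a :: V, (Coarse.refl π _).append π (.lt a hco), ?_, ⟨by simp, ?_⟩, ?_, ?_⟩
    · apply nrm_lts_append
      rw [Nrm, List.isChain_cons]
      refine ⟨?_, hn⟩
      intro y hy
      cases W with
      | nil => obtain ⟨a', rfl⟩ := hE.2 y hy; exact id
      | cons σ W =>
        cases σ with
        | lt a' => obtain ⟨a', rfl⟩ := hE.2 y hy; exact id
        | bl b =>
          obtain ⟨b1, V', rfl, hb1⟩ := hE
          simp at hy
          subst hy
          rw [mg_congr_right π hb1]
          exact hW'.1 _ (by simp)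
    · intro τ hτ
      cases u with
      | nil => simp at hτ; exact ⟨a, hτ.symm⟩
      | cons x u => simp at hτ; exact ⟨x, hτ.symm⟩
    · intro m; rw [hkap, kap_lt]; exact hk m
    · rcases hz with ⟨hz, he⟩ | ⟨m, hm⟩
      · left; exact ⟨.lt u a hz, fun m => by rw [hkap, kap_lt]; exact he m⟩
      · right; exact ⟨m, by rw [hkap, kap_lt]; exact hm⟩
  | @ltT a W v V0 _ ih =>
    intro hW
    have hW' := List.isChain_cons.1 hW
    obtain ⟨V, hco, hn, hE, hk, hz⟩ := ih hW'.2
    refine ⟨.lt a :: V, .lt a hco, ?_, ⟨by simp, ?_⟩, ?_, ?_⟩
    · rw [Nrm, List.isChain_cons]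
      refine ⟨?_, hn⟩
      intro y hy
      cases W with
      | nil => obtain ⟨a', rfl⟩ := hE.2 y hy; exact id
      | cons σ W =>
        cases σ with
        | lt a' => obtain ⟨a', rfl⟩ := hE.2 y hy; exact id
        | bl b =>
          obtain ⟨b1, V', rfl, hb1⟩ := hE
          simp at hy
          subst hy
          rw [mg_congr_right π hb1]
          exact hW'.1 _ (by simp)
    · intro τ hτ
      simp at hτ; exact ⟨a, hτ.symm⟩
    · intro m; rw [kap_lt, kap_lt]; exact hk m
    · rcases hz with ⟨hz, he⟩ | ⟨m, hm⟩
      · left
        refine ⟨?_, fun m => by rw [kap_lt, kap_lt]; exact he m⟩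
        have := ZI.lt (π := π) [] a hz
        simpa using this
      · right; exact ⟨m, by rw [kap_lt, kap_lt]; exact hm⟩
  | @bl fl b u R W v V0 hR _ ih =>
    intro hW
    have hW' := List.isChain_cons.1 hW
    obtain ⟨V, hco, hn, hE, hk, hz⟩ := ih hW'.2
    obtain ⟨b1, V1, hcb, hC, hD, hnb⟩ := bnf π N hR
    have hkb : kap (.bl b1 :: V1 : List (Tok A G)) b.C.card = nb (.bl b1 :: V1 : List (Tok A G)) :=
      kap_of_card hD.card
    refine ⟨(.bl b1 :: V1) ++ V, hcb.append π hco, ?_, ⟨b1, V1 ++ V, rfl, hC⟩, ?_, ?_⟩
    · rw [Nrm, List.isChain_append]
      refine ⟨hD.nrm, hn, ?_⟩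
      intro x hx y hy
      obtain ⟨V2, b2, e, hX⟩ := hD.last
      rw [e] at hx
      have hx' : x = .bl b2 := by simp at hx; exact hx.symm
      subst hx'
      rw [mg_congr_left π hX]
      cases W with
      | nil => rw [hE.1 rfl] at hy; simp at hy
      | cons σ W =>
        cases σ with
        | lt a' =>
          have := hE.1 rfl
          rw [this] at hy
          simp at hy
          subst hy
          exact hW'.1 _ (by simp)
        | bl b' =>
          obtain ⟨b1', V', rfl, hb1'⟩ := hE
          simp at hy
          subst hy
          rw [mg_congr_right π hb1']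
          exact hW'.1 _ (by simp)
    · intro m
      rw [kap_append, kap_bl]
      have := hk m
      split_ifs with hm
      · subst hm
        rw [hkb, nb_bl]
        omega
      · omega
    · rcases hnb with hnb | hnb
      · subst hnb
        have hone : ∀ m, kap ([.bl b1] : List (Tok A G)) m = if b.C.card = m then 1 else 0 := by
          intro m
          rw [kap_bl, kap_nil, hC]; simp
        rcases hz with ⟨hz, he⟩ | ⟨m, hm⟩
        · left
          constructor
          · have hcR : cov π R = b.C := by
              rw [hcb.cov_eq π, cov_single_bl, hC]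
            have hbl : blobOf π R = b1 := by
              apply Blob.ext'
              · change cov π R = _
                rw [hcR, hC]
              · change val π R = _
                rw [hcb.val_eq π]; simp [Tok.val]
            have := ZI.bl (π := π) b hR hcR hz
            rw [hbl] at this
            simpa using this
          · intro m
            rw [kap_append, hone, kap_bl, he m]; omega
        · right
          refine ⟨m, ?_⟩
          rw [kap_append, hone, kap_bl]; omega
      · right
        refine ⟨b.C.card, ?_⟩
        rw [kap_append, kap_bl, hkb, if_pos rfl]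
        have := hk b.C.card
        omega

end event

end Pool.Agent.Dec56
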