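import Pool.Agent.Lib_helper56.Dec.Main
import Pool.Agent.Lib_helper56.Dec.Defs

/-!
Every language of `Pol(G)` is decomposable.
-/

set_option autoImplicit false
set_option linter.unusedSectionVars false

namespace Pool.Agent.Dec56

section final

variable {A : Type*}

theorem mem_shuffle {u v w : List A} : w ∈ shuffle u v ↔ Shuf u v w := by
  constructor
  · rintro ⟨ps, rfl, rfl, rfl⟩
    induction ps with
    | nil => exact .nil
    | cons p ps ih =>
      have h1 : Shuf p.1 p.2 (p.1 ++ p.2) := by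
        have := (Shuf.left_only p.1).append (Shuf.right_only p.2)
        simpa using this
      simpa using h1.append ih
  · intro h
    induction h with
    | nil => exact ⟨[], rfl, rfl, rfl⟩
    | left a _ ih =>
      obtain ⟨ps, h1, h2, h3⟩ := ih
      exact ⟨([a], []) :: ps, by simp [h1], by simpa using h2, by simp [h3]⟩
    | right a _ ih =>
      obtain ⟨ps, h1, h2, h3⟩ := ih
      exact ⟨([], [a]) :: ps, by simpa using h1, by simp [h2], by simp [h3]⟩

theorem mem_sigma {K : Language A} {x y : List A} :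
    (x, y) ∈ sigma K ↔ ∃ w, Shuf x y w ∧ w ∈ K := by
  constructor
  · rintro ⟨w, h1, h2⟩; exact ⟨w, mem_shuffle.1 h1, h2⟩
  · rintro ⟨w, h1, h2⟩; exact ⟨w, mem_shuffle.2 h1, h2⟩

theorem rects_mono {S S' : Set (Language A)} (h : S ⊆ S') {T : Set (List A × List A)}
    (hT : IsFiniteUnionOfRects S T) : IsFiniteUnionOfRects S' T := by
  obtain ⟨F, h1, h2, h3⟩ := hT
  exact ⟨F, h1, fun q hq => ⟨h (h2 q hq).1, h (h2 q hq).2⟩, h3⟩

/-- finite unions -/
theorem dec_union (F : Set (Language A)) (hF : F.Finite) (h : ∀ K ∈ F, Decomposable K) :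
    Decomposable ({w : List A | ∃ K ∈ F, w ∈ K} : Language A) := by
  choose! S hfin hmem hdec using h
  set U : Language A := {w : List A | ∃ K ∈ F, w ∈ K} with hU
  have hsub : ∀ K ∈ F, S K ⊆ (⋃ K ∈ F, S K) ∪ {U} := by
    intro K hK x hx
    left
    exact Set.mem_biUnion hK hx
  refine ⟨(⋃ K ∈ F, S K) ∪ {U}, ?_, Or.inr rfl, ?_⟩
  · exact (hF.biUnion (fun K hK => hfin K hK)).union (Set.finite_singleton U)
  · rintro L (hL | hL)
    · obtain ⟨K, hK, hL⟩ := Set.mem_iUnion₂.1 hL
      exact ⟨rects_mono (hsub K hK) (hdec K hK L hL).1, rects_mono (hsub K hK) (hdec K hK L hL).2⟩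
    · rw [Set.mem_singleton_iff] at hL
      subst hL
      constructor
      · have h1 : ∀ K ∈ F, IsFiniteUnionOfRects ((⋃ K ∈ F, S K) ∪ {U}) (tau K) :=
          fun K hK => rects_mono (hsub K hK) (hdec K hK K (hmem K hK)).1
        choose! G g1 g2 g3 using h1
        refine ⟨⋃ K ∈ F, G K, hF.biUnion g1, ?_, ?_⟩
        · intro q hq
          obtain ⟨K, hK, hq⟩ := Set.mem_iUnion₂.1 hq
          exact g2 K hK q hq
        · ext ⟨x, y⟩
          constructor
          · rintro ⟨K, hK, hxy⟩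
            have : (x, y) ∈ tau K := hxy
            rw [g3 K hK] at this
            obtain ⟨q, hq, h4⟩ := this
            exact ⟨q, Set.mem_biUnion hK hq, h4⟩
          · rintro ⟨q, hq, h4⟩
            obtain ⟨K, hK, hq⟩ := Set.mem_iUnion₂.1 hq
            have : (x, y) ∈ tau K := by rw [g3 K hK]; exact ⟨q, hq, h4⟩
            exact ⟨K, hK, this⟩
      · have h1 : ∀ K ∈ F, IsFiniteUnionOfRects ((⋃ K ∈ F, S K) ∪ {U}) (sigma K) :=
          fun K hK => rects_mono (hsub K hK) (hdec K hK K (hmem K hK)).2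
        choose! G g1 g2 g3 using h1
        refine ⟨⋃ K ∈ F, G K, hF.biUnion g1, ?_, ?_⟩
        · intro q hq
          obtain ⟨K, hK, hq⟩ := Set.mem_iUnion₂.1 hq
          exact g2 K hK q hq
        · ext ⟨x, y⟩
          constructor
          · rintro ⟨w, hw, K, hK, hwK⟩
            have : (x, y) ∈ sigma K := ⟨w, hw, hwK⟩
            rw [g3 K hK] at this
            obtain ⟨q, hq, h4⟩ := this
            exact ⟨q, Set.mem_biUnion hK hq, h4⟩
          · rintro ⟨q, hq, h4⟩
            obtain ⟨K, hK, hq⟩ := Set.mem_iUnion₂.1 hq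
            have : (x, y) ∈ sigma K := by rw [g3 K hK]; exact ⟨q, hq, h4⟩
            obtain ⟨w, hw, hwK⟩ := this
            exact ⟨w, hw, K, hK, hwK⟩

/-- products -/
theorem dec_mul {K1 K2 : Language A} (h1 : Decomposable K1) (h2 : Decomposable K2) :
    Decomposable (K1 * K2) := by
  obtain ⟨S1, f1, m1, d1⟩ := h1
  obtain ⟨S2, f2, m2, d2⟩ := h2
  set S : Set (Language A) := S1 ∪ S2 ∪ (fun q : Language A × Language A => q.1 * q.2) '' (S1 ×ˢ S2)
    with hS
  have s1 : S1 ⊆ S := fun x hx => Or.inl (Or.inl hx)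
  have s2 : S2 ⊆ S := fun x hx => Or.inl (Or.inr hx)
  have s3 : ∀ P ∈ S1, ∀ R ∈ S2, P * R ∈ S := fun P hP R hR => Or.inr ⟨(P, R), ⟨hP, hR⟩, rfl⟩
  refine ⟨S, (f1.union f2).union ((f1.prod f2).image _), s3 _ m1 _ m2, ?_⟩
  rintro L ((hL | hL) | ⟨⟨P, R⟩, ⟨hP, hR⟩, rfl⟩)
  · exact ⟨rects_mono s1 (d1 L hL).1, rects_mono s1 (d1 L hL).2⟩
  · exact ⟨rects_mono s2 (d2 L hL).1, rects_mono s2 (d2 L hL).2⟩
  · simp only at hP hR ⊢
    obtain ⟨⟨F, hF, hF2, hF3⟩, ⟨F', hF', hF2', hF3'⟩⟩ := d1 P hP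
    obtain ⟨⟨H, hH, hH2, hH3⟩, ⟨H', hH', hH2', hH3'⟩⟩ := d2 R hR
    constructor
    · refine ⟨(fun q : Language A × Language A => (q.1, q.2 * R)) '' F ∪
        (fun q : Language A × Language A => (P * q.1, q.2)) '' H,
        (hF.image _).union (hH.image _), ?_, ?_⟩
      · rintro _ (⟨q, hq, rfl⟩ | ⟨q, hq, rfl⟩)
        · exact ⟨s1 (hF2 q hq).1, s3 _ (hF2 q hq).2 _ hR⟩
        · exact ⟨s3 _ hP _ (hH2 q hq).1, s2 (hH2 q hq).2⟩
      · ext ⟨x, y⟩
        constructor
        · intro hxy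
          have hxy' : x ++ y ∈ P * R := hxy
          obtain ⟨p, hp, r, hr, e⟩ := Language.mem_mul.1 hxy'
          rcases List.append_eq_append_iff.1 e with ⟨x', e1, e2⟩ | ⟨p', e1, e2⟩
          · -- x = p ++ x', r = x' ++ y
            have : (x', y) ∈ tau R := by change x' ++ y ∈ R; rw [← e2]; exact hr
            rw [hH3] at this
            obtain ⟨q, hq, h3, h4⟩ := this
            refine ⟨_, Or.inr ⟨q, hq, rfl⟩, ?_, h4⟩
            exact Language.mem_mul.2 ⟨p, hp, x', h3, e1.symm⟩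
          · have : (x, p') ∈ tau P := by change x ++ p' ∈ P; rw [← e1]; exact hp
            rw [hF3] at this
            obtain ⟨q, hq, h3, h4⟩ := this
            refine ⟨_, Or.inl ⟨q, hq, rfl⟩, h3, ?_⟩
            exact Language.mem_mul.2 ⟨p', h4, r, hr, e2.symm⟩
        · rintro ⟨_, (⟨q, hq, rfl⟩ | ⟨q, hq, rfl⟩), h3, h4⟩
          · obtain ⟨p', hp', r, hr, e⟩ := Language.mem_mul.1 h4
            have e : p' ++ r = y := e
            have : (x, p') ∈ tau P := by rw [hF3]; exact ⟨q, hq, h3, hp'⟩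
            refine Language.mem_mul.2 ⟨x ++ p', this, r, hr, ?_⟩
            change x ++ p' ++ r = x ++ y
            rw [← e, List.append_assoc]
          · obtain ⟨p, hp, x', hx', e⟩ := Language.mem_mul.1 h3
            have e : p ++ x' = x := e
            have : (x', y) ∈ tau R := by rw [hH3]; exact ⟨q, hq, hx', h4⟩
            refine Language.mem_mul.2 ⟨p, hp, x' ++ y, this, ?_⟩
            change p ++ (x' ++ y) = x ++ y
            rw [← e, List.append_assoc]
    · refine ⟨(fun q : (Language A × Language A) × (Language A × Language A) =>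
        (q.1.1 * q.2.1, q.1.2 * q.2.2)) '' (F' ×ˢ H'), (hF'.prod hH').image _, ?_, ?_⟩
      · rintro _ ⟨⟨q, q'⟩, ⟨hq, hq'⟩, rfl⟩
        exact ⟨s3 _ (hF2' q hq).1 _ (hH2' q' hq').1, s3 _ (hF2' q hq).2 _ (hH2' q' hq').2⟩
      · ext ⟨x, y⟩
        rw [mem_sigma]
        constructor
        · rintro ⟨w, hw, hwm⟩
          obtain ⟨p, hp, r, hr, rfl⟩ := Language.mem_mul.1 hwm
          -- split the shuffle according to the result
          have key : ∀ {p : List A} {r x y : List A}, Shuf x y (p ++ r) →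
              ∃ x1 x2 y1 y2, x = x1 ++ x2 ∧ y = y1 ++ y2 ∧ Shuf x1 y1 p ∧ Shuf x2 y2 r := by
            intro p
            induction p with
            | nil => intro r x y h; exact ⟨[], x, [], y, rfl, rfl, .nil, h⟩
            | cons a p ih =>
              intro r x y h
              cases h with
              | left _ h =>
                obtain ⟨x1, x2, y1, y2, rfl, rfl, h1, h2⟩ := ih h
                exact ⟨a :: x1, x2, y1, y2, rfl, rfl, .left a h1, h2⟩
              | right _ h =>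
                obtain ⟨x1, x2, y1, y2, rfl, rfl, h1, h2⟩ := ih h
                exact ⟨x1, x2, a :: y1, y2, rfl, rfl, .right a h1, h2⟩
          obtain ⟨x1, x2, y1, y2, rfl, rfl, k1, k2⟩ := key hw
          have t1 : (x1, y1) ∈ sigma P := mem_sigma.2 ⟨p, k1, hp⟩
          have t2 : (x2, y2) ∈ sigma R := mem_sigma.2 ⟨r, k2, hr⟩
          rw [hF3'] at t1
          rw [hH3'] at t2
          obtain ⟨q, hq, h3, h4⟩ := t1
          obtain ⟨q', hq', h3', h4'⟩ := t2
          exact ⟨_, ⟨(q, q'), ⟨hq, hq'⟩, rfl⟩, Language.mem_mul.2 ⟨x1, h3, x2, h3', rfl⟩,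
            Language.mem_mul.2 ⟨y1, h4, y2, h4', rfl⟩⟩
        · rintro ⟨_, ⟨⟨q, q'⟩, ⟨hq, hq'⟩, rfl⟩, h3, h4⟩
          obtain ⟨x1, hx1, x2, hx2, rfl⟩ := Language.mem_mul.1 h3
          obtain ⟨y1, hy1, y2, hy2, rfl⟩ := Language.mem_mul.1 h4
          have t1 : (x1, y1) ∈ sigma P := by rw [hF3']; exact ⟨q, hq, hx1, hy1⟩
          have t2 : (x2, y2) ∈ sigma R := by rw [hH3']; exact ⟨q', hq', hx2, hy2⟩
          obtain ⟨w1, k1, m1'⟩ := mem_sigma.1 t1
          obtain ⟨w2, k2, m2'⟩ := mem_sigma.1 t2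
          exact ⟨w1 ++ w2, k1.append k2, Language.mem_mul.2 ⟨w1, m1', w2, m2', rfl⟩⟩

theorem shuf_nil {x y : List A} (h : Shuf x y []) : x = [] ∧ y = [] := by
  cases h; exact ⟨rfl, rfl⟩

/-- letters -/
theorem dec_letter (a : A) : Decomposable ({[a]} : Language A) := by
  have key : ∀ {T : Set (List A × List A)},
      (∀ x y, (x, y) ∈ T ↔ (x = [] ∧ y = [a]) ∨ (x = [a] ∧ y = [])) →
      IsFiniteUnionOfRects {({[a]} : Language A), ({[]} : Language A)} T := by
    intro T hT
    refine ⟨{(({[]} : Language A), ({[a]} : Language A)), (({[a]} : Language A), ({[]} : Language A))},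
      by simp, ?_, ?_⟩
    · rintro q (rfl | rfl)
      · exact ⟨Or.inr rfl, Or.inl rfl⟩
      · exact ⟨Or.inl rfl, Or.inr rfl⟩
    · ext ⟨x, y⟩
      rw [hT]
      constructor
      · rintro (⟨rfl, rfl⟩ | ⟨rfl, rfl⟩)
        · exact ⟨_, Or.inl rfl, rfl, rfl⟩
        · exact ⟨_, Or.inr rfl, rfl, rfl⟩
      · rintro ⟨q, (rfl | rfl), h1, h2⟩
        · exact Or.inl ⟨h1, h2⟩
        · exact Or.inr ⟨h1, h2⟩
  have key' : ∀ {T : Set (List A × List A)},
      (∀ x y, (x, y) ∈ T ↔ (x = [] ∧ y = [])) →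
      IsFiniteUnionOfRects {({[a]} : Language A), ({[]} : Language A)} T := by
    intro T hT
    refine ⟨{(({[]} : Language A), ({[]} : Language A))}, by simp, ?_, ?_⟩
    · rintro q rfl
      exact ⟨Or.inr rfl, Or.inr rfl⟩
    · ext ⟨x, y⟩
      rw [hT]
      constructor
      · rintro ⟨rfl, rfl⟩
        exact ⟨_, rfl, rfl, rfl⟩
      · rintro ⟨q, rfl, h1, h2⟩
        exact ⟨h1, h2⟩
  refine ⟨{({[a]} : Language A), ({[]} : Language A)}, by simp, Or.inl rfl, ?_⟩
  rintro L (rfl | rfl)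
  · constructor
    · apply key
      intro x y
      constructor
      · intro h
        have h' : x ++ y = [a] := h
        rcases List.append_eq_singleton_iff.1 h' with h | h
        · exact Or.inl h
        · exact Or.inr h
      · rintro (⟨rfl, rfl⟩ | ⟨rfl, rfl⟩) <;> rfl
    · apply key
      intro x y
      rw [mem_sigma]
      constructor
      · rintro ⟨w, hw, h⟩
        have h' : w = [a] := h
        subst h'
        cases hw with
        | left _ h =>
          obtain ⟨rfl, rfl⟩ := shuf_nil h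
          exact Or.inr ⟨rfl, rfl⟩
        | right _ h =>
          obtain ⟨rfl, rfl⟩ := shuf_nil h
          exact Or.inl ⟨rfl, rfl⟩
      · rintro (⟨rfl, rfl⟩ | ⟨rfl, rfl⟩)
        · exact ⟨[a], Shuf.right_only _, rfl⟩
        · exact ⟨[a], Shuf.left_only _, rfl⟩
  · constructor
    · apply key'
      intro x y
      constructor
      · intro h
        have h' : x ++ y = [] := h
        exact List.append_eq_nil_iff.1 h'
      · rintro ⟨rfl, rfl⟩; rfl
    · apply key'
      intro x y
      rw [mem_sigma]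
      constructor
      · rintro ⟨w, hw, h⟩
        have h' : w = [] := h
        subst h'
        exact shuf_nil hw
      · rintro ⟨rfl, rfl⟩
        exact ⟨[], Shuf.nil, rfl⟩

/-- up-sets of the simulation order -/
theorem dec_upset [Finite A] {G : Type*} [Group G] [Finite G] (π : A → G) (K : Language A)
    (hK : ∀ w x, w ∈ K → Le π w x → x ∈ K) : Decomposable K := by
  classical
  set U : List A → Language A := fun w => {x | Le π w x} with hU
  have hfin : (Set.range U).Finite := finite_upsets π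
  have hup : ∀ L : Language A, (∀ w x, w ∈ L → Le π w x → x ∈ L) →
      IsFiniteUnionOfRects (Set.range U) (tau L) ∧ IsFiniteUnionOfRects (Set.range U) (sigma L) := by
    intro L hL
    constructor
    · refine ⟨(fun p : List A × List A => (U p.1, U p.2)) '' tau L, ?_, ?_, ?_⟩
      · apply (hfin.prod hfin).subset
        rintro _ ⟨p, _, rfl⟩
        exact ⟨⟨p.1, rfl⟩, ⟨p.2, rfl⟩⟩
      · rintro _ ⟨p, _, rfl⟩
        exact ⟨⟨p.1, rfl⟩, ⟨p.2, rfl⟩⟩
      · ext ⟨x, y⟩
        constructor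
        · intro h
          exact ⟨_, ⟨(x, y), h, rfl⟩, Le.refl π x, Le.refl π y⟩
        · rintro ⟨_, ⟨⟨x0, y0⟩, h, rfl⟩, h1, h2⟩
          exact hL _ _ h (Le.append h1 h2)
    · refine ⟨(fun p : List A × List A => (U p.1, U p.2)) '' sigma L, ?_, ?_, ?_⟩
      · apply (hfin.prod hfin).subset
        rintro _ ⟨p, _, rfl⟩
        exact ⟨⟨p.1, rfl⟩, ⟨p.2, rfl⟩⟩
      · rintro _ ⟨p, _, rfl⟩
        exact ⟨⟨p.1, rfl⟩, ⟨p.2, rfl⟩⟩
      · ext ⟨x, y⟩
        constructor
        · intro h
          exact ⟨_, ⟨(x, y), h, rfl⟩, Le.refl π x, Le.refl π y⟩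
        · rintro ⟨_, ⟨⟨x0, y0⟩, h, rfl⟩, h1, h2⟩
          obtain ⟨w, hw, hwL⟩ := mem_sigma.1 h
          have h1' : Le π x0 x := h1
          have h2' : Le π y0 y := h2
          obtain ⟨w1, k1, l1⟩ := h1'.shuf hw
          obtain ⟨w2, k2, l2⟩ := h2'.shuf k1.symm
          exact mem_sigma.2 ⟨w2, k2.symm, hL _ _ hwL (l1.trans l2)⟩
  refine ⟨Set.range U ∪ {K}, hfin.union (Set.finite_singleton K), Or.inr rfl, ?_⟩
  have hsub : Set.range U ⊆ Set.range U ∪ {K} := Set.subset_union_left
  rintro L (⟨w, rfl⟩ | hL)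
  · have := hup (U w) (fun a x (ha : Le π w a) hx => (ha.trans hx : Le π w x))
    exact ⟨rects_mono hsub this.1, rects_mono hsub this.2⟩
  · rw [Set.mem_singleton_iff] at hL
    subst hL
    have := hup L hK
    exact ⟨rects_mono hsub this.1, rects_mono hsub this.2⟩

theorem dec_group [Finite A] {L : Language A} (h : IsGroupLanguage L) : Decomposable L := by
  obtain ⟨G, _, _, φ, U, rfl⟩ := h
  apply dec_upset (fun a => φ (FreeMonoid.of a))
  intro w x hw hwx
  have e : ∀ w : List A, φ (FreeMonoid.ofList w) = wv (fun a => φ (FreeMonoid.of a)) w := by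
    intro w
    induction w with
    | nil => simp
    | cons a w ih => rw [FreeMonoid.ofList_cons, map_mul, ih, wv_cons]
  change φ (FreeMonoid.ofList x) ∈ U
  have hw' : φ (FreeMonoid.ofList w) ∈ U := hw
  rw [e] at hw' ⊢
  rw [← hwx.wv_eq]
  exact hw'

theorem dec_marked [Finite A] {L : Language A} (h : IsMarkedProduct L) : Decomposable L := by
  induction h with
  | base h => exact dec_group h
  | step a _ h ih => exact dec_mul (dec_mul ih (dec_letter a)) (dec_group h)

theorem pol_decomposable [Finite A] {L : Language A} (h : IsPolG L) : Decomposable L := by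
  obtain ⟨F, h1, h2, rfl⟩ := h
  exact dec_union F h1 (fun K hK => dec_marked (h2 K hK))

end final

end Pool.Agent.Dec56
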