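import Pool.Agent.Lib_helper56.Dec.Shuf

/-!
Insertions of words in generalised words; lifting of shuffles.
-/

set_option autoImplicit false
set_option linter.unusedSectionVars false

namespace Pool.Agent.Dec56

section ins

variable {A G : Type*} [Group G] [DecidableEq G] (π : A → G)

/-- letters as tokens -/
def lts (G : Type*) [Group G] (w : List A) : List (Tok A G) := w.map Tok.lt

@[simp] theorem lts_nil : lts G ([] : List A) = [] := rfl
@[simp] theorem lts_cons (a : A) (w : List A) : lts G (a :: w) = .lt a :: lts G w := rfl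
@[simp] theorem lts_append (u w : List A) : lts G (u ++ w) = lts G u ++ lts G w := by
  simp [lts]

theorem val_lts (w : List A) : val π (lts G w) = wv π w := by
  induction w with
  | nil => rfl
  | cons a w ih => simp [ih, Tok.val]

/-- the blob seen from the vertex `d ∈ C` -/
def Blob.shift (b : Blob G) (d : G) (hd : d ∈ b.C) : Blob G where
  C := b.C.image (d⁻¹ * ·)
  c := d⁻¹ * b.c
  one_mem := Finset.mem_image.2 ⟨d, hd, by simp⟩
  mem := Finset.mem_image.2 ⟨b.c, b.mem, rfl⟩

/-- the blob with a different exit -/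
def Blob.setc (b : Blob G) (d : G) (hd : d ∈ b.C) : Blob G where
  C := b.C
  c := d
  one_mem := b.one_mem
  mem := hd

theorem Blob.mem_shift {b : Blob G} {d : G} {hd : d ∈ b.C} {x : G} :
    x ∈ (b.shift d hd).C ↔ d * x ∈ b.C := by
  simp only [Blob.shift, Finset.mem_image]
  constructor
  · rintro ⟨y, hy, rfl⟩; simpa using hy
  · intro h; exact ⟨d * x, h, by simp⟩

theorem Blob.card_shift {b : Blob G} {d : G} {hd : d ∈ b.C} :
    (b.shift d hd).C.card = b.C.card :=
  Finset.card_image_of_injective _ (mul_right_injective _)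

/-- insertion of a word in a blob -/
inductive BIns : Blob G → List A → List (Tok A G) → Prop
  | done (b : Blob G) : BIns b [] [.bl b]
  | step (b : Blob G) (d : G) (hd : d ∈ b.C) (a : A) {u R} : BIns (b.shift d hd) u R →
      BIns b (a :: u) (.bl (b.setc d hd) :: .lt a :: R)

/-- insertion of a word in a generalised word; the flag records whether the previous token is a
blob (in which case no letter may be inserted in front) -/
inductive Ins : Bool → List (Tok A G) → List A → List (Tok A G) → Prop
  | endF (u : List A) : Ins false [] u (lts G u)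
  | endT : Ins true [] [] []
  | ltF (u : List A) (a : A) {W v V} : Ins false W v V →
      Ins false (.lt a :: W) (u ++ v) (lts G u ++ .lt a :: V)
  | ltT (a : A) {W v V} : Ins false W v V → Ins true (.lt a :: W) v (.lt a :: V)
  | bl (fl : Bool) (b : Blob G) {u R W v V} : BIns b u R → Ins true W v V →
      Ins fl (.bl b :: W) (u ++ v) (R ++ V)

/-- words below a generalised word -/
inductive InL : List (Tok A G) → List A → Prop
  | nil : InL [] []
  | lt (a : A) {W w} : InL W w → InL (.lt a :: W) (a :: w)
  | bl (b : Blob G) {s : List A} {W w} : (∀ x ∈ cov π (lts G s), x ∈ b.C) → wv π s = b.c →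
      InL W w → InL (.bl b :: W) (s ++ w)

variable {π}

theorem InL.append {W W' : List (Tok A G)} {w w' : List A} (h : InL π W w) (h' : InL π W' w') :
    InL π (W ++ W') (w ++ w') := by
  induction h with
  | nil => exact h'
  | lt a _ ih => exact .lt a ih
  | bl b hs hc _ ih => rw [List.append_assoc]; exact .bl b hs hc ih

theorem InL_lts (w : List A) : InL π (lts G w) w := by
  induction w with
  | nil => exact .nil
  | cons a w ih => exact .lt a ih

theorem InL.split {W W' : List (Tok A G)} {w : List A} (h : InL π (W ++ W') w) :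
    ∃ w1 w2, w = w1 ++ w2 ∧ InL π W w1 ∧ InL π W' w2 := by
  induction W generalizing w with
  | nil => exact ⟨[], w, rfl, .nil, h⟩
  | cons τ W ih =>
    rw [List.cons_append] at h
    cases h with
    | lt a h =>
      obtain ⟨w1, w2, rfl, h1, h2⟩ := ih h
      exact ⟨a :: w1, w2, rfl, .lt a h1, h2⟩
    | bl b hs hc h =>
      obtain ⟨w1, w2, rfl, h1, h2⟩ := ih h
      exact ⟨_, w2, (List.append_assoc _ _ _).symm, .bl b hs hc h1, h2⟩

theorem InL.val_eq {W : List (Tok A G)} {w : List A} (h : InL π W w) : wv π w = val π W := by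
  induction h with
  | nil => rfl
  | lt a _ ih => simp [ih, Tok.val]
  | bl b hs hc _ ih => rw [wv_append, ih, hc]; rfl

theorem InL.cov_sub {W : List (Tok A G)} {w : List A} (h : InL π W w) :
    ∀ x ∈ cov π (lts G w), x ∈ cov π W := by
  induction h with
  | nil => intro x hx; exact hx
  | lt a _ ih =>
    intro x hx
    rw [lts_cons, mem_cov_cons] at hx
    rw [mem_cov_cons]
    rcases hx with hx | ⟨y, hy, rfl⟩
    · left; exact hx
    · right; exact ⟨y, ih y hy, rfl⟩
  | bl b hs hc _ ih =>
    intro x hx
    rw [lts_append, mem_cov_append] at hx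
    rw [mem_cov_cons]
    rcases hx with hx | ⟨y, hy, rfl⟩
    · left; exact hs x hx
    · right
      refine ⟨y, ih y hy, ?_⟩
      rw [val_lts, hc]; rfl

theorem InL.coarse {N : ℕ → ℕ} {W V : List (Tok A G)} (h : Coarse π N W V) :
    ∀ {w : List A}, InL π W w → InL π V w := by
  induction h with
  | nil => intro w h; exact h
  | lt a _ ih =>
    intro w h
    cases h with
    | lt a h => exact .lt a (ih h)
  | mg f hf _ ih =>
    intro w h
    obtain ⟨w1, w2, rfl, h1, h2⟩ := h.split
    exact .bl _ h1.cov_sub h1.val_eq (ih h2)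

theorem blift {s : List A} {v x : List A} (hs : Shuf s v x) :
    ∀ {b : Blob G}, (∀ y ∈ cov π (lts G s), y ∈ b.C) → wv π s = b.c →
      ∃ R, BIns b v R ∧ InL π R x := by
  induction v generalizing s x with
  | nil =>
    intro b h1 h2
    rw [hs.nil_right]
    refine ⟨[.bl b], .done b, ?_⟩
    have := InL.bl (π := π) b h1 h2 InL.nil
    simpa using this
  | cons a v ih =>
    intro b h1 h2
    obtain ⟨s1, s2, x', rfl, rfl, h⟩ := hs.symm.peel_left
    have hd : wv π s1 ∈ b.C := by
      apply h1
      rw [lts_append, mem_cov_append]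
      left
      rw [← val_lts (G := G)]
      exact val_mem_cov π _
    obtain ⟨R, hR, hL⟩ := ih h.symm (b := b.shift (wv π s1) hd) (by
      intro y hy
      rw [Blob.mem_shift]
      apply h1
      rw [lts_append, mem_cov_append]
      right
      exact ⟨y, hy, by rw [val_lts]⟩) (by
      simp only [Blob.shift]
      rw [← h2, wv_append]; simp)
    refine ⟨_, .step b (wv π s1) hd a hR, ?_⟩
    refine .bl (b.setc _ hd) ?_ rfl (.lt a hL)
    intro y hy
    apply h1
    rw [lts_append, mem_cov_append]
    left; exact hy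

/-- no inserted letter in front -/
def NI (w v x : List A) : Prop := ∀ a v' x', v = a :: v' → x = a :: x' → ¬ Shuf w v' x'

theorem split_NI {s w : List A} : ∀ (n : ℕ) {v1 v2 x1 x2 : List A}, v2.length = n →
    Shuf s v1 x1 → Shuf w v2 x2 →
    ∃ v1' v2' x1' x2', v1 ++ v2 = v1' ++ v2' ∧ x1 ++ x2 = x1' ++ x2' ∧ Shuf s v1' x1' ∧
      Shuf w v2' x2' ∧ NI w v2' x2' := by
  intro n
  induction n with
  | zero =>
    intro v1 v2 x1 x2 hn h1 h2
    refine ⟨v1, v2, x1, x2, rfl, rfl, h1, h2, ?_⟩
    rintro a v' x' rfl _ _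
    simp at hn
  | succ n ih =>
    intro v1 v2 x1 x2 hn h1 h2
    by_cases h : NI w v2 x2
    · exact ⟨v1, v2, x1, x2, rfl, rfl, h1, h2, h⟩
    · unfold NI at h
      push Not at h
      obtain ⟨a, v', x', rfl, rfl, h'⟩ := h
      have h1' : Shuf s (v1 ++ [a]) (x1 ++ [a]) := by
        have := h1.append (Shuf.right_only [a])
        simpa using this
      obtain ⟨p1, p2, q1, q2, e1, e2, e3, e4, e5⟩ := ih (by simpa using hn) h1' h'
      exact ⟨p1, p2, q1, q2, by rw [← e1]; simp, by rw [← e2]; simp, e3, e4, e5⟩

theorem lift_aux {W : List (Tok A G)} {w : List A} (h : InL π W w) :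
    (∀ {v x : List A}, Shuf w v x → ∃ V, Ins false W v V ∧ InL π V x) ∧
    (∀ {v x : List A}, Shuf w v x → NI w v x → ∃ V, Ins true W v V ∧ InL π V x) := by
  induction h with
  | nil =>
    constructor
    · intro v x hx
      rw [hx.nil_left]
      exact ⟨_, .endF v, InL_lts v⟩
    · intro v x hx hni
      cases v with
      | nil => rw [hx.nil_left]; exact ⟨[], .endT, .nil⟩
      | cons a v =>
        exfalso
        have := hx.nil_left
        subst this
        exact hni a v v rfl rfl (Shuf.right_only v)
  | lt a _ ih =>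
    constructor
    · intro v x hx
      obtain ⟨u, v', x', rfl, rfl, h'⟩ := hx.peel_left
      obtain ⟨V, hV, hL⟩ := ih.1 h'
      exact ⟨_, .ltF u a hV, (InL_lts u).append (.lt a hL)⟩
    · intro v x hx hni
      cases hx with
      | left _ h' =>
        obtain ⟨V, hV, hL⟩ := ih.1 h'
        exact ⟨_, .ltT a hV, .lt a hL⟩
      | right b h' => exact absurd h' (hni b _ _ rfl rfl)
  | @bl b s W0 w0 hs hc _ ih =>
    have key : ∀ (fl : Bool) {v x : List A}, Shuf (s ++ w0) v x →
        ∃ V, Ins fl (.bl b :: W0) v V ∧ InL π V x := by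
      intro fl v x hx
      obtain ⟨v1, v2, x1, x2, rfl, rfl, h1, h2⟩ := hx.split_left
      obtain ⟨p1, p2, q1, q2, e1, e2, e3, e4, e5⟩ := split_NI _ rfl h1 h2
      obtain ⟨R, hR, hLR⟩ := blift e3 hs hc
      obtain ⟨V, hV, hLV⟩ := ih.2 e4 e5
      rw [e1, e2]
      exact ⟨_, .bl fl b hR hV, hLR.append hLV⟩
    exact ⟨fun hx => key false hx, fun hx _ => key true hx⟩

/-- lifting of shuffles to generalised words -/
theorem lift {W : List (Tok A G)} {w : List A} (h : InL π W w) {v x : List A}
    (hx : Shuf w v x) : ∃ V, Ins false W v V ∧ InL π V x := (lift_aux h).1 hx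

end ins

end Pool.Agent.Dec56
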