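import Pool.Agent.Lib_helper56.Dec.Comp

/-!
The main induction: rich words dominate.
-/

set_option autoImplicit false
set_option linter.unusedSectionVars false

namespace Pool.Agent.Dec56

/-- the thresholds -/
def thr (n r m : ℕ) : ℕ := (r + n * n + 3) * (pb n + 1) ^ (n - m)

theorem thr_pos (n m : ℕ) : 1 ≤ (pb n + 1) ^ (n - m) := Nat.one_le_pow _ _ (by omega)

theorem thr_ge (n r m : ℕ) : r + n * n + 3 ≤ thr n r m := by
  unfold thr
  exact Nat.le_mul_of_pos_right _ (thr_pos n m)

theorem thr_mono {n r r' : ℕ} (h : r' ≤ r) (m : ℕ) : thr n r' m ≤ thr n r m :=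
  Nat.mul_le_mul_right _ (by omega)

theorem thr_adm (n r : ℕ) : Adm n (thr n r) := by
  refine ⟨fun m => by have := thr_ge n r m; omega, ?_⟩
  intro m m' hm hm'
  unfold thr
  rw [mul_assoc]
  apply Nat.mul_le_mul_left
  calc (pb n + 1) ^ (n - m') * pb m' ≤ (pb n + 1) ^ (n - m') * (pb n + 1) :=
        Nat.mul_le_mul_left _ ((pb_mono hm').trans (Nat.le_succ _))
    _ = (pb n + 1) ^ (n - m' + 1) := (pow_succ _ _).symm
    _ ≤ (pb n + 1) ^ (n - m) := Nat.pow_le_pow_right (by omega) (by omega)

theorem thr_big (n r K m : ℕ) : (K + 1) * (thr n r m + 1) ≤ thr n ((K + 1) * (r + n * n + 4)) m := by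
  have h := thr_pos n m
  unfold thr
  calc (K + 1) * ((r + n * n + 3) * (pb n + 1) ^ (n - m) + 1)
      ≤ (K + 1) * ((r + n * n + 3) * (pb n + 1) ^ (n - m) + (pb n + 1) ^ (n - m)) :=
        Nat.mul_le_mul_left _ (by omega)
    _ = ((K + 1) * (r + n * n + 4)) * (pb n + 1) ^ (n - m) := by ring
    _ ≤ _ := Nat.mul_le_mul_right _ (by omega)

theorem thr_bound (n r : ℕ) : ∃ L, ∀ m, m ≤ n → thr n r m * pb m ≤ L := by
  refine ⟨(r + n * n + 3) * (pb n + 1) ^ n * pb n, ?_⟩
  intro m hm
  unfold thr
  apply Nat.mul_le_mul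
  · apply Nat.mul_le_mul_left
    exact Nat.pow_le_pow_right (by omega) (by omega)
  · exact pb_mono hm

section main

variable {A G : Type*} [Group G] [DecidableEq G] (π : A → G)

theorem Coarse.mono {N N' : ℕ → ℕ} (h : ∀ m, N' m ≤ N m) {W V : List (Tok A G)}
    (hc : Coarse π N W V) : Coarse π N' W V := by
  induction hc with
  | nil => exact .nil
  | lt a _ ih => exact .lt a ih
  | mg f hf _ ih =>
    obtain ⟨l, he, hN⟩ := hf
    exact .mg f ⟨l, he, NF_le (h _) hN⟩ ih

theorem KLt_of_le {κ κ' : ℕ → ℕ} {n : ℕ} (h : ∀ m, κ m ≤ κ' m) (hs : ∃ m, κ m < κ' m)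
    (hn : ∀ m, n < m → κ' m = 0) : KLt κ κ' := by
  classical
  obtain ⟨m0, hm0⟩ := hs
  have hm0n : m0 ≤ n := by
    by_contra hcon
    push Not at hcon
    rw [hn m0 hcon] at hm0
    omega
  refine ⟨Nat.findGreatest (fun m => κ m < κ' m) n,
    Nat.findGreatest_spec (P := fun m => κ m < κ' m) hm0n hm0, ?_⟩
  intro m' hm'
  by_cases hle : m' ≤ n
  · have := Nat.findGreatest_is_greatest hm' hle
    have h2 := h m'
    omega
  · have h1 := hn m' (by omega)
    have h2 := h m'
    omega

theorem kap_big [Fintype G] (W : List (Tok A G)) {m : ℕ} (hm : Fintype.card G < m) :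
    kap W m = 0 := by
  induction W with
  | nil => rfl
  | cons τ W ih =>
    cases τ with
    | lt a => simpa using ih
    | bl b =>
      have : b.C.card ≤ Fintype.card G := Finset.card_le_univ _
      rw [kap_bl, ih, if_neg (by omega)]

/-- the statement proved by induction -/
def Q [Fintype G] (Pr : (ℕ → ℕ) → Prop) : Prop :=
  ∃ r, ∀ (W : List (Tok A G)) (w w' : List A), Nrm π W → Pr (kap W) → InL π W w →
    Coarse π (thr (Fintype.card G) r) (lts G w') W → Le π w w'

theorem Q.imp [Fintype G] {P1 P2 : (ℕ → ℕ) → Prop} (h : Q π P1) (h12 : ∀ κ, P2 κ → P1 κ) :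
    Q π P2 := by
  obtain ⟨r, hr⟩ := h
  exact ⟨r, fun W w w' h1 h2 => hr W w w' h1 (h12 _ h2)⟩

theorem base [Fintype G] (ρ : ℕ → ℕ) (h : Q π (fun κ => KLt ρ κ)) :
    Q π (fun κ => KLt ρ κ ∨ κ = ρ) := by
  obtain ⟨r', hr'⟩ := h
  set n := Fintype.card G with hn
  have hadm := thr_adm n r'
  obtain ⟨B, hB⟩ := restructure (A := A) π (N := thr n r') hadm
  obtain ⟨L, hL⟩ := thr_bound n r'
  set K0 := Nat.card (Blob G × G × Fin (B + 1) × Fin (L + 1)) * Nat.card G with hK0
  set r := (K0 + 1) * (r' + n * n + 4) with hr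
  have hrr' : r' ≤ r := by
    rw [hr]
    calc r' ≤ r' + n * n + 4 := by omega
      _ ≤ (K0 + 1) * (r' + n * n + 4) := Nat.le_mul_of_pos_left _ (by omega)
  refine ⟨r, ?_⟩
  intro W w w' hW hP hw hw'
  rcases hP with hP | hP
  · exact hr' W w w' hW hP hw (hw'.mono π (thr_mono hrr'))
  · apply Le.coind (π := π) (R := fun w w' => ∃ W : List (Tok A G), Nrm π W ∧ kap W = ρ ∧
      InL π W w ∧ Coarse π (thr n r) (lts G w') W) ?_ ⟨W, hW, hP, hw, hw'⟩
    clear hW hP hw hw' W w w'
    rintro w w' ⟨W, hW, hP, hw, hw'⟩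
    refine ⟨by rw [hw.val_eq, ← hw'.val_eq π, val_lts], ?_⟩
    intro v x hx
    obtain ⟨V0, hV0, hx0⟩ := lift hw hx
    obtain ⟨V, hco, hV, -, hk, hz⟩ := event π (thr n r') hV0 hW
    rcases hz with ⟨hz, hke⟩ | hs
    · -- zero cost
      obtain ⟨w1, w2, h1, h2, h3⟩ := zero_cost π (N := thr n r)
        (fun m => by have := thr_ge n r m; rw [← hn]; omega)
        (thr_adm n r).1 hz hw'
      refine ⟨w1, w2, h1, Le.of_LI h2, Or.inl ⟨V, hV, ?_, InL.coarse hco hx0, h3⟩⟩
      rw [← hP]; funext m; exact (hke m).symm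
    · -- event
      have hlt : KLt (kap W) (kap V) := KLt_of_le hk hs (n := n) (fun m hm => kap_big V hm)
      obtain ⟨W2, hc2, hn2, hk2, hb2⟩ := hB V hV
      have hlt2 : KLt ρ (kap W2) := by
        rw [← hP]
        rcases hk2 with hk2 | hk2
        · rw [hk2]; exact hlt
        · exact hlt.trans hk2
      have hc3 : Coarse π (thr n r') V0 W2 := hc2.trans π hadm hco
      obtain ⟨v', V', hLI, hIB, hc4⟩ := compress π hadm.1 B L hL hV0 hc3 hb2
      obtain ⟨w1, hs1, hc5⟩ := real_word π hadm.1 (M := thr n r)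
        (fun m => thr_big n r' K0 m) hIB hw'
      obtain ⟨w3, hs3, hLI3⟩ := hLI.shuf hs1
      refine ⟨w3, w1, hs3, Le.of_LI hLI3, Or.inr ?_⟩
      exact hr' W2 x w1 hn2 hlt2 (InL.coarse hc3 hx0) (hc4.trans π hadm hc5)

def GtA (j : ℕ) (ρ κ : ℕ → ℕ) : Prop := ∃ m, j ≤ m ∧ ρ m < κ m ∧ ∀ m', m < m' → κ m' = ρ m'
def EqA (j : ℕ) (ρ κ : ℕ → ℕ) : Prop := ∀ m, j ≤ m → κ m = ρ m

theorem induct [Fintype G] (j : ℕ) : ∀ ρ : ℕ → ℕ, Q (A := A) π (fun κ => GtA j ρ κ) →
    Q π (fun κ => GtA j ρ κ ∨ EqA j ρ κ) := by
  induction j with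
  | zero =>
    intro ρ h
    have h' := base π ρ (h.imp π (P2 := fun κ => KLt ρ κ) (by
      rintro κ ⟨m, h1, h2⟩
      exact ⟨m, Nat.zero_le _, h1, fun m' hm' => (h2 m' hm').symm⟩))
    refine h'.imp π ?_
    rintro κ (⟨m, _, h1, h2⟩ | h1)
    · left; exact ⟨m, h1, fun m' hm' => (h2 m' hm').symm⟩
    · right; funext m; exact h1 m (Nat.zero_le _)
  | succ j ih =>
    intro ρ h
    obtain ⟨r', hr'⟩ := h
    set n := Fintype.card G with hn
    have hadm := thr_adm n r'
    obtain ⟨B, hB⟩ := restructure (A := A) π (N := thr n r') hadm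
    have T : ∀ k, k ≤ B + 1 → Q (A := A) π (fun κ => GtA (j + 1) ρ κ ∨
        (EqA (j + 1) ρ κ ∧ B + 1 - k ≤ κ j)) := by
      intro k
      induction k with
      | zero =>
        intro _
        refine ⟨r', ?_⟩
        intro W w w' hW hP hw hw'
        rcases hP with hP | ⟨hP1, hP2⟩
        · exact hr' W w w' hW hP hw hw'
        · obtain ⟨W2, hc2, hn2, hk2, hb2⟩ := hB W hW
          have hjB : kap W2 j ≤ B := (kap_le_nb W2 j).trans hb2
          have hlt : KLt (kap W) (kap W2) := by
            rcases hk2 with hk2 | hk2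
            · exfalso; rw [hk2] at hjB; omega
            · exact hk2
          obtain ⟨m, hm1, hm2⟩ := hlt
          have hmj : j + 1 ≤ m := by
            by_contra hcon
            rcases Nat.lt_or_ge m j with hlt | hge
            · have := hm2 j hlt
              omega
            · have : m = j := by omega
              subst this
              omega
          refine hr' W2 w w' hn2 ⟨m, hmj, ?_, ?_⟩ (InL.coarse hc2 hw) (hc2.trans π hadm hw')
          · rw [← hP1 m hmj]; exact hm1
          · intro m' hm'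
            rw [← hm2 m' hm']
            exact hP1 m' (by omega)
      | succ k ihk =>
        intro hk
        have h1 := ihk (by omega)
        have h2 := ih (Function.update ρ j (B + 1 - (k + 1))) (h1.imp π (by
          rintro κ ⟨m, hm, hm1, hm2⟩
          rcases Nat.lt_or_ge j m with hlt | hge
          · left
            refine ⟨m, hlt, ?_, ?_⟩
            · rwa [Function.update_of_ne (by omega)] at hm1
            · intro m' hm'
              have := hm2 m' hm'
              rwa [Function.update_of_ne (by omega)] at this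
          · right
            have : m = j := by omega
            subst this
            rw [Function.update_self] at hm1
            refine ⟨?_, by omega⟩
            intro m' hm'
            have := hm2 m' (by omega)
            rwa [Function.update_of_ne (by omega)] at this))
        refine h2.imp π ?_
        rintro κ (⟨m, hm, hm1, hm2⟩ | ⟨h3, h4⟩)
        · left
          refine ⟨m, by omega, ?_, ?_⟩
          · rwa [Function.update_of_ne (by omega)]
          · intro m' hm'
            rw [Function.update_of_ne (by omega)]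
            exact hm2 m' hm'
        · by_cases he : κ j = B + 1 - (k + 1)
          · right
            intro m hm
            rcases Nat.lt_or_ge j m with hlt | hge
            · rw [Function.update_of_ne (by omega)]
              exact h3 m hlt
            · have : m = j := by omega
              subst this
              rw [Function.update_self]
              exact he
          · left
            refine ⟨j, le_rfl, ?_, ?_⟩
            · rw [Function.update_self]; omega
            · intro m' hm'
              rw [Function.update_of_ne (by omega)]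
              exact h3 m' hm'
    refine (T (B + 1) le_rfl).imp π ?_
    rintro κ (h1 | h1)
    · left; exact h1
    · right; exact ⟨h1, by omega⟩

/-- rich words dominate -/
theorem dominate [Fintype G] : ∃ r, ∀ (W : List (Tok A G)) (w w' : List A), Nrm π W →
    InL π W w → Coarse π (thr (Fintype.card G) r) (lts G w') W → Le π w w' := by
  have h := induct (A := A) π (Fintype.card G + 1) (fun _ => 0) ⟨0, by
    rintro W w w' _ ⟨m, hm, hm1, _⟩
    exfalso
    rw [kap_big W (by omega)] at hm1
    omega⟩
  obtain ⟨r, hr⟩ := h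
  refine ⟨r, fun W w w' h1 => hr W w w' h1 (Or.inr ?_)⟩
  intro m hm
  exact kap_big W (by omega)

theorem tok_finite [Finite A] [Finite G] : Finite (Tok A G) := by
  apply Finite.of_injective (fun τ : Tok A G => match τ with
    | .lt a => (Sum.inl a : A ⊕ Blob G)
    | .bl b => Sum.inr b)
  intro τ τ' h
  cases τ <;> cases τ' <;> simp_all

/-- there are finitely many classes -/
theorem finite_upsets [Finite A] [Finite G] :
    (Set.range (fun w : List A => {x | Le π w x})).Finite := by
  have : Fintype G := Fintype.ofFinite G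
  have : Finite (Tok A G) := tok_finite
  obtain ⟨r, hr⟩ := dominate (A := A) π
  obtain ⟨B, hB⟩ := shorten (A := A) π (N := thr (Fintype.card G) r) (thr_adm _ _)
  have hex : ∀ w : List A, ∃ W2 : List (Tok A G), (Coarse π (thr (Fintype.card G) r) (lts G w) W2 ∧
      Nrm π W2) ∧ W2.length ≤ B := by
    intro w
    obtain ⟨W2, h1, h2, h3⟩ := hB (lts G w) (nrm_lts π w)
    exact ⟨W2, ⟨h1, h2⟩, h3⟩
  choose f hf hlen using hex
  have hfin : (Set.range f).Finite := by
    apply (List.finite_length_le (Tok A G) B).subset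
    rintro _ ⟨w, rfl⟩
    exact hlen w
  have hkey : ∀ w w' : List A, f w = f w' → Le π w w' := by
    intro w w' he
    refine hr (f w) w w' (hf w).2 (InL.coarse (hf w).1 (InL_lts w)) ?_
    rw [he]; exact (hf w').1
  classical
  let h : List (Tok A G) → Set (List A) := fun W =>
    if hW : ∃ w, f w = W then {x | Le π hW.choose x} else ∅
  apply (hfin.image h).subset
  rintro _ ⟨w, rfl⟩
  refine ⟨f w, ⟨w, rfl⟩, ?_⟩
  have hW : ∃ w', f w' = f w := ⟨w, rfl⟩
  simp only [h, dif_pos hW]
  ext x
  constructor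
  · intro hx
    exact (hkey _ _ hW.choose_spec.symm).trans hx
  · intro hx
    exact (hkey _ _ hW.choose_spec).trans hx

end main

end Pool.Agent.Dec56
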