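import Pool.Agent.Lib_helper56.Dec.Tok

/-!
Normal generalised words, counting blobs, merging a good factor.
-/

set_option autoImplicit false
set_option linter.unusedSectionVars false

namespace Pool.Agent.Dec56

section normal

variable {A G : Type*} [Group G] [DecidableEq G] (π : A → G)

/-- mergeability of two adjacent tokens -/
def Mg : Tok A G → Tok A G → Prop
  | .lt _, .lt _ => False
  | .bl b, .lt a => b.c * π a ∈ b.C
  | .lt a, .bl b => (π a)⁻¹ ∈ b.C
  | .bl b, .bl b' => (∀ x ∈ b'.C, b.c * x ∈ b.C) ∨ (∀ x ∈ b.C, b.c⁻¹ * x ∈ b'.C)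

/-- normal generalised words: no adjacent mergeable tokens -/
def Nrm (t : List (Tok A G)) : Prop := t.IsChain (fun τ τ' => ¬ Mg π τ τ')

/-- number of blobs with a set of size `m` -/
def kap (t : List (Tok A G)) (m : ℕ) : ℕ :=
  t.countP (fun τ => match τ with | .lt _ => false | .bl b => decide (b.C.card = m))

def isBl : Tok A G → Bool
  | .lt _ => false
  | .bl _ => true

/-- number of blobs -/
def nb (t : List (Tok A G)) : ℕ := t.countP isBl

@[simp] theorem kap_nil (m : ℕ) : kap ([] : List (Tok A G)) m = 0 := rfl
@[simp] theorem kap_lt (a : A) (t : List (Tok A G)) (m : ℕ) : kap (.lt a :: t) m = kap t m := by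
  simp [kap]
theorem kap_bl (b : Blob G) (t : List (Tok A G)) (m : ℕ) :
    kap (.bl b :: t) m = kap t m + (if b.C.card = m then 1 else 0) := by
  simp [kap, List.countP_cons]
theorem kap_append (s t : List (Tok A G)) (m : ℕ) : kap (s ++ t) m = kap s m + kap t m := by
  simp [kap]
@[simp] theorem nb_nil : nb ([] : List (Tok A G)) = 0 := rfl
@[simp] theorem nb_lt (a : A) (t : List (Tok A G)) : nb (.lt a :: t) = nb t := by
  simp [nb, isBl]
@[simp] theorem nb_bl (b : Blob G) (t : List (Tok A G)) : nb (.bl b :: t) = nb t + 1 := by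
  simp [nb, isBl]
theorem nb_append (s t : List (Tok A G)) : nb (s ++ t) = nb s + nb t := by
  simp [nb]

theorem kap_le_nb (t : List (Tok A G)) (m : ℕ) : kap t m ≤ nb t := by
  induction t with
  | nil => simp
  | cons τ t ih =>
    cases τ with
    | lt a => simpa using ih
    | bl b => rw [kap_bl, nb_bl]; split_ifs <;> omega

/-- strict lexicographic comparison (largest size first) -/
def KLt (κ κ' : ℕ → ℕ) : Prop := ∃ m, κ m < κ' m ∧ ∀ m', m < m' → κ m' = κ' m'

theorem KLt.trans {κ₁ κ₂ κ₃ : ℕ → ℕ} (h : KLt κ₁ κ₂) (h' : KLt κ₂ κ₃) : KLt κ₁ κ₃ := by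
  obtain ⟨m, hm, hm'⟩ := h
  obtain ⟨n, hn, hn'⟩ := h'
  rcases lt_trichotomy m n with hmn | hmn | hmn
  · refine ⟨n, ?_, ?_⟩
    · rw [hm' n hmn]; exact hn
    · intro k hk; rw [hm' k (hmn.trans hk), hn' k hk]
  · subst hmn
    exact ⟨m, hm.trans hn, fun k hk => by rw [hm' k hk, hn' k hk]⟩
  · refine ⟨m, ?_, ?_⟩
    · rw [← hn' m hmn]; exact hm
    · intro k hk; rw [hm' k hk, hn' k (hmn.trans hk)]

theorem mg_right_new {b : Blob G} {τ : Tok A G} (h : ¬ Mg π (.bl b) τ) :
    ∃ y ∈ τ.cov π, b.c * y ∉ b.C := by
  cases τ with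
  | lt a => exact ⟨π a, by simp [Tok.cov], h⟩
  | bl b' =>
    simp only [Mg, not_or, not_forall] at h
    obtain ⟨⟨x, hx, hx'⟩, _⟩ := h
    exact ⟨x, hx, hx'⟩

theorem mg_left_new {b : Blob G} {τ : Tok A G} (h : ¬ Mg π τ (.bl b)) :
    ∃ z ∈ τ.cov π, (τ.val π)⁻¹ * z ∉ b.C := by
  cases τ with
  | lt a => exact ⟨1, by simp [Tok.cov], by simpa [Mg, Tok.val] using h⟩
  | bl b' =>
    simp only [Mg, not_or, not_forall] at h
    obtain ⟨_, x, hx, hx'⟩ := h
    exact ⟨x, hx, hx'⟩

/-- in a normal word with at least two tokens every blob is strictly smaller than the cover -/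
theorem Nrm.card_lt {X Y : List (Tok A G)} {b : Blob G} (h : Nrm π (X ++ .bl b :: Y))
    (hne : X ≠ [] ∨ Y ≠ []) : b.C.card < (cov π (X ++ .bl b :: Y)).card := by
  have key : ∀ z, (val π X)⁻¹ * z ∉ b.C → z ∈ cov π (X ++ .bl b :: Y) →
      b.C.card < (cov π (X ++ .bl b :: Y)).card := by
    intro z hz1 hz2
    have hsub : insert z (b.C.image (val π X * ·)) ⊆ cov π (X ++ .bl b :: Y) := by
      intro w hw
      rcases Finset.mem_insert.1 hw with rfl | hw
      · exact hz2
      · obtain ⟨y, hy, rfl⟩ := Finset.mem_image.1 hw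
        rw [mem_cov_append]
        right
        exact ⟨y, by rw [mem_cov_cons]; left; exact hy, rfl⟩
    have hnot : z ∉ b.C.image (val π X * ·) := by
      intro hmem
      obtain ⟨y, hy, rfl⟩ := Finset.mem_image.1 hmem
      apply hz1
      simpa using hy
    have := Finset.card_le_card hsub
    rw [Finset.card_insert_of_notMem hnot,
      Finset.card_image_of_injective _ (mul_right_injective _)] at this
    omega
  have h' := List.isChain_append.1 h
  rcases hne with hX | hY
  · obtain ⟨X', τ, rfl⟩ : ∃ X' τ, X = X' ++ [τ] := ⟨X.dropLast, X.getLast hX, (List.dropLast_append_getLast hX).symm⟩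
    have hn : ¬ Mg π τ (.bl b) := h'.2.2 τ (by simp) (.bl b) (by simp)
    obtain ⟨z, hz, hz'⟩ := mg_left_new π hn
    apply key (val π X' * z)
    · rw [val_append]
      simpa [mul_assoc] using hz'
    · rw [List.append_assoc, mem_cov_append]
      right
      refine ⟨z, ?_, rfl⟩
      rw [List.singleton_append, mem_cov_cons]
      left; exact hz
  · obtain ⟨τ, Y', rfl⟩ := List.exists_cons_of_ne_nil hY
    have h2 := h'.2.1
    rw [List.isChain_cons] at h2
    have hn : ¬ Mg π (.bl b) τ := h2.1 τ (by simp)
    obtain ⟨y, hy, hy'⟩ := mg_right_new π hn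
    apply key (val π X * (b.c * y))
    · simpa using hy'
    · rw [mem_cov_append]
      right
      refine ⟨b.c * y, ?_, rfl⟩
      rw [mem_cov_cons]
      right
      refine ⟨y, ?_, rfl⟩
      rw [mem_cov_cons]
      left; exact hy

variable {N : ℕ → ℕ}

theorem card_cov_cons (τ : Tok A G) (s : List (Tok A G)) :
    (cov π s).card ≤ (cov π (τ :: s)).card := by
  have : ((cov π s).image (τ.val π * ·)).card = (cov π s).card :=
    Finset.card_image_of_injective _ (mul_right_injective _)
  rw [← this, cov_cons]
  exact Finset.card_le_card Finset.subset_union_right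

theorem card_cov_snoc (τ : Tok A G) (s : List (Tok A G)) :
    (cov π s).card ≤ (cov π (s ++ [τ])).card := by
  rw [cov_append]
  exact Finset.card_le_card Finset.subset_union_left

theorem GoodF.cons {τ : Tok A G} {s : List (Tok A G)} (h : GoodF π N s)
    (hc : (cov π (τ :: s)).card = (cov π s).card) : GoodF π N (τ :: s) := by
  obtain ⟨l, e, hN⟩ := h
  refine ⟨l.map (τ.val π * ·), ⟨[], l, TE_nil π τ, e, rfl⟩, ?_⟩
  rw [hc]
  exact NF_map (mul_right_injective _) hN

theorem GoodF.snoc {τ : Tok A G} {s : List (Tok A G)} (h : GoodF π N s)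
    (hc : (cov π (s ++ [τ])).card = (cov π s).card) : GoodF π N (s ++ [τ]) := by
  obtain ⟨l, e, hN⟩ := h
  refine ⟨l, ?_, ?_⟩
  · have := Emb_append π e (Emb_nil π [τ])
    simpa using this
  · rw [hc]; exact hN

/-- maximal extension of a good factor -/
theorem maxext : ∀ (n : ℕ) (X s Y : List (Tok A G)), X.length + Y.length = n → GoodF π N s →
    2 ≤ s.length →
    ∃ X' s' Y', X ++ s ++ Y = X' ++ s' ++ Y' ∧ GoodF π N s' ∧ s.length ≤ s'.length ∧
      nb s ≤ nb s' ∧
      (∀ X'' τ, X' = X'' ++ [τ] → (cov π (τ :: s')).card ≠ (cov π s').card) ∧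
      (∀ Y'' τ, Y' = τ :: Y'' → (cov π (s' ++ [τ])).card ≠ (cov π s').card) := by
  intro n
  induction n with
  | zero =>
    intro X s Y hn hg h2
    have hX : X = [] := List.length_eq_zero_iff.1 (by omega)
    have hY : Y = [] := List.length_eq_zero_iff.1 (by omega)
    subst hX; subst hY
    exact ⟨[], s, [], rfl, hg, le_rfl, le_rfl, by simp, by simp⟩
  | succ n ih =>
    intro X s Y hn hg h2
    by_cases hL : ∃ X'' τ, X = X'' ++ [τ] ∧ (cov π (τ :: s)).card = (cov π s).card
    · obtain ⟨X'', τ, rfl, hc⟩ := hL
      obtain ⟨X', s', Y', e1, e2, e3, e4, e5, e6⟩ := ih X'' (τ :: s) Y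
        (by simp at hn ⊢; omega) (GoodF.cons π hg hc) (by simp; omega)
      refine ⟨X', s', Y', by rw [← e1]; simp, e2, by simp at e3; omega, ?_, e5, e6⟩
      refine le_trans ?_ e4
      cases τ <;> simp
    · by_cases hR : ∃ Y'' τ, Y = τ :: Y'' ∧ (cov π (s ++ [τ])).card = (cov π s).card
      · obtain ⟨Y'', τ, rfl, hc⟩ := hR
        obtain ⟨X', s', Y', e1, e2, e3, e4, e5, e6⟩ := ih X (s ++ [τ]) Y''
          (by simp at hn ⊢; omega) (GoodF.snoc π hg hc) (by simp; omega)
        refine ⟨X', s', Y', by rw [← e1]; simp, e2, by simp at e3; omega, ?_, e5, e6⟩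
        refine le_trans ?_ e4
        rw [nb_append]; omega
      · push Not at hL hR
        exact ⟨X, s, Y, rfl, hg, le_rfl, le_rfl, hL, hR⟩

theorem kap_eq_zero {t : List (Tok A G)} {m : ℕ} (h : ∀ b, Tok.bl b ∈ t → b.C.card < m)
    {k : ℕ} (hk : m ≤ k) : kap t k = 0 := by
  induction t with
  | nil => rfl
  | cons τ t ih =>
    have ih' := ih (fun b hb => h b (List.mem_cons_of_mem _ hb))
    cases τ with
    | lt a => simpa using ih'
    | bl b =>
      have := h b (by simp)
      rw [kap_bl, ih', if_neg (by omega)]

/-- merging a good factor in a normal word: the measure increases -/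
theorem merge_step {W X t Y : List (Tok A G)} (hW : Nrm π W) (hWe : W = X ++ t ++ Y)
    (ht : GoodF π N t) (h2 : 2 ≤ t.length) :
    ∃ W2, Coarse π N W W2 ∧ Nrm π W2 ∧ KLt (kap W) (kap W2) ∧
      nb W2 + nb t ≤ nb W + 1 ∧ W2.length < W.length := by
  obtain ⟨X', s, Y', e1, e2, e3, e4, e5, e6⟩ := maxext π (N := N) _ X t Y rfl ht h2
  rw [e1] at hWe
  subst hWe
  have hs2 : 2 ≤ s.length := by omega
  refine ⟨X' ++ [.bl (blobOf π s)] ++ Y', ?_, ?_, ?_, ?_, ?_⟩
  · exact ((Coarse.refl π X').append π (Coarse.one π e2)).append π (Coarse.refl π Y')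
  · -- normality
    have h' := List.isChain_append.1 hW
    have h'' := List.isChain_append.1 h'.1
    rw [Nrm, List.isChain_append, List.isChain_append]
    obtain ⟨σ, s1, hs1⟩ : ∃ σ s1, s = σ :: s1 := by
      cases s with
      | nil => simp at hs2
      | cons σ s1 => exact ⟨σ, s1, rfl⟩
    obtain ⟨s0, ρ, hs0⟩ : ∃ s0 ρ, s = s0 ++ [ρ] := by
      have hne : s ≠ [] := by rintro rfl; simp at hs2
      exact ⟨s.dropLast, s.getLast hne, (List.dropLast_append_getLast hne).symm⟩
    refine ⟨⟨h''.1, List.isChain_singleton _, ?_⟩, h'.2.1, ?_⟩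
    · intro τ hτ y hy
      simp only [List.head?_cons, Option.mem_def, Option.some.injEq] at hy
      subst hy
      obtain ⟨X'', rfl⟩ : ∃ X'', X' = X'' ++ [τ] := by
        rcases List.eq_nil_or_concat X' with h | ⟨L, b, h⟩
        · subst h; simp at hτ
        · subst h
          simp only [List.concat_eq_append] at hτ ⊢
          simp only [List.getLast?_append, List.getLast?_singleton, Option.mem_def] at hτ
          simp at hτ
          exact ⟨L, by rw [hτ]⟩
      have hmax := e5 X'' τ rfl
      have hold : ¬ Mg π τ σ := h''.2.2 τ (by simp) σ (by rw [hs1]; simp)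
      intro hmg
      cases τ with
      | lt a =>
        apply hmax
        apply le_antisymm _ (card_cov_cons π _ _)
        have : cov π (Tok.lt a :: s) ⊆ (cov π s).image (π a * ·) := by
          intro x hx
          rw [Finset.mem_image]
          rcases (mem_cov_cons π).1 hx with hx | ⟨y, hy, rfl⟩
          · simp only [Tok.cov, Finset.mem_insert, Finset.mem_singleton] at hx
            rcases hx with rfl | rfl
            · exact ⟨(π a)⁻¹, hmg, by simp⟩
            · exact ⟨1, one_mem_cov π s, by simp⟩
          · exact ⟨y, hy, rfl⟩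
        refine (Finset.card_le_card this).trans ?_
        exact Finset.card_image_le
      | bl b =>
        rcases hmg with hmg | hmg
        · apply hold
          have hσ : ∀ x ∈ σ.cov π, b.c * x ∈ b.C := by
            intro x hx
            apply hmg
            change x ∈ cov π s
            rw [hs1, mem_cov_cons]; left; exact hx
          cases σ with
          | lt a => exact hσ (π a) (by simp [Tok.cov])
          | bl b' => left; exact hσ
        · apply hmax
          apply le_antisymm _ (card_cov_cons π _ _)
          have : cov π (Tok.bl b :: s) ⊆ (cov π s).image (b.c * ·) := by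
            intro x hx
            rw [Finset.mem_image]
            rcases (mem_cov_cons π).1 hx with hx | ⟨y, hy, rfl⟩
            · exact ⟨b.c⁻¹ * x, hmg x hx, by simp⟩
            · exact ⟨y, hy, rfl⟩
          refine (Finset.card_le_card this).trans ?_
          exact Finset.card_image_le
    · intro x hx τ hτ
      have hx' : x = Tok.bl (blobOf π s) := by
        simp at hx; exact hx.symm
      subst hx'
      obtain ⟨Y'', rfl⟩ : ∃ Y'', Y' = τ :: Y'' := by
        cases Y' with
        | nil => simp at hτ
        | cons y Y'' => simp at hτ; exact ⟨Y'', by rw [hτ]⟩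
      have hmax := e6 Y'' τ rfl
      have hold : ¬ Mg π ρ τ := h'.2.2 ρ (by rw [hs0]; simp) τ (by simp)
      intro hmg
      cases τ with
      | lt a =>
        apply hmax
        apply le_antisymm _ (card_cov_snoc π _ _)
        apply Finset.card_le_card
        intro x hx
        rcases (mem_cov_append π).1 hx with hx | ⟨y, hy, rfl⟩
        · exact hx
        · rcases (mem_cov_cons π).1 hy with hy | ⟨z, hz, rfl⟩
          · simp only [Tok.cov, Finset.mem_insert, Finset.mem_singleton] at hy
            rcases hy with rfl | rfl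
            · simpa using val_mem_cov π s
            · exact hmg
          · simp only [cov_nil, Finset.mem_singleton] at hz
            subst hz
            have hmg' : val π s * π a ∈ cov π s := hmg
            simpa [Tok.val] using hmg'
      | bl b' =>
        rcases hmg with hmg | hmg
        · apply hmax
          apply le_antisymm _ (card_cov_snoc π _ _)
          apply Finset.card_le_card
          intro x hx
          rcases (mem_cov_append π).1 hx with hx | ⟨y, hy, rfl⟩
          · exact hx
          · rw [cov_single_bl] at hy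
            exact hmg y hy
        · apply hold
          have hρ : ∀ z ∈ ρ.cov π, (ρ.val π)⁻¹ * z ∈ b'.C := by
            intro z hz
            have h1 : val π s0 * z ∈ cov π s := by
              rw [hs0, mem_cov_append]
              right
              exact ⟨z, by rw [mem_cov_cons]; left; exact hz, rfl⟩
            have h2 := hmg _ h1
            have h3 : (blobOf π s).c = val π s0 * ρ.val π := by
              change val π s = _
              rw [hs0, val_append]; simp
            rw [h3] at h2
            simpa [mul_assoc] using h2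
          cases ρ with
          | lt a =>
            have := hρ 1 (by simp [Tok.cov])
            simpa [Mg, Tok.val] using this
          | bl b => right; exact hρ
  · -- the measure
    have hblobs : ∀ b, Tok.bl b ∈ s → b.C.card < (cov π s).card := by
      intro b hb
      obtain ⟨U, V, rfl⟩ := List.append_of_mem hb
      have hns : Nrm π (U ++ .bl b :: V) := by
        have h' := List.isChain_append.1 hW
        exact (List.isChain_append.1 h'.1).2.1
      apply hns.card_lt
      by_contra hcon
      push Not at hcon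
      obtain ⟨rfl, rfl⟩ := hcon
      simp at hs2
    refine ⟨(cov π s).card, ?_, ?_⟩
    · simp only [kap_append, kap_bl, kap_nil]
      rw [kap_eq_zero hblobs le_rfl]
      simp [blobOf]
    · intro m' hm'
      simp only [kap_append, kap_bl, kap_nil]
      rw [kap_eq_zero hblobs hm'.le]
      have : ¬ (blobOf π s).C.card = m' := by
        change ¬ (cov π s).card = m'; omega
      rw [if_neg this]
  · simp only [nb_append, nb_bl, nb_nil]; omega
  · simp only [List.length_append, List.length_cons, List.length_nil]; omega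

end normal

end Pool.Agent.Dec56
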