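import Pool.Agent.Lib_helper56.Dec.Normal

/-!
Ramsey type lemma: long words contain good factors.
-/

set_option autoImplicit false
set_option linter.unusedSectionVars false

namespace Pool.Agent.Dec56

section ramsey

variable {A G : Type*} [Group G] [DecidableEq G] (π : A → G)

theorem ext_emb {τ : Tok A G} {t : List (Tok A G)} :
    ∀ {l : List G} {y : G}, Emb π (τ :: t) l → (∃ z ∈ cov π t, τ.val π * z = y) →
      ∃ l', Emb π (τ :: t) l' ∧ l.Sublist l' ∧ y ∈ l' := by
  induction t generalizing τ with
  | nil =>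
    rintro l y ⟨l0, l1, h0, h1, rfl⟩ ⟨z, hz, rfl⟩
    rw [cov_nil, Finset.mem_singleton] at hz
    subst hz
    cases (show l1 = [] from h1)
    cases τ with
    | lt a =>
      refine ⟨[π a], ⟨[π a], [], Or.inr rfl, rfl, rfl⟩, ?_, by simp [Tok.val]⟩
      rcases h0 with rfl | rfl <;> simp
    | bl b =>
      refine ⟨l0 ++ [b.c], ⟨l0 ++ [b.c], [], ?_, rfl, by simp⟩, ?_, by simp [Tok.val]⟩
      · intro x hx
        rcases List.mem_append.1 hx with hx | hx
        · exact h0 x hx
        · rw [List.mem_singleton] at hx; subst hx; exact b.mem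
      · simp
  | cons σ t ih =>
    rintro l y ⟨l0, l1, h0, h1, rfl⟩ ⟨z, hz, rfl⟩
    have main : (z = 1) ∨ ∃ l', Emb π (σ :: t) l' ∧ l1.Sublist l' ∧ z ∈ l' := by
      rw [mem_cov_cons] at hz
      rcases hz with hz | hz
      · cases σ with
        | lt a =>
          simp only [Tok.cov, Finset.mem_insert, Finset.mem_singleton] at hz
          rcases hz with rfl | rfl
          · left; rfl
          · right
            apply ih h1
            exact ⟨1, one_mem_cov π t, by simp [Tok.val]⟩
        | bl b =>
          right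
          obtain ⟨k0, k1, e0, e1, rfl⟩ := h1
          refine ⟨(k0 ++ [z]) ++ k1.map ((Tok.bl b : Tok A G).val π * ·),
            ⟨k0 ++ [z], k1, ?_, e1, rfl⟩, ?_, by simp⟩
          · intro x hx
            rcases List.mem_append.1 hx with hx | hx
            · exact e0 x hx
            · rw [List.mem_singleton] at hx; subst hx; exact hz
          · apply List.Sublist.append_right
            simp
      · right
        exact ih h1 hz
    rcases main with rfl | ⟨l', e', s', m'⟩
    · cases τ with
      | lt a =>
        refine ⟨[π a] ++ l1.map ((Tok.lt a : Tok A G).val π * ·),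
          ⟨[π a], l1, Or.inr rfl, h1, rfl⟩, ?_, by simp [Tok.val]⟩
        rcases h0 with rfl | rfl <;> simp
      | bl b =>
        refine ⟨(l0 ++ [b.c]) ++ l1.map ((Tok.bl b : Tok A G).val π * ·),
          ⟨l0 ++ [b.c], l1, ?_, h1, rfl⟩, ?_, by simp [Tok.val]⟩
        · intro x hx
          rcases List.mem_append.1 hx with hx | hx
          · exact h0 x hx
          · rw [List.mem_singleton] at hx; subst hx; exact b.mem
        · apply List.Sublist.append_right
          simp
    · refine ⟨l0 ++ l'.map (τ.val π * ·), ⟨l0, l', h0, e', rfl⟩, ?_, ?_⟩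
      · exact List.Sublist.append_left (s'.map _) _
      · rw [List.mem_append]; right; exact List.mem_map.2 ⟨z, m', rfl⟩

theorem P_of_NF3 {j : ℕ} {l : List G} (h : NF j 3 l) (hc : j + 1 ≤ l.toFinset.card) :
    P (j + 1) l := by
  obtain ⟨l1, k1, rfl, p1, l2, k2, rfl, p2, l3, k3, rfl, p3, _⟩ := h
  exact ⟨hc, l1, l2, l3 ++ k3, by simp, p1, p2, P_mono p3 (List.sublist_append_left _ _)⟩

theorem split_count {α : Type*} (p : α → Bool) : ∀ (t : List α) (a : ℕ), a ≤ t.countP p →
    ∃ t1 t2, t = t1 ++ t2 ∧ t1.countP p = a := by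
  intro t
  induction t with
  | nil => intro a ha; exact ⟨[], [], rfl, by simpa using (Nat.le_zero.1 ha).symm⟩
  | cons x t ih =>
    intro a ha
    cases a with
    | zero => exact ⟨[], x :: t, rfl, rfl⟩
    | succ a =>
      by_cases hx : p x
      · rw [List.countP_cons_of_pos hx] at ha
        obtain ⟨t1, t2, rfl, h⟩ := ih a (by omega)
        exact ⟨x :: t1, t2, rfl, by rw [List.countP_cons_of_pos hx, h]⟩
      · rw [List.countP_cons_of_neg hx] at ha
        obtain ⟨t1, t2, rfl, h⟩ := ih (a + 1) ha
        exact ⟨x :: t1, t2, rfl, by rw [List.countP_cons_of_neg hx, h]⟩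

variable {N : ℕ → ℕ}

/-- there is a good factor with two special tokens -/
def HasGood (N : ℕ → ℕ) (sp : Tok A G → Bool) (t : List (Tok A G)) : Prop :=
  ∃ X f Y, t = X ++ f ++ Y ∧ GoodF π N f ∧ 2 ≤ f.countP sp

theorem HasGood.left {sp : Tok A G → Bool} {s t : List (Tok A G)} (h : HasGood π N sp s) :
    HasGood π N sp (s ++ t) := by
  obtain ⟨X, f, Y, rfl, h1, h2⟩ := h
  exact ⟨X, f, Y ++ t, by simp, h1, h2⟩

theorem HasGood.right {sp : Tok A G → Bool} {s t : List (Tok A G)} (h : HasGood π N sp t) :
    HasGood π N sp (s ++ t) := by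
  obtain ⟨X, f, Y, rfl, h1, h2⟩ := h
  exact ⟨s ++ X, f, Y, by simp, h1, h2⟩

theorem multi {sp : Tok A G → Bool} {j K : ℕ}
    (hK : ∀ t : List (Tok A G), K ≤ t.countP sp → HasGood π N sp t ∨ ∃ l, Emb π t l ∧ P j l) :
    ∀ (M : ℕ) (t : List (Tok A G)), M * K ≤ t.countP sp →
      HasGood π N sp t ∨ ∃ l, Emb π t l ∧ NF j M l := by
  intro M
  induction M with
  | zero => intro t _; right; exact ⟨[], Emb_nil π t, trivial⟩
  | succ M ih =>
    intro t ht
    rw [Nat.succ_mul] at ht
    obtain ⟨t1, t2, rfl, h1⟩ := split_count sp t K (by omega)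
    rw [List.countP_append] at ht
    rcases hK t1 (by omega) with h | ⟨l1, e1, p1⟩
    · left; exact h.left π
    · rcases ih t2 (by omega) with h | ⟨l2, e2, p2⟩
      · left; exact h.right π
      · right
        refine ⟨_, Emb_append π e1 e2, l1, _, rfl, p1, NF_map (mul_right_injective _) p2⟩

theorem ramsey_aux (hN : ∀ m, 3 ≤ N m) (sp : Tok A G → Bool) (j : ℕ) :
    ∃ K, 0 < K ∧ ∀ t : List (Tok A G), K ≤ t.countP sp →
      HasGood π N sp t ∨ ∃ l, Emb π t l ∧ P (j + 1) l := by
  induction j with
  | zero =>
    refine ⟨1, one_pos, ?_⟩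
    intro t ht
    right
    cases t with
    | nil => simp at ht
    | cons τ t =>
      obtain ⟨l', e', _, m'⟩ := ext_emb π (Emb_nil π (τ :: t)) ⟨1, one_mem_cov π t, rfl⟩
      refine ⟨l', e', ?_, [], [], l', by simp, trivial, trivial, trivial⟩
      exact Finset.card_pos.2 ⟨_, List.mem_toFinset.2 m'⟩
  | succ j ih =>
    obtain ⟨K, hKpos, hK⟩ := ih
    refine ⟨(N (j + 1) + 1) * K, by positivity, ?_⟩
    intro t ht
    rw [Nat.succ_mul] at ht
    obtain ⟨t0, t', rfl, h0⟩ := split_count sp t K (by omega)
    rw [List.countP_append] at ht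
    rcases hK t0 (by omega) with h | ⟨l0, e0, p0⟩
    · left; exact h.left π
    rcases multi π hK (N (j + 1)) t' (by omega) with h | ⟨l', e', p'⟩
    · left; exact h.right π
    cases t0 with
    | nil => simp at h0; omega
    | cons τ t1 =>
      by_cases hc : (cov π (t1 ++ t')).card ≤ j + 1
      · left
        refine ⟨[τ], t1 ++ t', [], by simp, ?_, ?_⟩
        · refine ⟨_, Emb_append π (Emb_nil π t1) e', ?_⟩
          have hge : j + 1 ≤ (cov π (t1 ++ t')).card := by
            have h1 : NF (j + 1) (N (j + 1)) (l'.map (val π t1 * ·)) :=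
              NF_map (mul_right_injective _) p'
            have h2 := NF_card (by have := hN (j + 1); omega) h1
            refine h2.trans (Finset.card_le_card ?_)
            intro x hx
            rw [List.mem_toFinset] at hx
            have := Emb_mem_cov π (Emb_append π (Emb_nil π t1) e') (x := x) (by simpa using hx)
            exact this
          rw [le_antisymm hc hge]
          rw [List.nil_append]
          exact NF_map (mul_right_injective _) p'
        · rw [List.countP_append]
          have h3 := hN (j + 1)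
          have : 3 * K ≤ N (j + 1) * K := Nat.mul_le_mul_right _ h3
          omega
      · push Not at hc
        right
        have e : Emb π (τ :: t1 ++ t') (l0 ++ l'.map (val π (τ :: t1) * ·)) :=
          Emb_append π e0 e'
        have hNF : NF (j + 1) (N (j + 1) + 1) (l0 ++ l'.map (val π (τ :: t1) * ·)) :=
          ⟨l0, _, rfl, p0, NF_map (mul_right_injective _) p'⟩
        by_cases hbig : j + 1 + 1 ≤ (l0 ++ l'.map (val π (τ :: t1) * ·)).toFinset.card
        · exact ⟨_, e, P_of_NF3 (NF_le (by have := hN (j + 1); omega) hNF) hbig⟩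
        · have : ∃ y ∈ (cov π (t1 ++ t')).image (τ.val π * ·),
              y ∉ (l0 ++ l'.map (val π (τ :: t1) * ·)).toFinset := by
            by_contra hcon
            push Not at hcon
            have := Finset.card_le_card (show (cov π (t1 ++ t')).image (τ.val π * ·) ⊆ _ from hcon)
            rw [Finset.card_image_of_injective _ (mul_right_injective _)] at this
            omega
          obtain ⟨y, hy, hny⟩ := this
          rw [Finset.mem_image] at hy
          obtain ⟨l2, e2, s2, m2⟩ := ext_emb π (τ := τ) (t := t1 ++ t') e hy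
          refine ⟨l2, e2, P_of_NF3 (NF_mono (NF_le (by have := hN (j + 1); omega) hNF) s2) ?_⟩
          have hsub : insert y (l0 ++ l'.map (val π (τ :: t1) * ·)).toFinset ⊆ l2.toFinset := by
            intro z hz
            rw [List.mem_toFinset]
            rcases Finset.mem_insert.1 hz with rfl | hz
            · exact m2
            · exact s2.subset (List.mem_toFinset.1 hz)
          have h4 := Finset.card_le_card hsub
          rw [Finset.card_insert_of_notMem hny] at h4
          have h5 := NF_card (by omega) hNF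
          omega

theorem ramsey [Fintype G] (hN : ∀ m, 3 ≤ N m) (sp : Tok A G → Bool) :
    ∃ K, ∀ t : List (Tok A G), K ≤ t.countP sp → HasGood π N sp t := by
  obtain ⟨K, _, hK⟩ := ramsey_aux π hN sp (Fintype.card G)
  refine ⟨K, fun t ht => ?_⟩
  rcases hK t ht with h | ⟨l, _, p⟩
  · exact h
  · exfalso
    have h1 := P_card p
    have h2 : l.toFinset.card ≤ Fintype.card G := Finset.card_le_univ _
    omega

/-- bounded number of blobs after merging -/
theorem restructure [Fintype G] (hN : Adm (Fintype.card G) N) :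
    ∃ B, ∀ W : List (Tok A G), Nrm π W → ∃ W2, Coarse π N W W2 ∧ Nrm π W2 ∧
      (kap W2 = kap W ∨ KLt (kap W) (kap W2)) ∧ nb W2 ≤ B := by
  obtain ⟨K, hK⟩ := ramsey π hN.1 (isBl (A := A) (G := G))
  refine ⟨K, ?_⟩
  have main : ∀ n (W : List (Tok A G)), nb W = n → Nrm π W → ∃ W2, Coarse π N W W2 ∧ Nrm π W2 ∧
      (kap W2 = kap W ∨ KLt (kap W) (kap W2)) ∧ nb W2 ≤ K := by
    intro n
    induction n using Nat.strong_induction_on with
    | _ n ih =>
      intro W hn hW
      by_cases hle : nb W ≤ K
      · exact ⟨W, Coarse.refl π W, hW, Or.inl rfl, hle⟩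
      · obtain ⟨X, f, Y, e, hf, h2⟩ := hK W (by unfold nb at hle; omega)
        have h2' : 2 ≤ nb f := h2
        obtain ⟨W1, c1, n1, k1, b1, _⟩ := merge_step π hW e hf
          (h2.trans (List.countP_le_length))
        obtain ⟨W2, c2, n2, k2, b2⟩ := ih (nb W1) (by omega) W1 rfl n1
        refine ⟨W2, c2.trans π hN c1, n2, Or.inr ?_, b2⟩
        rcases k2 with k2 | k2
        · rw [k2]; exact k1
        · exact k1.trans k2
  intro W hW
  exact main _ W rfl hW

/-- bounded length after merging -/
theorem shorten [Fintype G] (hN : Adm (Fintype.card G) N) :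
    ∃ B, ∀ W : List (Tok A G), Nrm π W → ∃ W2, Coarse π N W W2 ∧ Nrm π W2 ∧
      W2.length ≤ B := by
  obtain ⟨K, hK⟩ := ramsey π hN.1 (fun _ : Tok A G => true)
  refine ⟨K, ?_⟩
  have main : ∀ n (W : List (Tok A G)), W.length = n → Nrm π W → ∃ W2, Coarse π N W W2 ∧
      Nrm π W2 ∧ W2.length ≤ K := by
    intro n
    induction n using Nat.strong_induction_on with
    | _ n ih =>
      intro W hn hW
      by_cases hle : W.length ≤ K
      · exact ⟨W, Coarse.refl π W, hW, hle⟩
      · obtain ⟨X, f, Y, e, hf, h2⟩ := hK W (by rw [List.countP_true]; omega)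
        rw [List.countP_true] at h2
        obtain ⟨W1, c1, n1, _, _, l1⟩ := merge_step π hW e hf h2
        obtain ⟨W2, c2, n2, b2⟩ := ih W1.length (by omega) W1 rfl n1
        exact ⟨W2, c2.trans π hN c1, n2, b2⟩
  intro W hW
  exact main _ W rfl hW

end ramsey

end Pool.Agent.Dec56
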