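import Mathlib

/-!
Rich lists: the combinatorial core (robust repetition) used for the decomposability theorem.
-/

set_option autoImplicit false
set_option linter.unusedSectionVars false

namespace Pool.Agent.Dec56

section rich

variable {G : Type*} [DecidableEq G]

/-- `P m l`: the list `l` is `m`-rich. -/
def P : ℕ → List G → Prop
  | 0, _ => True
  | m + 1, l => m + 1 ≤ l.toFinset.card ∧
      ∃ l1 l2 l3, l = l1 ++ l2 ++ l3 ∧ P m l1 ∧ P m l2 ∧ P m l3

theorem P_card {m : ℕ} {l : List G} (h : P m l) : m ≤ l.toFinset.card := by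
  cases m with
  | zero => exact Nat.zero_le _
  | succ m => exact h.1

theorem P_mono {m : ℕ} : ∀ {l l' : List G}, P m l → l.Sublist l' → P m l' := by
  induction m with
  | zero => intro l l' _ _; trivial
  | succ m ih =>
    intro l l' h hs
    obtain ⟨hc, l1, l2, l3, rfl, h1, h2, h3⟩ := h
    refine ⟨hc.trans (Finset.card_le_card ?_), ?_⟩
    · intro x hx
      rw [List.mem_toFinset] at hx ⊢
      exact hs.subset hx
    · obtain ⟨r12, r3, rfl, h12, h3'⟩ := List.append_sublist_iff.1 hs
      obtain ⟨r1, r2, rfl, h1', h2'⟩ := List.append_sublist_iff.1 h12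
      exact ⟨r1, r2, r3, rfl, ih h1 h1', ih h2 h2', ih h3 h3'⟩

theorem P_map {H : Type*} [DecidableEq H] {f : G → H} (hf : Function.Injective f) {m : ℕ} :
    ∀ {l : List G}, P m l → P m (l.map f) := by
  induction m with
  | zero => intro l _; trivial
  | succ m ih =>
    intro l h
    obtain ⟨hc, l1, l2, l3, rfl, h1, h2, h3⟩ := h
    refine ⟨?_, l1.map f, l2.map f, l3.map f, by simp, ih h1, ih h2, ih h3⟩
    have : (List.map f (l1 ++ l2 ++ l3)).toFinset = (l1 ++ l2 ++ l3).toFinset.image f := by
      ext x; simp only [List.mem_toFinset, List.mem_map, Finset.mem_image]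
    rw [this, Finset.card_image_of_injective _ hf]
    exact hc

theorem card_toFinset_le_of_subset {l l' : List G} (h : ∀ x ∈ l, x ∈ l') :
    l.toFinset.card ≤ l'.toFinset.card := by
  apply Finset.card_le_card
  intro x hx
  rw [List.mem_toFinset] at hx ⊢
  exact h x hx

/-- the duplication lemma -/
theorem P_dup {h : G → G} (hh : Function.Injective h) {m : ℕ} :
    ∀ {l : List G} {x : G}, P m l → x ∈ l →
      ∃ α β, l = α ++ x :: β ∧ P m (α ++ x :: (x :: β).map h) := by
  induction m with
  | zero =>
    intro l x _ hx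
    obtain ⟨α, β, rfl⟩ := List.append_of_mem hx
    exact ⟨α, β, rfl, trivial⟩
  | succ m ih =>
    intro l x hP hx
    obtain ⟨hc, l1, l2, l3, rfl, h1, h2, h3⟩ := hP
    have c1 := P_card h1
    have c2 := P_card h2
    have c3 := P_card h3
    have H2 : P m (l2.map h) := P_map hh h2
    have H3 : P m (l3.map h) := P_map hh h3
    -- cut in block 1
    have cut1 : x ∈ l1 →
        (∀ (L : List G), (∀ y ∈ l2 ++ l3, h y ∈ L) → x ∈ L → h x ∈ L → m + 1 ≤ L.toFinset.card) →
        ∃ α β, l1 ++ l2 ++ l3 = α ++ x :: β ∧ P (m + 1) (α ++ x :: (x :: β).map h) := by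
      intro hx1 hcard
      obtain ⟨α, β, rfl, hP⟩ := ih h1 hx1
      refine ⟨α, β ++ l2 ++ l3, by simp, ?_, α ++ x :: (x :: β).map h, l2.map h, l3.map h,
        by simp, hP, H2, H3⟩
      apply hcard
      · intro y hy
        simp only [List.mem_append, List.mem_cons, List.mem_map] at hy ⊢
        rcases hy with hy | hy
        · right; right; exact ⟨y, by tauto, rfl⟩
        · right; right; exact ⟨y, by tauto, rfl⟩
      · simp
      · simp
    have cut3 : x ∈ l3 →
        (∀ (L : List G), (∀ y ∈ l1 ++ l2, y ∈ L) → x ∈ L → m + 1 ≤ L.toFinset.card) →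
        ∃ α β, l1 ++ l2 ++ l3 = α ++ x :: β ∧ P (m + 1) (α ++ x :: (x :: β).map h) := by
      intro hx3 hcard
      obtain ⟨α, β, rfl, hP⟩ := ih h3 hx3
      refine ⟨l1 ++ l2 ++ α, β, by simp, ?_, l1, l2, α ++ x :: (x :: β).map h,
        by simp, h1, h2, hP⟩
      apply hcard
      · intro y hy
        simp only [List.mem_append, List.mem_cons, List.mem_map] at hy ⊢
        tauto
      · simp
    by_cases hx1 : x ∈ l1
    · by_cases hbig : m + 1 ≤ (l2 ++ l3).toFinset.card
      · apply cut1 hx1
        intro L hL _ _
        calc m + 1 ≤ (l2 ++ l3).toFinset.card := hbig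
          _ = ((l2 ++ l3).toFinset.image h).card := (Finset.card_image_of_injective _ hh).symm
          _ ≤ L.toFinset.card := by
            apply Finset.card_le_card
            intro z hz
            rw [Finset.mem_image] at hz
            obtain ⟨y, hy, rfl⟩ := hz
            rw [List.mem_toFinset] at hy ⊢
            exact hL y hy
      · by_cases hx23 : x ∈ l2 ++ l3
        · -- then x ∈ l3 since both cover the same set
          have e2 : l2.toFinset ⊆ (l2 ++ l3).toFinset := by
            intro z hz; simp only [List.mem_toFinset, List.mem_append] at hz ⊢; tauto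
          have e3 : l3.toFinset ⊆ (l2 ++ l3).toFinset := by
            intro z hz; simp only [List.mem_toFinset, List.mem_append] at hz ⊢; tauto
          have E2 : l2.toFinset = (l2 ++ l3).toFinset :=
            Finset.eq_of_subset_of_card_le e2 (by omega)
          have E3 : l3.toFinset = (l2 ++ l3).toFinset :=
            Finset.eq_of_subset_of_card_le e3 (by omega)
          have hx3 : x ∈ l3 := by
            rw [← List.mem_toFinset, E3, List.mem_toFinset]; exact hx23
          apply cut3 hx3
          intro L hL _
          refine hc.trans (card_toFinset_le_of_subset ?_)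
          intro y hy
          rw [List.mem_append] at hy
          rcases hy with hy | hy
          · exact hL y hy
          · apply hL
            rw [List.mem_append]
            right
            rw [← List.mem_toFinset, E2, ← E3, List.mem_toFinset]
            exact hy
        · apply cut1 hx1
          intro L hL _ hhx
          have hsub : insert (h x) ((l2 ++ l3).toFinset.image h) ⊆ L.toFinset := by
            intro z hz
            rw [Finset.mem_insert, Finset.mem_image] at hz
            rw [List.mem_toFinset]
            rcases hz with rfl | ⟨y, hy, rfl⟩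
            · exact hhx
            · rw [List.mem_toFinset] at hy
              exact hL y hy
          have hnot : h x ∉ (l2 ++ l3).toFinset.image h := by
            rw [Finset.mem_image]
            rintro ⟨y, hy, he⟩
            rw [List.mem_toFinset] at hy
            rw [hh he] at hy
            exact hx23 hy
          have := Finset.card_le_card hsub
          rw [Finset.card_insert_of_notMem hnot, Finset.card_image_of_injective _ hh] at this
          have : l2.toFinset.card ≤ (l2 ++ l3).toFinset.card :=
            card_toFinset_le_of_subset (by intro y hy; simp [hy])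
          omega
    · by_cases hx3 : x ∈ l3
      · apply cut3 hx3
        intro L hL hxL
        by_cases hxL2 : x ∈ l1 ++ l2
        · -- then card (l1 ++ l2) ≥ m+1
          have hsub : insert x l1.toFinset ⊆ L.toFinset := by
            intro z hz
            rw [Finset.mem_insert] at hz
            rw [List.mem_toFinset]
            rcases hz with rfl | hz
            · exact hxL
            · rw [List.mem_toFinset] at hz
              exact hL z (by simp [hz])
          have hnot : x ∉ l1.toFinset := by rw [List.mem_toFinset]; exact hx1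
          have := Finset.card_le_card hsub
          rw [Finset.card_insert_of_notMem hnot] at this
          omega
        · have hsub : insert x (l1 ++ l2).toFinset ⊆ L.toFinset := by
            intro z hz
            rw [Finset.mem_insert] at hz
            rw [List.mem_toFinset]
            rcases hz with rfl | hz
            · exact hxL
            · rw [List.mem_toFinset] at hz
              exact hL z hz
          have hnot : x ∉ (l1 ++ l2).toFinset := by rw [List.mem_toFinset]; exact hxL2
          have := Finset.card_le_card hsub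
          rw [Finset.card_insert_of_notMem hnot] at this
          have : l1.toFinset.card ≤ (l1 ++ l2).toFinset.card :=
            card_toFinset_le_of_subset (by intro y hy; simp [hy])
          omega
      · have hx2 : x ∈ l2 := by
          simp only [List.mem_append] at hx
          tauto
        obtain ⟨α, β, rfl, hP⟩ := ih h2 hx2
        refine ⟨l1 ++ α, β ++ l3, by simp, ?_, l1, α ++ x :: (x :: β).map h, l3.map h,
          by simp, h1, hP, H3⟩
        have hsub : insert x l1.toFinset ⊆
            (l1 ++ α ++ x :: (x :: (β ++ l3)).map h).toFinset := by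
          intro z hz
          rw [Finset.mem_insert] at hz
          rw [List.mem_toFinset]
          rcases hz with rfl | hz
          · simp
          · rw [List.mem_toFinset] at hz
            simp [hz]
        have hnot : x ∉ l1.toFinset := by rw [List.mem_toFinset]; exact hx1
        have := Finset.card_le_card hsub
        rw [Finset.card_insert_of_notMem hnot] at this
        omega

omit [DecidableEq G] in
theorem exists_superlist {l' l : List G} (h : l'.Sublist l) {y : G} (hy : y ∈ l) :
    ∃ l'', l'.Sublist l'' ∧ l''.Sublist l ∧ y ∈ l'' ∧ l''.length ≤ l'.length + 1 := by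
  induction h with
  | slnil => simp at hy
  | @cons l₁ l₂ a hs ih =>
    rcases List.mem_cons.1 hy with rfl | hy
    · exact ⟨y :: l₁, List.sublist_cons_self _ _, hs.cons_cons y, by simp, by simp⟩
    · obtain ⟨l'', h1, h2, h3, h4⟩ := ih hy
      exact ⟨l'', h1, h2.cons a, h3, h4⟩
  | @cons_cons l₁ l₂ a hs ih =>
    rcases List.mem_cons.1 hy with rfl | hy
    · exact ⟨y :: l₁, List.Sublist.refl _, hs.cons_cons y, by simp, by simp⟩
    · obtain ⟨l'', h1, h2, h3, h4⟩ := ih hy
      exact ⟨a :: l'', h1.cons_cons a, h2.cons_cons a, by simp [h3], by simp; omega⟩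

/-- bound for the length of a minimal `m`-rich list -/
def pb : ℕ → ℕ
  | 0 => 0
  | m + 1 => 3 * pb m + 1

theorem pb_mono {m n : ℕ} (h : m ≤ n) : pb m ≤ pb n := by
  induction h with
  | refl => exact le_rfl
  | step h ih => simp only [pb]; omega

theorem P_bound {m : ℕ} : ∀ {l : List G}, P m l →
    ∃ l', l'.Sublist l ∧ P m l' ∧ l'.length ≤ pb m := by
  induction m with
  | zero => intro l _; exact ⟨[], by simp, trivial, by simp⟩
  | succ m ih =>
    intro l h
    obtain ⟨hc, l1, l2, l3, rfl, h1, h2, h3⟩ := h
    obtain ⟨k1, s1, p1, b1⟩ := ih h1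
    obtain ⟨k2, s2, p2, b2⟩ := ih h2
    obtain ⟨k3, s3, p3, b3⟩ := ih h3
    have ss : (k1 ++ k2 ++ k3).Sublist (l1 ++ l2 ++ l3) := (s1.append s2).append s3
    by_cases hbig : m + 1 ≤ (k1 ++ k2 ++ k3).toFinset.card
    · refine ⟨k1 ++ k2 ++ k3, ss, ⟨hbig, k1, k2, k3, rfl, p1, p2, p3⟩, ?_⟩
      simp only [List.length_append, pb]; omega
    · have : ∃ y ∈ l1 ++ l2 ++ l3, y ∉ k1 ++ k2 ++ k3 := by
        by_contra hcon
        push Not at hcon
        exact hbig (hc.trans (card_toFinset_le_of_subset hcon))
      obtain ⟨y, hy, hny⟩ := this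
      obtain ⟨k, t1, t2, t3, t4⟩ := exists_superlist ss hy
      refine ⟨k, t2, ⟨?_, ?_⟩, ?_⟩
      · have hsub : insert y (k1 ++ k2 ++ k3).toFinset ⊆ k.toFinset := by
          intro z hz
          rw [Finset.mem_insert] at hz
          rw [List.mem_toFinset]
          rcases hz with rfl | hz
          · exact t3
          · rw [List.mem_toFinset] at hz
            exact t1.subset hz
        have hnot : y ∉ (k1 ++ k2 ++ k3).toFinset := by rw [List.mem_toFinset]; exact hny
        have := Finset.card_le_card hsub
        rw [Finset.card_insert_of_notMem hnot] at this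
        have h4 : k1.toFinset.card ≤ (k1 ++ k2 ++ k3).toFinset.card :=
          card_toFinset_le_of_subset (by intro y hy; simp [hy])
        have h5 := P_card p1
        omega
      · obtain ⟨r12, r3, rfl, h12, h3'⟩ := List.append_sublist_iff.1 t1
        obtain ⟨r1, r2, rfl, h1', h2'⟩ := List.append_sublist_iff.1 h12
        exact ⟨r1, r2, r3, rfl, P_mono p1 h1', P_mono p2 h2', P_mono p3 h3'⟩
      · simp only [List.length_append, pb] at *; omega

theorem P_exists (C : Finset G) : ∀ m, m ≤ C.card → ∃ l : List G, (∀ x ∈ l, x ∈ C) ∧ P m l := by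
  intro m
  induction m with
  | zero => intro _; exact ⟨[], by simp, trivial⟩
  | succ m ih =>
    intro hm
    obtain ⟨l, hl, hP⟩ := ih (by omega)
    refine ⟨l ++ l ++ (l ++ C.toList), ?_, ?_, l, l, l ++ C.toList, rfl, hP, hP,
      P_mono hP (List.sublist_append_left _ _)⟩
    · intro x hx
      simp only [List.mem_append, Finset.mem_toList] at hx
      rcases hx with (hx | hx) | hx | hx
      · exact hl x hx
      · exact hl x hx
      · exact hl x hx
      · exact hx
    · refine hm.trans ?_
      apply Finset.card_le_card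
      intro x hx
      simp [hx]

/-- `NF m K l`: `l` contains `K` consecutive `m`-rich blocks. -/
def NF (m : ℕ) : ℕ → List G → Prop
  | 0, _ => True
  | K + 1, l => ∃ l1 l2, l = l1 ++ l2 ∧ P m l1 ∧ NF m K l2

theorem NF_mono {m : ℕ} : ∀ {K : ℕ} {l l' : List G}, NF m K l → l.Sublist l' → NF m K l' := by
  intro K
  induction K with
  | zero => intro l l' _ _; trivial
  | succ K ih =>
    intro l l' h hs
    obtain ⟨l1, l2, rfl, h1, h2⟩ := h
    obtain ⟨r1, r2, rfl, h1', h2'⟩ := List.append_sublist_iff.1 hs
    exact ⟨r1, r2, rfl, P_mono h1 h1', ih h2 h2'⟩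

theorem NF_map {H : Type*} [DecidableEq H] {f : G → H} (hf : Function.Injective f) {m : ℕ} :
    ∀ {K : ℕ} {l : List G}, NF m K l → NF m K (l.map f) := by
  intro K
  induction K with
  | zero => intro l _; trivial
  | succ K ih =>
    intro l h
    obtain ⟨l1, l2, rfl, h1, h2⟩ := h
    exact ⟨l1.map f, l2.map f, by simp, P_map hf h1, ih h2⟩

theorem NF_append {m a b : ℕ} : ∀ {l1 l2 : List G}, NF m a l1 → NF m b l2 →
    NF m (a + b) (l1 ++ l2) := by
  induction a with
  | zero =>
    intro l1 l2 _ h2
    rw [Nat.zero_add]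
    exact NF_mono h2 (List.sublist_append_right _ _)
  | succ a ih =>
    intro l1 l2 h1 h2
    obtain ⟨k1, k2, rfl, p1, p2⟩ := h1
    rw [Nat.succ_add]
    exact ⟨k1, k2 ++ l2, by simp, p1, ih p2 h2⟩

theorem NF_split {m a b : ℕ} : ∀ {l : List G}, NF m (a + b) l →
    ∃ l1 l2, l = l1 ++ l2 ∧ NF m a l1 ∧ NF m b l2 := by
  induction a with
  | zero =>
    intro l h
    rw [Nat.zero_add] at h
    exact ⟨[], l, rfl, trivial, h⟩
  | succ a ih =>
    intro l h
    rw [Nat.succ_add] at h
    obtain ⟨k1, k2, rfl, p1, p2⟩ := h
    obtain ⟨l1, l2, rfl, q1, q2⟩ := ih p2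
    exact ⟨k1 ++ l1, l2, by simp, ⟨k1, l1, rfl, p1, q1⟩, q2⟩

theorem NF_le {m a b : ℕ} (hab : a ≤ b) {l : List G} (h : NF m b l) : NF m a l := by
  obtain ⟨c, rfl⟩ := Nat.exists_eq_add_of_le hab
  obtain ⟨l1, l2, rfl, q1, _⟩ := NF_split h
  exact NF_mono q1 (List.sublist_append_left _ _)

theorem NF_bound {m : ℕ} : ∀ {K : ℕ} {l : List G}, NF m K l →
    ∃ l', l'.Sublist l ∧ NF m K l' ∧ l'.length ≤ K * pb m := by
  intro K
  induction K with
  | zero => intro l _; exact ⟨[], by simp, trivial, by simp⟩
  | succ K ih =>
    intro l h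
    obtain ⟨l1, l2, rfl, h1, h2⟩ := h
    obtain ⟨k1, s1, p1, b1⟩ := P_bound h1
    obtain ⟨k2, s2, p2, b2⟩ := ih h2
    refine ⟨k1 ++ k2, s1.append s2, ⟨k1, k2, rfl, p1, p2⟩, ?_⟩
    rw [List.length_append, Nat.succ_mul]
    omega

theorem NF_exists (C : Finset G) (m : ℕ) (hm : m ≤ C.card) :
    ∀ K, ∃ l : List G, (∀ x ∈ l, x ∈ C) ∧ NF m K l := by
  intro K
  obtain ⟨l0, hl0, hP0⟩ := P_exists C m hm
  induction K with
  | zero => exact ⟨[], by simp, trivial⟩
  | succ K ih =>
    obtain ⟨l, hl, hN⟩ := ih
    refine ⟨l0 ++ l, ?_, l0, l, rfl, hP0, hN⟩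
    intro x hx
    rcases List.mem_append.1 hx with hx | hx
    · exact hl0 x hx
    · exact hl x hx

theorem P_cover {m : ℕ} {l : List G} {C : Finset G} (hC : C.card ≤ m) (hl : ∀ x ∈ l, x ∈ C)
    (h : P m l) {x : G} (hx : x ∈ C) : x ∈ l := by
  have h1 : l.toFinset ⊆ C := by
    intro y hy; exact hl y (List.mem_toFinset.1 hy)
  have h2 : l.toFinset = C := Finset.eq_of_subset_of_card_le h1 (hC.trans (P_card h))
  rw [← List.mem_toFinset, h2]; exact hx

theorem NF_sub {m : ℕ} {C : Finset G} (hC : C.card ≤ m) :
    ∀ {K : ℕ} {l l0 : List G}, NF m K l → (∀ x ∈ l, x ∈ C) → (∀ x ∈ l0, x ∈ C) →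
      l0.length ≤ K → l0.Sublist l := by
  intro K
  induction K with
  | zero =>
    intro l l0 _ _ _ hlen
    have : l0 = [] := List.length_eq_zero_iff.1 (by omega)
    subst this
    simp
  | succ K ih =>
    intro l l0 h hl hl0 hlen
    obtain ⟨l1, l2, rfl, h1, h2⟩ := h
    cases l0 with
    | nil => simp
    | cons x l0 =>
      have hx : x ∈ l1 := P_cover hC (fun y hy => hl y (by simp [hy])) h1 (hl0 x (by simp))
      have h3 : l0.Sublist l2 := ih h2 (fun y hy => hl y (by simp [hy]))
        (fun y hy => hl0 y (by simp [hy])) (by simp at hlen; omega)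
      have h4 : [x].Sublist l1 := List.singleton_sublist.2 hx
      exact h4.append h3

theorem NF_card {m K : ℕ} {l : List G} (hK : 0 < K) (h : NF m K l) : m ≤ l.toFinset.card := by
  obtain ⟨K, rfl⟩ : ∃ K', K = K' + 1 := ⟨K - 1, by omega⟩
  obtain ⟨l1, l2, rfl, h1, _⟩ := h
  exact (P_card h1).trans (card_toFinset_le_of_subset (by intro y hy; simp [hy]))

end rich

end Pool.Agent.Dec56
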