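import Pool.Agent.Lib_helper56.Dec.Ramsey

/-!
Shuffles, loop insertions, the simulation order.
-/

set_option autoImplicit false
set_option linter.unusedSectionVars false

namespace Pool.Agent.Dec56

section shuf

/-- `Shuf u v w`: the word `w` is a shuffle of `u` and `v` -/
inductive Shuf {A : Type*} : List A → List A → List A → Prop
  | nil : Shuf [] [] []
  | left (a : A) {u v w} : Shuf u v w → Shuf (a :: u) v (a :: w)
  | right (a : A) {u v w} : Shuf u v w → Shuf u (a :: v) (a :: w)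

variable {A G : Type*} [Group G]

theorem Shuf.symm {u v w : List A} (h : Shuf u v w) : Shuf v u w := by
  induction h with
  | nil => exact .nil
  | left a _ ih => exact .right a ih
  | right a _ ih => exact .left a ih

theorem Shuf.append {u v w u' v' w' : List A} (h : Shuf u v w) (h' : Shuf u' v' w') :
    Shuf (u ++ u') (v ++ v') (w ++ w') := by
  induction h with
  | nil => exact h'
  | left a _ ih => exact .left a ih
  | right a _ ih => exact .right a ih

theorem Shuf.left_only (u : List A) : Shuf u [] u := by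
  induction u with
  | nil => exact .nil
  | cons a u ih => exact .left a ih

theorem Shuf.right_only (u : List A) : Shuf [] u u := (Shuf.left_only u).symm

theorem Shuf.nil_right {u w : List A} (h : Shuf u [] w) : w = u := by
  generalize hv : ([] : List A) = v at h
  induction h with
  | nil => rfl
  | left a _ ih => rw [ih hv]
  | right a _ _ => cases hv

theorem Shuf.nil_left {u w : List A} (h : Shuf [] u w) : w = u := h.symm.nil_right

theorem Shuf.split_left {u1 u2 v w : List A} (h : Shuf (u1 ++ u2) v w) :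
    ∃ v1 v2 w1 w2, v = v1 ++ v2 ∧ w = w1 ++ w2 ∧ Shuf u1 v1 w1 ∧ Shuf u2 v2 w2 := by
  generalize hu : u1 ++ u2 = u at h
  induction h generalizing u1 with
  | nil =>
    obtain ⟨rfl, rfl⟩ := List.append_eq_nil_iff.1 hu
    exact ⟨[], [], [], [], rfl, rfl, .nil, .nil⟩
  | @left a u v w h ih =>
    cases u1 with
    | nil =>
      simp only [List.nil_append] at hu
      subst hu
      exact ⟨[], v, [], a :: w, rfl, rfl, .nil, .left a h⟩
    | cons b u1 =>
      simp only [List.cons_append, List.cons.injEq] at hu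
      obtain ⟨rfl, hu⟩ := hu
      obtain ⟨v1, v2, w1, w2, rfl, rfl, h1, h2⟩ := ih hu
      exact ⟨v1, v2, b :: w1, w2, rfl, rfl, .left b h1, h2⟩
  | @right a u v w h ih =>
    obtain ⟨v1, v2, w1, w2, rfl, rfl, h1, h2⟩ := ih hu
    exact ⟨a :: v1, v2, a :: w1, w2, rfl, rfl, .right a h1, h2⟩

/-- peel off the first letter of the left word -/
theorem Shuf.peel_left {a : A} {u v w : List A} (h : Shuf (a :: u) v w) :
    ∃ x v' w', v = x ++ v' ∧ w = x ++ a :: w' ∧ Shuf u v' w' := by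
  generalize hu : a :: u = u0 at h
  induction h with
  | nil => cases hu
  | @left b u1 v w h ih =>
    cases hu
    exact ⟨[], v, w, rfl, rfl, h⟩
  | @right b u1 v w h ih =>
    obtain ⟨x, v', w', rfl, rfl, h1⟩ := ih hu
    exact ⟨b :: x, v', w', rfl, rfl, h1⟩

/-- value of a word -/
def wv (π : A → G) (w : List A) : G := (w.map π).prod

variable (π : A → G)

@[simp] theorem wv_nil : wv π [] = 1 := rfl
@[simp] theorem wv_cons (a : A) (w : List A) : wv π (a :: w) = π a * wv π w := by simp [wv]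
theorem wv_append (u w : List A) : wv π (u ++ w) = wv π u * wv π w := by simp [wv]

/-- single loop insertion -/
def SI (u u' : List A) : Prop := ∃ x z y, wv π z = 1 ∧ u = x ++ y ∧ u' = x ++ z ++ y

/-- loop insertions -/
def LI : List A → List A → Prop := Relation.ReflTransGen (SI π)

theorem LI.refl (u : List A) : LI π u u := Relation.ReflTransGen.refl

variable {π}

theorem LI.trans {u v w : List A} (h : LI π u v) (h' : LI π v w) : LI π u w :=
  Relation.ReflTransGen.trans h h'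

theorem LI.of_mid {x z y : List A} (h : wv π z = 1) : LI π (x ++ y) (x ++ z ++ y) :=
  Relation.ReflTransGen.single ⟨x, z, y, h, rfl, rfl⟩

theorem LI.append_left {u u' : List A} (p : List A) (h : LI π u u') : LI π (p ++ u) (p ++ u') := by
  refine Relation.ReflTransGen.lift (p ++ ·) ?_ _ _ h
  rintro a b ⟨x, z, y, hz, rfl, rfl⟩
  exact ⟨p ++ x, z, y, hz, by simp, by simp⟩

theorem LI.append_right {u u' : List A} (q : List A) (h : LI π u u') :
    LI π (u ++ q) (u' ++ q) := by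
  refine Relation.ReflTransGen.lift (· ++ q) ?_ _ _ h
  rintro a b ⟨x, z, y, hz, rfl, rfl⟩
  exact ⟨x, z, y ++ q, hz, by simp, by simp⟩

theorem LI.append {u u' w w' : List A} (h : LI π u u') (h' : LI π w w') :
    LI π (u ++ w) (u' ++ w') := (h.append_right w).trans (h'.append_left u')

theorem SI.wv_eq {u u' : List A} (h : SI π u u') : wv π u = wv π u' := by
  obtain ⟨x, z, y, hz, rfl, rfl⟩ := h
  simp [wv_append, hz]

theorem LI.wv_eq {u u' : List A} (h : LI π u u') : wv π u = wv π u' := by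
  induction h with
  | refl => rfl
  | tail _ h ih => rw [ih, h.wv_eq]

theorem SI.shuf {u u' s w : List A} (h : SI π u u') (hs : Shuf s u w) :
    ∃ w', Shuf s u' w' ∧ SI π w w' := by
  obtain ⟨x, z, y, hz, rfl, rfl⟩ := h
  obtain ⟨s1, s2, w1, w2, rfl, rfl, h1, h2⟩ := hs.symm.split_left
  refine ⟨w1 ++ z ++ w2, ?_, w1, z, w2, hz, rfl, rfl⟩
  have := (h1.symm.append (Shuf.right_only z)).append h2.symm
  simpa using this

theorem LI.shuf {u u' s w : List A} (h : LI π u u') (hs : Shuf s u w) :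
    ∃ w', Shuf s u' w' ∧ LI π w w' := by
  induction h with
  | refl => exact ⟨w, hs, LI.refl π w⟩
  | tail _ h ih =>
    obtain ⟨w1, h1, h2⟩ := ih
    obtain ⟨w2, h3, h4⟩ := h.shuf h1
    exact ⟨w2, h3, h2.tail h4⟩

variable (π)

/-- simulations -/
def IsSim (R : List A → List A → Prop) : Prop :=
  ∀ u u', R u u' → wv π u = wv π u' ∧ ∀ v x, Shuf u v x → ∃ x', Shuf u' v x' ∧ R x x'

/-- the simulation order -/
def Le (w w' : List A) : Prop := ∃ R, IsSim π R ∧ R w w'

theorem Le.isSim : IsSim π (Le π) := by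
  rintro u u' ⟨R, hR, h⟩
  refine ⟨(hR u u' h).1, ?_⟩
  intro v x hx
  obtain ⟨x', h1, h2⟩ := (hR u u' h).2 v x hx
  exact ⟨x', h1, R, hR, h2⟩

theorem Le.refl (w : List A) : Le π w w := by
  refine ⟨fun a b => a = b, ?_, rfl⟩
  rintro u _ rfl
  exact ⟨rfl, fun v x hx => ⟨x, hx, rfl⟩⟩

variable {π}

theorem Le.wv_eq {u u' : List A} (h : Le π u u') : wv π u = wv π u' := (Le.isSim π u u' h).1

theorem Le.shuf {u u' v x : List A} (h : Le π u u') (hx : Shuf u v x) :
    ∃ x', Shuf u' v x' ∧ Le π x x' := (Le.isSim π u u' h).2 v x hx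

theorem Le.trans {u v w : List A} (h : Le π u v) (h' : Le π v w) : Le π u w := by
  refine ⟨fun a c => ∃ b, Le π a b ∧ Le π b c, ?_, v, h, h'⟩
  rintro a c ⟨b, h1, h2⟩
  refine ⟨h1.wv_eq.trans h2.wv_eq, ?_⟩
  intro v x hx
  obtain ⟨x', hx', h3⟩ := h1.shuf hx
  obtain ⟨x'', hx'', h4⟩ := h2.shuf hx'
  exact ⟨x'', hx'', x', h3, h4⟩

theorem Le.of_LI {u u' : List A} (h : LI π u u') : Le π u u' := by
  refine ⟨LI π, ?_, h⟩
  intro a b hab
  refine ⟨hab.wv_eq, ?_⟩
  intro v x hx
  obtain ⟨w', h1, h2⟩ := hab.shuf hx.symm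
  exact ⟨w', h1.symm, h2⟩

theorem Le.append {u u' w w' : List A} (h : Le π u u') (h' : Le π w w') :
    Le π (u ++ w) (u' ++ w') := by
  refine ⟨fun a b => ∃ a1 a2 b1 b2, a = a1 ++ a2 ∧ b = b1 ++ b2 ∧ Le π a1 b1 ∧ Le π a2 b2, ?_,
    u, w, u', w', rfl, rfl, h, h'⟩
  rintro _ _ ⟨a1, a2, b1, b2, rfl, rfl, h1, h2⟩
  refine ⟨by rw [wv_append, wv_append, h1.wv_eq, h2.wv_eq], ?_⟩
  intro v x hx
  obtain ⟨v1, v2, x1, x2, rfl, rfl, s1, s2⟩ := hx.split_left
  obtain ⟨y1, t1, l1⟩ := h1.shuf s1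
  obtain ⟨y2, t2, l2⟩ := h2.shuf s2
  exact ⟨y1 ++ y2, t1.append t2, x1, x2, y1, y2, rfl, rfl, l1, l2⟩

/-- simulation up to `Le` on the right -/
theorem Le.coind {R : List A → List A → Prop}
    (h : ∀ u u', R u u' → wv π u = wv π u' ∧ ∀ v x, Shuf u v x →
      ∃ x' x'', Shuf u' v x' ∧ Le π x'' x' ∧ (R x x'' ∨ Le π x x'')) {u u' : List A}
    (hR : R u u') : Le π u u' := by
  refine ⟨fun a b => Le π a b ∨ ∃ c, R a c ∧ Le π c b, ?_, Or.inr ⟨u', hR, Le.refl π u'⟩⟩
  rintro a b (hab | ⟨c, hc, hcb⟩)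
  · refine ⟨hab.wv_eq, ?_⟩
    intro v x hx
    obtain ⟨x', h1, h2⟩ := hab.shuf hx
    exact ⟨x', h1, Or.inl h2⟩
  · refine ⟨(h a c hc).1.trans hcb.wv_eq, ?_⟩
    intro v x hx
    obtain ⟨x', x'', h1, h2, h3⟩ := (h a c hc).2 v x hx
    obtain ⟨y, h4, h5⟩ := hcb.shuf h1
    refine ⟨y, h4, ?_⟩
    rcases h3 with h3 | h3
    · exact Or.inr ⟨x'', h3, h2.trans h5⟩
    · exact Or.inl ((h3.trans h2).trans h5)

end shuf

end Pool.Agent.Dec56
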