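import Pool.Agent.Lib_helper56.Dec.Rich

/-!
Tokens (letters and blobs), generalised words, coarsenings.
-/

set_option autoImplicit false
set_option linter.unusedSectionVars false

namespace Pool.Agent.Dec56

/-- a blob: a finite set `C ∋ 1` of group elements together with an exit `c ∈ C` -/
structure Blob (G : Type*) [Group G] where
  C : Finset G
  c : G
  one_mem : (1 : G) ∈ C
  mem : c ∈ C

/-- tokens: letters or blobs -/
inductive Tok (A G : Type*) [Group G]
  | lt (a : A) : Tok A G
  | bl (b : Blob G) : Tok A G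

section tok

variable {A G : Type*} [Group G] [DecidableEq G] (π : A → G)

theorem Blob.ext' {b b' : Blob G} (h1 : b.C = b'.C) (h2 : b.c = b'.c) : b = b' := by
  cases b; cases b'; simp_all

def Tok.val : Tok A G → G
  | .lt a => π a
  | .bl b => b.c

def Tok.cov : Tok A G → Finset G
  | .lt a => {1, π a}
  | .bl b => b.C

def val : List (Tok A G) → G
  | [] => 1
  | τ :: t => τ.val π * val t

def cov : List (Tok A G) → Finset G
  | [] => {1}
  | τ :: t => τ.cov π ∪ (cov t).image (τ.val π * ·)

@[simp] theorem val_nil : val π ([] : List (Tok A G)) = 1 := rfl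
@[simp] theorem val_cons (τ : Tok A G) (t) : val π (τ :: t) = τ.val π * val π t := rfl
theorem val_append (s t : List (Tok A G)) : val π (s ++ t) = val π s * val π t := by
  induction s with
  | nil => simp
  | cons τ s ih => simp [ih, mul_assoc]

theorem Tok.one_mem_cov (τ : Tok A G) : 1 ∈ τ.cov π := by
  cases τ with
  | lt a => simp [Tok.cov]
  | bl b => exact b.one_mem

theorem Tok.val_mem_cov (τ : Tok A G) : τ.val π ∈ τ.cov π := by
  cases τ with
  | lt a => simp [Tok.cov, Tok.val]
  | bl b => exact b.mem

@[simp] theorem cov_nil : cov π ([] : List (Tok A G)) = {1} := rfl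
theorem cov_cons (τ : Tok A G) (t) :
    cov π (τ :: t) = τ.cov π ∪ (cov π t).image (τ.val π * ·) := rfl

theorem one_mem_cov (t : List (Tok A G)) : 1 ∈ cov π t := by
  cases t with
  | nil => simp
  | cons τ t => rw [cov_cons]; exact Finset.mem_union_left _ (τ.one_mem_cov π)

theorem mem_cov_cons {τ : Tok A G} {t : List (Tok A G)} {x : G} :
    x ∈ cov π (τ :: t) ↔ x ∈ τ.cov π ∨ ∃ y ∈ cov π t, τ.val π * y = x := by
  rw [cov_cons, Finset.mem_union, Finset.mem_image]

theorem mem_cov_append {s t : List (Tok A G)} {x : G} :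
    x ∈ cov π (s ++ t) ↔ x ∈ cov π s ∨ ∃ y ∈ cov π t, val π s * y = x := by
  induction s generalizing x with
  | nil =>
    simp only [List.nil_append, cov_nil, Finset.mem_singleton, val_nil, one_mul, exists_eq_right]
    constructor
    · intro h; right; exact h
    · rintro (rfl | h)
      · exact one_mem_cov π t
      · exact h
  | cons τ s ih =>
    rw [List.cons_append, mem_cov_cons, mem_cov_cons]
    constructor
    · rintro (h | ⟨y, hy, rfl⟩)
      · left; left; exact h
      · rcases ih.1 hy with h | ⟨z, hz, rfl⟩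
        · left; right; exact ⟨y, h, rfl⟩
        · right; exact ⟨z, hz, by simp [mul_assoc]⟩
    · rintro ((h | ⟨y, hy, rfl⟩) | ⟨z, hz, rfl⟩)
      · left; exact h
      · right; exact ⟨y, ih.2 (Or.inl hy), rfl⟩
      · right; exact ⟨val π s * z, ih.2 (Or.inr ⟨z, hz, rfl⟩), by simp [mul_assoc]⟩

theorem cov_append (s t : List (Tok A G)) :
    cov π (s ++ t) = cov π s ∪ (cov π t).image (val π s * ·) := by
  ext x
  rw [mem_cov_append, Finset.mem_union, Finset.mem_image]

theorem val_mem_cov (t : List (Tok A G)) : val π t ∈ cov π t := by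
  induction t with
  | nil => simp
  | cons τ t ih => rw [mem_cov_cons]; right; exact ⟨_, ih, rfl⟩

/-- embedding of a list of vertices in one token -/
def TE : Tok A G → List G → Prop
  | .lt a, l => l = [] ∨ l = [π a]
  | .bl b, l => ∀ x ∈ l, x ∈ b.C

/-- embedding of a list of vertices in a list of tokens -/
def Emb : List (Tok A G) → List G → Prop
  | [], l => l = []
  | τ :: t, l => ∃ l0 l', TE π τ l0 ∧ Emb t l' ∧ l = l0 ++ l'.map (τ.val π * ·)

omit [DecidableEq G] in
theorem TE_nil (τ : Tok A G) : TE π τ [] := by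
  cases τ <;> simp [TE]

omit [DecidableEq G] in
theorem TE_sublist {τ : Tok A G} {l l' : List G} (h : TE π τ l) (hs : l'.Sublist l) :
    TE π τ l' := by
  cases τ with
  | lt a =>
    rcases h with rfl | rfl
    · left; exact List.sublist_nil.1 hs
    · rcases List.sublist_singleton.1 hs with h | h
      · left; exact h
      · right; exact h
  | bl b => intro x hx; exact h x (hs.subset hx)

theorem TE_mem_cov {τ : Tok A G} {l : List G} (h : TE π τ l) {x : G} (hx : x ∈ l) :
    x ∈ τ.cov π := by
  cases τ with
  | lt a =>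
    rcases h with rfl | rfl
    · simp at hx
    · simp only [List.mem_singleton] at hx; subst hx; simp [Tok.cov]
  | bl b => exact h x hx

omit [DecidableEq G] in
theorem Emb_nil (t : List (Tok A G)) : Emb π t [] := by
  induction t with
  | nil => rfl
  | cons τ t ih => exact ⟨[], [], TE_nil π τ, ih, rfl⟩

omit [DecidableEq G] in
theorem Emb_sublist {t : List (Tok A G)} : ∀ {l l' : List G}, Emb π t l → l'.Sublist l →
    Emb π t l' := by
  induction t with
  | nil =>
    intro l l' h hs
    cases (show l = [] from h)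
    exact List.sublist_nil.1 hs
  | cons τ t ih =>
    rintro l l' ⟨l0, l1, h0, h1, rfl⟩ hs
    obtain ⟨k0, k1, rfl, s0, s1⟩ := List.sublist_append_iff.1 hs
    obtain ⟨k, hk, rfl⟩ := List.sublist_map_iff.1 s1
    exact ⟨k0, k, TE_sublist π h0 s0, ih h1 hk, rfl⟩

omit [DecidableEq G] in
theorem Emb_append {s t : List (Tok A G)} {l1 l2 : List G} (h1 : Emb π s l1) (h2 : Emb π t l2) :
    Emb π (s ++ t) (l1 ++ l2.map (val π s * ·)) := by
  induction s generalizing l1 with
  | nil =>
    cases (show l1 = [] from h1)
    simpa using h2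
  | cons τ s ih =>
    obtain ⟨k0, k1, e0, e1, rfl⟩ := h1
    refine ⟨k0, _, e0, ih e1, ?_⟩
    simp [Function.comp_def, mul_assoc]

omit [DecidableEq G] in
theorem Emb_append_split {s t : List (Tok A G)} {l : List G} (h : Emb π (s ++ t) l) :
    ∃ l1 l2, Emb π s l1 ∧ Emb π t l2 ∧ l = l1 ++ l2.map (val π s * ·) := by
  induction s generalizing l with
  | nil => exact ⟨[], l, rfl, h, by simp⟩
  | cons τ s ih =>
    obtain ⟨l0, l', h0, h1, rfl⟩ := h
    obtain ⟨k1, k2, e1, e2, rfl⟩ := ih h1
    refine ⟨l0 ++ k1.map (τ.val π * ·), k2, ⟨l0, k1, h0, e1, rfl⟩, e2, ?_⟩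
    simp [Function.comp_def, mul_assoc]

theorem Emb_mem_cov {t : List (Tok A G)} : ∀ {l : List G}, Emb π t l → ∀ {x : G}, x ∈ l →
    x ∈ cov π t := by
  induction t with
  | nil =>
    intro l h x hx
    cases (show l = [] from h)
    simp at hx
  | cons τ t ih =>
    rintro l ⟨l0, l', h0, h1, rfl⟩ x hx
    rw [mem_cov_cons]
    rcases List.mem_append.1 hx with hx | hx
    · left; exact TE_mem_cov π h0 hx
    · right
      obtain ⟨y, hy, rfl⟩ := List.mem_map.1 hx
      exact ⟨y, ih h1 hy, rfl⟩

/-- the blob spanned by a factor -/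
def blobOf (t : List (Tok A G)) : Blob G := ⟨cov π t, val π t, one_mem_cov π t, val_mem_cov π t⟩

variable (N : ℕ → ℕ)

/-- a factor is good if it is `N_m`-fold `m`-rich for `m` the size of its cover -/
def GoodF (t : List (Tok A G)) : Prop :=
  ∃ l, Emb π t l ∧ NF (cov π t).card (N (cov π t).card) l

/-- coarsening of generalised words -/
inductive Coarse : List (Tok A G) → List (Tok A G) → Prop
  | nil : Coarse [] []
  | lt (a : A) {W V} : Coarse W V → Coarse (.lt a :: W) (.lt a :: V)
  | mg (f : List (Tok A G)) {W V} : GoodF π N f → Coarse W V →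
      Coarse (f ++ W) (.bl (blobOf π f) :: V)

variable {N}

theorem blobOf_single (b : Blob G) : blobOf π [(Tok.bl b : Tok A G)] = b := by
  apply Blob.ext'
  · ext x
    change x ∈ cov π [(Tok.bl b : Tok A G)] ↔ x ∈ b.C
    rw [mem_cov_cons]
    constructor
    · rintro (h | ⟨y, hy, rfl⟩)
      · exact h
      · rw [cov_nil, Finset.mem_singleton] at hy; subst hy
        simpa [Tok.val] using b.mem
    · intro h; left; exact h
  · simp [blobOf, Tok.val]

theorem cov_single_bl (b : Blob G) : cov π [(Tok.bl b : Tok A G)] = b.C :=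
  congrArg Blob.C (blobOf_single (A := A) π b)

/-- a factor containing a blob whose translated set is the whole cover is good -/
theorem GoodF_of_blob {X Y : List (Tok A G)} {b : Blob G}
    (h : (cov π (X ++ .bl b :: Y)).card ≤ b.C.card) : GoodF π N (X ++ .bl b :: Y) := by
  obtain ⟨l, hl, hN⟩ := NF_exists b.C (cov π (X ++ .bl b :: Y)).card h
    (N (cov π (X ++ .bl b :: Y)).card)
  refine ⟨[] ++ l.map (val π X * ·), Emb_append π (Emb_nil π X) ?_, ?_⟩
  · exact ⟨l, [], hl, Emb_nil π Y, by simp⟩
  · rw [List.nil_append]; exact NF_map (mul_right_injective _) hN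

theorem GoodF_single (b : Blob G) : GoodF π N [(Tok.bl b : Tok A G)] := by
  have := GoodF_of_blob (N := N) (A := A) π (X := []) (Y := []) (b := b)
    (by rw [List.nil_append, cov_single_bl])
  simpa using this

theorem Coarse.bl (b : Blob G) {W V : List (Tok A G)} (h : Coarse π N W V) :
    Coarse π N (.bl b :: W) (.bl b :: V) := by
  have := Coarse.mg (π := π) (N := N) [(Tok.bl b : Tok A G)] (GoodF_single π b) h
  rwa [blobOf_single] at this

theorem Coarse.refl (W : List (Tok A G)) : Coarse π N W W := by
  induction W with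
  | nil => exact .nil
  | cons τ W ih =>
    cases τ with
    | lt a => exact .lt a ih
    | bl b => exact Coarse.bl π b ih

theorem Coarse.append {W V W' V' : List (Tok A G)} (h : Coarse π N W V) (h' : Coarse π N W' V') :
    Coarse π N (W ++ W') (V ++ V') := by
  induction h with
  | nil => exact h'
  | lt a _ ih => exact .lt a ih
  | mg f hf _ ih => rw [List.append_assoc]; exact .mg f hf ih

theorem Coarse.one {f : List (Tok A G)} (hf : GoodF π N f) :
    Coarse π N f [.bl (blobOf π f)] := by
  have := Coarse.mg (π := π) (N := N) f hf .nil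
  simpa using this

theorem Coarse.val_eq {W V : List (Tok A G)} (h : Coarse π N W V) : val π W = val π V := by
  induction h with
  | nil => rfl
  | lt a _ ih => simp [ih]
  | mg f hf _ ih => rw [val_append, ih]; rfl

theorem Coarse.cov_eq {W V : List (Tok A G)} (h : Coarse π N W V) : cov π W = cov π V := by
  induction h with
  | nil => rfl
  | lt a _ ih => rw [cov_cons, cov_cons, ih]
  | mg f hf _ ih => rw [cov_append, cov_cons, ih]; rfl

theorem Coarse.split {W V1 V2 : List (Tok A G)} (h : Coarse π N W (V1 ++ V2)) :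
    ∃ W1 W2, W = W1 ++ W2 ∧ Coarse π N W1 V1 ∧ Coarse π N W2 V2 := by
  induction V1 generalizing W with
  | nil => exact ⟨[], W, rfl, .nil, h⟩
  | cons τ V1 ih =>
    rw [List.cons_append] at h
    cases h with
    | lt a h =>
      obtain ⟨W1, W2, rfl, h1, h2⟩ := ih h
      exact ⟨.lt a :: W1, W2, rfl, .lt a h1, h2⟩
    | mg f hf h =>
      obtain ⟨W1, W2, rfl, h1, h2⟩ := ih h
      exact ⟨f ++ W1, W2, by simp, .mg f hf h1, h2⟩

/-- richness is enough to embed short lists -/
theorem Coarse.emb {t t1 : List (Tok A G)} (h : Coarse π N t t1) :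
    ∀ {l : List G}, Emb π t1 l → (∀ b, Tok.bl b ∈ t1 → l.length ≤ N b.C.card) → Emb π t l := by
  induction h with
  | nil => intro l h _; exact h
  | lt a _ ih =>
    rintro l ⟨l0, l', h0, h1, rfl⟩ hb
    refine ⟨l0, l', h0, ih h1 ?_, rfl⟩
    intro b hbm
    have := hb b (List.mem_cons_of_mem _ hbm)
    simp only [List.length_append, List.length_map] at this
    omega
  | mg f hf _ ih =>
    rintro l ⟨l0, l', h0, h1, rfl⟩ hb
    obtain ⟨lf, e, hN⟩ := hf
    have hlen := hb (blobOf π f) (by simp)
    simp only [List.length_append, List.length_map] at hlen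
    have e0 : Emb π f l0 := by
      apply Emb_sublist π e
      exact NF_sub (C := cov π f) le_rfl hN (fun x hx => Emb_mem_cov π e hx) h0
        (by change l0.length ≤ N (cov π f).card; change _ ≤ N (cov π f).card at hlen; omega)
    have e1 := ih h1 (by
      intro b hbm
      have := hb b (List.mem_cons_of_mem _ hbm)
      simp only [List.length_append, List.length_map] at this
      omega)
    exact Emb_append π e0 e1

theorem Coarse.find {t t1 : List (Tok A G)} (h : Coarse π N t t1) {b : Blob G}
    (hb : Tok.bl b ∈ t1) : ∃ X f Y, t = X ++ f ++ Y ∧ GoodF π N f ∧ cov π f = b.C := by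
  induction h with
  | nil => simp at hb
  | lt a _ ih =>
    rcases List.mem_cons.1 hb with hb | hb
    · cases hb
    · obtain ⟨X, f, Y, rfl, h1, h2⟩ := ih hb
      exact ⟨.lt a :: X, f, Y, rfl, h1, h2⟩
  | mg f hf _ ih =>
    rcases List.mem_cons.1 hb with hb | hb
    · cases hb
      exact ⟨[], f, _, rfl, hf, rfl⟩
    · obtain ⟨X, f', Y, rfl, h1, h2⟩ := ih hb
      exact ⟨f ++ X, f', Y, by simp, h1, h2⟩

/-- admissible thresholds -/
def Adm (n : ℕ) (N : ℕ → ℕ) : Prop :=
  (∀ m, 3 ≤ N m) ∧ ∀ m m', m < m' → m' ≤ n → N m' * pb m' ≤ N m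

theorem GoodF.trans [Fintype G] (hN : Adm (Fintype.card G) N) {t t1 : List (Tok A G)}
    (h : Coarse π N t t1) (h1 : GoodF π N t1) : GoodF π N t := by
  by_cases hbig : ∃ b, Tok.bl b ∈ t1 ∧ (cov π t1).card ≤ b.C.card
  · obtain ⟨b, hb, hc⟩ := hbig
    obtain ⟨X, f, Y, rfl, hf, hfc⟩ := h.find π hb
    have hcov := h.cov_eq π
    obtain ⟨l, e, hNF⟩ := hf
    refine ⟨l.map (val π X * ·), ?_, ?_⟩
    · have := Emb_append π (Emb_append π (Emb_nil π X) e) (Emb_nil π Y)
      simpa using this
    · apply NF_map (mul_right_injective _)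
      have hle : (cov π (X ++ f ++ Y)).card ≤
          (cov π f).card := by rw [hcov, hfc]; exact hc
      have hge : (cov π f).card ≤
          (cov π (X ++ f ++ Y)).card := by
        have : ((cov π f).image (val π X * ·)).card =
            (cov π f).card :=
          Finset.card_image_of_injective _ (mul_right_injective _)
        rw [← this]
        apply Finset.card_le_card
        intro x hx
        rw [cov_append, cov_append]
        exact Finset.mem_union_left _ (Finset.mem_union_right _ hx)
      rw [le_antisymm hle hge]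
      exact hNF
  · push Not at hbig
    obtain ⟨l, e, hNF⟩ := h1
    obtain ⟨l', hs, hNF', hlen⟩ := NF_bound hNF
    refine ⟨l', h.emb π (Emb_sublist π e hs) ?_, ?_⟩
    · intro b hb
      refine hlen.trans (hN.2 _ _ (hbig b hb) ?_)
      exact Finset.card_le_univ _
    · rw [h.cov_eq π]; exact hNF'

theorem Coarse.trans [Fintype G] (hN : Adm (Fintype.card G) N) {U V W : List (Tok A G)}
    (h : Coarse π N V W) : Coarse π N U V → Coarse π N U W := by
  induction h generalizing U with
  | nil => exact id
  | lt a _ ih =>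
    intro h'
    cases h' with
    | lt a h' => exact .lt a (ih h')
  | mg f hf _ ih =>
    intro h'
    obtain ⟨W1, W2, rfl, h1, h2⟩ := h'.split π
    have := Coarse.mg (π := π) (N := N) W1 (GoodF.trans π hN h1 hf) (ih h2)
    have e : blobOf π W1 = blobOf π f := Blob.ext' (h1.cov_eq π) (h1.val_eq π)
    rwa [e] at this

end tok

end Pool.Agent.Dec56
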