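import Pool.Agent.Lib_helper56.Dec.Shuf

/-!
Compression of labelled walks by deleting loops.
-/

set_option autoImplicit false
set_option linter.unusedSectionVars false

namespace Pool.Agent.Dec56

inductive Walk {S A : Type*} (step : S → A → S → Prop) : S → List A → S → Prop
  | nil (s : S) : Walk step s [] s
  | cons {s s' s'' : S} {a : A} {u : List A} : step s a s' → Walk step s' u s'' →
      Walk step s (a :: u) s''

section walk

variable {S A G : Type*} [Group G] {step : S → A → S → Prop}

theorem Walk.append {s s' s'' : S} {u u' : List A} (h : Walk step s u s')
    (h' : Walk step s' u' s'') : Walk step s (u ++ u') s'' := by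
  induction h with
  | nil => exact h'
  | cons h1 _ ih => exact .cons h1 (ih h')

theorem Walk.split {u u' : List A} : ∀ {s s'' : S}, Walk step s (u ++ u') s'' →
    ∃ s', Walk step s u s' ∧ Walk step s' u' s'' := by
  induction u with
  | nil => intro s s'' h; exact ⟨s, .nil s, h⟩
  | cons a u ih =>
    intro s s'' h
    cases h with
    | cons h1 h2 =>
      obtain ⟨s', h3, h4⟩ := ih h2
      exact ⟨s', .cons h1 h3, h4⟩

theorem Walk.inv {inv : S → Prop} (hinv : ∀ s a s', step s a s' → inv s → inv s') {s s' : S}
    {u : List A} (h : Walk step s u s') : inv s → inv s' := by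
  induction h with
  | nil => exact id
  | cons h1 _ ih => exact fun hs => ih (hinv _ _ _ h1 hs)

variable (π : A → G)

theorem Walk.compress {κ : Type*} [Finite κ] [Finite G] {inv : S → Prop}
    (hinv : ∀ s a s', step s a s' → inv s → inv s') (code : S → κ)
    (hcode : ∀ s s', inv s → inv s' → code s = code s' → s = s') :
    ∀ (n : ℕ) (u : List A) (s s' : S), u.length = n → inv s → Walk step s u s' →
      ∃ u', LI π u' u ∧ Walk step s u' s' ∧ u'.length ≤ Nat.card κ * Nat.card G := by
  intro n
  induction n using Nat.strong_induction_on with
  | _ n ih =>
    intro u s s' hn hs hw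
    by_cases hle : n ≤ Nat.card κ * Nat.card G
    · exact ⟨u, LI.refl π u, hw, by omega⟩
    · push Not at hle
      have hsplit : ∀ i : Fin (n + 1), ∃ m, Walk step s (u.take i) m ∧
          Walk step m (u.drop i) s' := by
        intro i
        apply Walk.split
        rw [List.take_append_drop]
        exact hw
      choose m hm1 hm2 using hsplit
      have : Fintype κ := Fintype.ofFinite κ
      have : Fintype G := Fintype.ofFinite G
      have hcard : Fintype.card (κ × G) < Fintype.card (Fin (n + 1)) := by
        rw [Fintype.card_prod, Fintype.card_fin, ← Nat.card_eq_fintype_card,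
          ← Nat.card_eq_fintype_card]
        omega
      obtain ⟨i, j, hij, hf⟩ := Fintype.exists_ne_map_eq_of_card_lt
        (fun i : Fin (n + 1) => (code (m i), wv π (u.take i))) hcard
      have main : ∀ i j : Fin (n + 1), i < j → code (m i) = code (m j) →
          wv π (u.take i) = wv π (u.take j) →
          ∃ u', LI π u' u ∧ Walk step s u' s' ∧ u'.length ≤ Nat.card κ * Nat.card G := by
        intro i j hlt h1 h2
        have him : m i = m j := hcode _ _ (Walk.inv hinv (hm1 i) hs) (Walk.inv hinv (hm1 j) hs) h1
        have hlt' : (i : ℕ) < j := hlt
        have hjn : (j : ℕ) ≤ n := by omega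
        have hw' : Walk step s (u.take i ++ u.drop j) s' := by
          refine (hm1 i).append ?_
          rw [him]
          exact hm2 j
        obtain ⟨u', l1, l2, l3⟩ := ih (u.take i ++ u.drop j).length (by
          rw [List.length_append, List.length_take, List.length_drop]; omega) _ _ _ rfl hs hw'
        refine ⟨u', l1.trans ?_, l2, l3⟩
        have e : u = u.take i ++ (u.drop i).take (j - i) ++ u.drop j := by
          have h3 : u.drop i = (u.drop i).take (j - i) ++ (u.drop i).drop (j - i) :=
            (List.take_append_drop _ _).symm
          rw [List.drop_drop] at h3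
          have h4 : (i : ℕ) + (j - i) = j := by omega
          rw [h4] at h3
          rw [List.append_assoc, ← h3, List.take_append_drop]
        have h5 : wv π ((u.drop i).take (j - i)) = 1 := by
          have h6 : u.take j = u.take i ++ (u.drop i).take (j - i) := by
            have h7 : (j : ℕ) = i + (j - i) := by omega
            conv_lhs => rw [h7]
            rw [List.take_add]
          rw [h6, wv_append] at h2
          have := mul_left_cancel (h2.symm.trans (mul_one _).symm)
          exact this
        conv_rhs => rw [e]
        exact LI.of_mid h5
      simp only [Prod.mk.injEq] at hf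
      rcases lt_or_gt_of_ne hij with h | h
      · exact main i j h hf.1 hf.2
      · exact main j i h hf.1.symm hf.2.symm

end walk

end Pool.Agent.Dec56
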