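import Pool.Agent.Lib_helper56.Dec.Event
import Pool.Agent.Lib_helper56.Dec.Walk

/-!
Zero cost insertions: rich words stay rich.
-/

set_option autoImplicit false
set_option linter.unusedSectionVars false

namespace Pool.Agent.Dec56

section zero

variable {A G : Type*} [Group G] [DecidableEq G] (π : A → G)

/-- insertion of a letter at a pointer of `C` with effect stabilising `C` -/
def zstep (C : Finset G) (g : G) (a : A) (g' : G) : Prop :=
  ∃ D ∈ C, (∀ x ∈ C, D * π a * D⁻¹ * x ∈ C) ∧ g' = g * (D * π a * D⁻¹)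

theorem zwalk_mul {C : Finset G} {g g' : G} {u : List A} (k : G)
    (h : Walk (zstep π C) g u g') : Walk (zstep π C) (k * g) u (k * g') := by
  induction h with
  | nil s => exact .nil _
  | cons h1 _ ih =>
    obtain ⟨D, hD, hs, rfl⟩ := h1
    exact .cons ⟨D, hD, hs, by simp [mul_assoc]⟩ ih

theorem zwalk_unshift {b : Blob G} {d : G} {hd : d ∈ b.C} {g g' : G} {u : List A}
    (h : Walk (zstep π (b.shift d hd).C) g u g') :
    Walk (zstep π b.C) (d * g * d⁻¹) u (d * g' * d⁻¹) := by
  induction h with
  | nil s => exact .nil _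
  | @cons g g' g'' a u h1 _ ih =>
    obtain ⟨D, hD, hs, rfl⟩ := h1
    refine .cons ⟨d * D, Blob.mem_shift.1 hD, ?_, by simp [mul_assoc]⟩ ih
    intro x hx
    have h2 : d⁻¹ * x ∈ (b.shift d hd).C := Blob.mem_shift.2 (by simpa using hx)
    have h3 := Blob.mem_shift.1 (hs _ h2)
    have e : d * D * π a * (d * D)⁻¹ * x = d * (D * π a * D⁻¹ * (d⁻¹ * x)) := by
      simp [mul_assoc]
    rw [e]; exact h3

theorem zwalk_shift {b : Blob G} {d : G} {hd : d ∈ b.C} {g g' : G} {u : List A}
    (h : Walk (zstep π b.C) g u g') :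
    Walk (zstep π (b.shift d hd).C) (d⁻¹ * g * d) u (d⁻¹ * g' * d) := by
  induction h with
  | nil s => exact .nil _
  | @cons g g' g'' a u h1 _ ih =>
    obtain ⟨D, hD, hs, rfl⟩ := h1
    refine .cons ⟨d⁻¹ * D, Blob.mem_shift.2 (by simpa using hD), ?_, by simp [mul_assoc]⟩ ih
    intro x hx
    rw [Blob.mem_shift] at hx ⊢
    have h3 := hs _ hx
    have e : d * (d⁻¹ * D * π a * (d⁻¹ * D)⁻¹ * x) = D * π a * D⁻¹ * (d * x) := by
      simp [mul_assoc]
    rw [e]; exact h3

theorem bins_sub_cov {b : Blob G} {u : List A} {R : List (Tok A G)} (h : BIns b u R) :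
    ∀ x ∈ b.C, x ∈ cov π R := by
  intro x hx
  cases h with
  | done b => rw [cov_single_bl]; exact hx
  | step b d hd a h => rw [mem_cov_cons]; left; exact hx

theorem zwalk_of_bins {b : Blob G} {u : List A} {R : List (Tok A G)} (h : BIns b u R) :
    (∀ x ∈ cov π R, x ∈ b.C) → ∃ g, Walk (zstep π b.C) 1 u g ∧ val π R = g * b.c := by
  induction h with
  | done b => intro _; exact ⟨1, .nil _, by simp [Tok.val]⟩
  | @step b d hd a u R hR ih =>
    intro hcov
    have hR' : ∀ y ∈ cov π R, d * π a * y ∈ b.C := by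
      intro y hy
      apply hcov
      rw [mem_cov_cons]
      right
      refine ⟨π a * y, ?_, by simp [Tok.val, Blob.setc, mul_assoc]⟩
      rw [mem_cov_cons]
      right
      exact ⟨y, hy, rfl⟩
    have hstab : ∀ x ∈ b.C, d * π a * d⁻¹ * x ∈ b.C := by
      intro x hx
      have h1 : d⁻¹ * x ∈ cov π R := by
        apply bins_sub_cov π hR
        rw [Blob.mem_shift]; simpa using hx
      have := hR' _ h1
      simpa [mul_assoc] using this
    have himg : b.C.image (d * π a * d⁻¹ * ·) = b.C := by
      apply Finset.eq_of_subset_of_card_le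
      · intro y hy
        obtain ⟨z, hz, rfl⟩ := Finset.mem_image.1 hy
        exact hstab z hz
      · rw [Finset.card_image_of_injective _ (mul_right_injective _)]
    obtain ⟨g', hw, hv⟩ := ih (by
      intro y hy
      rw [Blob.mem_shift]
      have h1 := hR' y hy
      rw [← himg, Finset.mem_image] at h1
      obtain ⟨x, hx, he⟩ := h1
      have : d * y = x := by
        have h2 : d * π a * d⁻¹ * x = d * π a * d⁻¹ * (d * y) := by
          rw [he]; simp [mul_assoc]
        exact (mul_left_cancel h2).symm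
      rw [this]; exact hx)
    have hw' := zwalk_mul π (d * π a * d⁻¹) (zwalk_unshift π hw)
    refine ⟨_, .cons ⟨d, hd, hstab, rfl⟩ (by simpa [mul_assoc] using hw'), ?_⟩
    rw [val_cons, val_cons, hv]
    simp [Tok.val, Blob.setc, Blob.shift, mul_assoc]

theorem emb_split {s : List A} : ∀ {l1 l2 : List G} {D : G}, Emb π (lts G s) (l1 ++ D :: l2) →
    ∃ s1 s2, s = s1 ++ s2 ∧ wv π s1 = D ∧ Emb π (lts G s1) (l1 ++ [D]) ∧
      Emb π (lts G s2) (l2.map (D⁻¹ * ·)) := by
  induction s with
  | nil =>
    intro l1 l2 D h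
    have : l1 ++ D :: l2 = [] := h
    simp at this
  | cons a s ih =>
    rintro l1 l2 D ⟨l0, l', h0, h1, e⟩
    have main : ∀ {k1 : List G}, k1 ++ D :: l2 = l'.map ((Tok.lt a : Tok A G).val π * ·) →
        TE π (Tok.lt a) l0 → l1 = l0 ++ k1 →
        ∃ s1 s2, a :: s = s1 ++ s2 ∧ wv π s1 = D ∧ Emb π (lts G s1) (l1 ++ [D]) ∧
          Emb π (lts G s2) (l2.map (D⁻¹ * ·)) := by
      intro k1 hk hT hl1
      obtain ⟨m1, m2, rfl, e1, e2⟩ := List.map_eq_append_iff.1 hk.symm
      obtain ⟨D', m2', rfl, e3, e4⟩ := List.map_eq_cons_iff.1 e2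
      obtain ⟨s1, s2, rfl, hs1, hE1, hE2⟩ := ih h1
      refine ⟨a :: s1, s2, rfl, ?_, ?_, ?_⟩
      · rw [wv_cons, hs1, ← e3]; rfl
      · refine ⟨l0, m1 ++ [D'], hT, hE1, ?_⟩
        rw [hl1, ← e1, ← e3]; simp
      · rw [← e4, ← e3]
        have : (m2'.map ((Tok.lt a : Tok A G).val π * ·)).map
            (((Tok.lt a : Tok A G).val π * D')⁻¹ * ·) = m2'.map (D'⁻¹ * ·) := by
          rw [List.map_map]
          apply List.map_congr_left
          intro x _
          simp [mul_assoc]
        rw [this]; exact hE2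
    rcases h0 with rfl | rfl
    · exact main (k1 := l1) (by simpa using e) (Or.inl rfl) (by simp)
    · cases l1 with
      | nil =>
        simp only [List.nil_append, List.cons_append, List.cons.injEq] at e
        obtain ⟨rfl, rfl⟩ := e
        refine ⟨[a], s, rfl, by simp, ⟨[π a], [], Or.inr rfl, rfl, by simp⟩, ?_⟩
        have : (l'.map ((Tok.lt a : Tok A G).val π * ·)).map ((π a)⁻¹ * ·) = l' := by
          rw [List.map_map]
          conv_rhs => rw [← List.map_id l']
          apply List.map_congr_left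
          intro x _
          simp [Tok.val]
        rw [this]; exact h1
      | cons x l1 =>
        simp only [List.cons_append, List.cons.injEq, List.nil_append] at e
        obtain ⟨rfl, e⟩ := e
        exact main (k1 := l1) e (Or.inr rfl) rfl

theorem emb_split2 {s : List A} {l1 l2 : List G} (h : Emb π (lts G s) (l1 ++ l2)) :
    ∃ s1 s2, s = s1 ++ s2 ∧ Emb π (lts G s1) l1 ∧
      Emb π (lts G s2) (l2.map ((wv π s1)⁻¹ * ·)) := by
  rcases List.eq_nil_or_concat l1 with rfl | ⟨l, x, rfl⟩
  · exact ⟨[], s, rfl, rfl, by simpa using h⟩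
  · rw [List.concat_eq_append] at h ⊢
    rw [List.append_assoc, List.singleton_append] at h
    obtain ⟨s1, s2, rfl, h1, h2, h3⟩ := emb_split π h
    exact ⟨s1, s2, rfl, h2, by rw [h1]; exact h3⟩

theorem cov_lts_left {s1 s2 : List A} {x : G} (h : x ∈ cov π (lts G s1)) :
    x ∈ cov π (lts G (s1 ++ s2)) := by
  rw [lts_append, mem_cov_append]; left; exact h

theorem cov_lts_right {s1 s2 : List A} {x : G} (h : x ∈ cov π (lts G s2)) :
    wv π s1 * x ∈ cov π (lts G (s1 ++ s2)) := by
  rw [lts_append, mem_cov_append]; right; exact ⟨x, h, by rw [val_lts]⟩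

theorem wv_mem_cov (s : List A) : wv π s ∈ cov π (lts G s) := by
  rw [← val_lts (G := G)]; exact val_mem_cov π _

theorem zmain {u : List A} : ∀ {b : Blob G} {g0 g1 : G} {s : List A} {l : List G} {K : ℕ},
    Walk (zstep π b.C) g0 u g1 → (∀ x ∈ cov π (lts G s), x ∈ b.C) → wv π s = b.c →
    Emb π (lts G s) l → NF b.C.card K l → u.length ≤ K →
    ∃ s1 l1, Shuf s u s1 ∧ (∀ x ∈ cov π (lts G s1), x ∈ b.C) ∧ wv π s1 = g0⁻¹ * g1 * b.c ∧
      Emb π (lts G s1) l1 ∧ NF b.C.card K l1 := by
  induction u with
  | nil =>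
    intro b g0 g1 s l K hw hs hc he hN _
    cases hw
    exact ⟨s, l, Shuf.left_only s, hs, by simpa using hc, he, hN⟩
  | cons a u ih =>
    intro b g0 g1 s l K hw hs hc he hN hK
    cases hw with
    | cons h1 hw =>
      obtain ⟨D, hD, hstab, rfl⟩ := h1
      obtain ⟨K, rfl⟩ : ∃ K', K = K' + 1 := ⟨K - 1, by simp at hK; omega⟩
      obtain ⟨l1, l2, rfl, hP, hN2⟩ := hN
      have hlC : ∀ x ∈ l1 ++ l2, x ∈ b.C := fun x hx => hs x (Emb_mem_cov π he hx)
      have hDl : D ∈ l1 := P_cover (C := b.C) le_rfl (fun x hx => hlC x (by simp [hx])) hP hD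
      obtain ⟨α, β, rfl, hP'⟩ := P_dup (h := (D * π a * D⁻¹ * ·)) (mul_right_injective _) hP hDl
      rw [List.append_assoc, List.cons_append] at he
      obtain ⟨s1, s2, rfl, hs1, he1, he2⟩ := emb_split π he
      rw [List.map_append] at he2
      obtain ⟨s3, s4, rfl, he3, he4⟩ := emb_split2 π he2
      -- the vertex `e`
      have heC : D * wv π s3 ∈ b.C := by
        apply hs
        have h5 := cov_lts_left π (s2 := s4) (wv_mem_cov (G := G) π (s1 ++ s3))
        rw [wv_append, hs1] at h5
        rwa [← List.append_assoc]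
      obtain ⟨s4', l4', hsh, hcov4, hwv4, hem4, hN4⟩ := ih (b := b.shift (D * wv π s3) heC)
        (s := s4) (K := K) (l := (l2.map (D⁻¹ * ·)).map ((wv π s3)⁻¹ * ·)) (zwalk_shift π hw) (by
          intro x hx
          rw [Blob.mem_shift]
          apply hs
          have h5 := cov_lts_right π (s1 := s1 ++ s3) hx
          rw [wv_append, hs1] at h5
          rwa [← List.append_assoc]) (by
          simp only [Blob.shift]
          rw [← hc, wv_append, wv_append, hs1]; simp [mul_assoc]) he4 (by
          rw [Blob.card_shift]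
          exact NF_map (mul_right_injective _) (NF_map (mul_right_injective _) hN2)) (by
          simp at hK; omega)
      refine ⟨s1 ++ a :: (s3 ++ s4'), (α ++ D :: (D :: β).map (D * π a * D⁻¹ * ·)) ++
        l4'.map (D * (π a * wv π s3) * ·), ?_, ?_, ?_, ?_, ?_⟩
      · have h6 : Shuf (s3 ++ s4) u (s3 ++ s4') := by
          have := (Shuf.left_only s3).append hsh
          simpa using this
        have := (Shuf.left_only s1).append (Shuf.right a h6)
        simpa using this
      · intro x hx
        rw [lts_append, mem_cov_append] at hx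
        rcases hx with hx | ⟨y, hy, rfl⟩
        · exact hs x (cov_lts_left π hx)
        · rw [val_lts, hs1]
          rw [lts_cons, mem_cov_cons] at hy
          rcases hy with hy | ⟨z, hz, rfl⟩
          · simp only [Tok.cov, Finset.mem_insert, Finset.mem_singleton] at hy
            rcases hy with rfl | rfl
            · simpa using hD
            · have := hstab D hD
              simpa using this
          · rw [lts_append, mem_cov_append] at hz
            rcases hz with hz | ⟨t, ht, rfl⟩
            · have h7 : D * z ∈ b.C := by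
                apply hs
                have := cov_lts_right π (s1 := s1) (cov_lts_left π (s2 := s4) hz)
                rwa [hs1] at this
              have := hstab _ h7
              simpa [Tok.val, mul_assoc] using this
            · have h7 := hcov4 t ht
              rw [Blob.mem_shift] at h7
              have := hstab _ h7
              rw [val_lts]
              simpa [Tok.val, mul_assoc] using this
      · rw [wv_append, wv_cons, wv_append, hwv4, hs1]
        simp [Blob.shift, mul_assoc]
      · have h8 := Emb_append π he1 (show Emb π (.lt a :: lts G (s3 ++ s4'))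
          ([π a] ++ (β.map (D⁻¹ * ·) ++ l4'.map (val π (lts G s3) * ·)).map
            ((Tok.lt a : Tok A G).val π * ·)) from
          ⟨[π a], _, Or.inr rfl, by rw [lts_append]; exact Emb_append π he3 hem4, rfl⟩)
        rw [← lts_cons, ← lts_append] at h8
        convert h8 using 1
        rw [val_lts, val_lts, hs1]
        simp [Tok.val, Function.comp_def, mul_assoc]
      · exact ⟨_, _, rfl, hP', NF_map (mul_right_injective _) (by rwa [Blob.card_shift] at hN4)⟩

variable {N : ℕ → ℕ}

theorem zero_blob [Fintype G] {b : Blob G} {u : List A} {R : List (Tok A G)} (hR : BIns b u R)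
    (hcov : cov π R = b.C) {s : List A} (hs : blobOf π (lts G s) = b)
    (hg : GoodF π N (lts G s)) (hN : ∀ m, Fintype.card G * Fintype.card G ≤ N m)
    (hN3 : ∀ m, 3 ≤ N m) :
    ∃ s1 s2, Shuf s u s1 ∧ LI π s2 s1 ∧ GoodF π N (lts G s2) ∧
      blobOf π (lts G s2) = blobOf π R := by
  obtain ⟨g, hw, hv⟩ := zwalk_of_bins π hR (by rw [hcov]; exact fun x hx => hx)
  obtain ⟨u', hLI, hw', hlen⟩ := Walk.compress π (inv := fun _ => True) (by simp)
    (id : G → G) (by simp) _ u 1 g rfl trivial hw
  obtain ⟨l, he, hNF⟩ := hg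
  have hC : cov π (lts G s) = b.C := congrArg Blob.C hs
  have hc : wv π s = b.c := by rw [← val_lts (G := G)]; exact congrArg Blob.c hs
  rw [hC] at hNF
  obtain ⟨s2, l2, hsh, hcov2, hwv2, he2, hN2⟩ := zmain π hw' (by rw [hC]; exact fun x hx => hx)
    hc he hNF (by
      rw [Nat.card_eq_fintype_card] at hlen
      exact hlen.trans (hN _))
  obtain ⟨s1, hsh1, hLI1⟩ := hLI.shuf hsh
  have hcov2' : cov π (lts G s2) = b.C := by
    apply Finset.eq_of_subset_of_card_le hcov2
    refine (NF_card (by have := hN3 b.C.card; omega) hN2).trans (Finset.card_le_card ?_)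
    intro x hx
    exact Emb_mem_cov π he2 (List.mem_toFinset.1 hx)
  refine ⟨s1, s2, hsh1, hLI1, ⟨l2, he2, by rw [hcov2']; exact hN2⟩, ?_⟩
  apply Blob.ext'
  · change cov π _ = cov π _
    rw [hcov2', hcov]
  · change val π _ = val π _
    rw [val_lts, hwv2, hv]; simp

theorem lts_append_inv {w : List A} {f W : List (Tok A G)} (h : lts G w = f ++ W) :
    ∃ s w', w = s ++ w' ∧ f = lts G s ∧ W = lts G w' := by
  obtain ⟨s, w', rfl, h1, h2⟩ := List.map_eq_append_iff.1 h
  exact ⟨s, w', rfl, h1.symm, h2.symm⟩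

theorem coarse_lts_bl {w : List A} {W : List (Tok A G)} {b : Blob G}
    (h : Coarse π N (lts G w) (.bl b :: W)) :
    ∃ s w', w = s ++ w' ∧ GoodF π N (lts G s) ∧ blobOf π (lts G s) = b ∧
      Coarse π N (lts G w') W := by
  obtain ⟨f, W', e, h1, h2, h3⟩ := coarse_cons_inv π N h
  obtain ⟨s, w', rfl, rfl, rfl⟩ := lts_append_inv e
  exact ⟨s, w', rfl, h1, h2, h3⟩

theorem coarse_lts_lt {w : List A} {W : List (Tok A G)} {a : A}
    (h : Coarse π N (lts G w) (.lt a :: W)) :
    ∃ w', w = a :: w' ∧ Coarse π N (lts G w') W := by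
  generalize e : lts G w = X at h
  cases h with
  | lt a h =>
    cases w with
    | nil => simp at e
    | cons x w =>
      simp only [lts_cons, List.cons.injEq, Tok.lt.injEq] at e
      obtain ⟨rfl, rfl⟩ := e
      exact ⟨w, rfl, h⟩

theorem coarse_nil {w : List A} (h : Coarse π N (lts G w) []) : w = [] := by
  generalize e : lts G w = X at h
  cases h with
  | nil =>
    cases w with
    | nil => rfl
    | cons x w => simp at e

theorem zero_cost [Fintype G] (hN : ∀ m, Fintype.card G * Fintype.card G ≤ N m)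
    (hN3 : ∀ m, 3 ≤ N m) {W V : List (Tok A G)} {v : List A} (h : ZI π W v V) :
    ∀ {w : List A}, Coarse π N (lts G w) W →
      ∃ w1 w2, Shuf w v w1 ∧ LI π w2 w1 ∧ Coarse π N (lts G w2) V := by
  induction h with
  | nil u =>
    intro w hw
    rw [coarse_nil π hw]
    exact ⟨u, u, Shuf.right_only u, LI.refl π u, Coarse.refl π _⟩
  | lt u a _ ih =>
    intro w hw
    obtain ⟨w', rfl, hw'⟩ := coarse_lts_lt π hw
    obtain ⟨w1, w2, h1, h2, h3⟩ := ih hw'
    refine ⟨u ++ a :: w1, u ++ a :: w2, ?_, ?_, ?_⟩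
    · have := (Shuf.right_only u).append (Shuf.left a h1)
      simpa using this
    · exact LI.append_left u (LI.append_left [a] h2)
    · rw [lts_append, lts_cons]
      exact (Coarse.refl π _).append π (.lt a h3)
  | bl b hR hcov _ ih =>
    intro w hw
    obtain ⟨s, w', rfl, hg, hb, hw'⟩ := coarse_lts_bl π hw
    obtain ⟨w1, w2, h1, h2, h3⟩ := ih hw'
    obtain ⟨s1, s2, k1, k2, k3, k4⟩ := zero_blob π hR hcov hb hg hN hN3
    refine ⟨s1 ++ w1, s2 ++ w2, k1.append h1, k2.append h2, ?_⟩
    rw [lts_append, ← k4]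
    exact .mg _ k3 h3

end zero

end Pool.Agent.Dec56
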